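import Pool.Agent.SST.T.Comp

/-!
# SST-T-Rec: the recursion between all and connected gluings

PROOF. `tot_comp` with `D = Fin (m+1)`, `d₀ = 0`. By `con_congr`, `tot_congr` the term of `K` is `con (Fin K.card) x * tot (Fin (m + 1 - K.card)) x` (`Fintype.equivFinOfCardEq`, `Fintype.card_coe`, `Fintype.card_subtype_compl`...). Group the `K ∋ 0` by cardinality `k + 1`: their number is `(m).choose k` (`K ↦ K.erase 0` is a bijection onto the `k`-subsets of `univ.erase 0`, which has `m` elements: `Finset.card_powersetCard`;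
e.g. `Finset.sum_fiberwise` or rewrite the sum over `K ∋ 0` as a sum over `(univ.erase 0).powerset` of `insert 0 L` and use `Finset.sum_powerset_apply_card`).
(b) `tot_zero`: `Tri (Fin 0)` has exactly one element and `V` is empty. (c) if `3` does not divide `m`, then `Tri (Fin m)` is empty (`f` has order dividing 3 without fixed points: `3 ∣ Fintype.card`, e.g. `Equiv.Perm.card_fixedPoints_modEq` (p-group fixed point lemma) or orbits), so `tot = con = 0`.
-/

namespace SST.T

private theorem tot_rec_aux (m : ℕ) (x : ℚ) (K : Finset (Fin (m + 1))) :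
    con {y : Fin (m + 1) // y ∈ K} x * tot {y : Fin (m + 1) // y ∉ K} x =
      con (Fin K.card) x * tot (Fin (m + 1 - K.card)) x := by
  have h1 : con {y : Fin (m + 1) // y ∈ K} x = con (Fin K.card) x :=
    con_congr K.equivFin x
  have hc : Fintype.card {y : Fin (m + 1) // y ∉ K} = m + 1 - K.card := by
    rw [Fintype.card_subtype_compl, Fintype.card_coe, Fintype.card_fin]
  have h2 : tot {y : Fin (m + 1) // y ∉ K} x = tot (Fin (m + 1 - K.card)) x :=
    tot_congr (Fintype.equivFinOfCardEq hc) x
  rw [h1, h2]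

theorem tot_rec (m : ℕ) (x : ℚ) : tot (Fin (m + 1)) x =
    ∑ k ∈ Finset.range (m + 1), (m.choose k : ℚ) * con (Fin (k + 1)) x * tot (Fin (m - k)) x := by
  rw [tot_comp (0 : Fin (m + 1)) x]
  rw [Finset.sum_congr rfl (fun K _ => tot_rec_aux m x K)]
  have hbij : ∑ K ∈ (Finset.univ : Finset (Finset (Fin (m + 1)))).filter (fun K => (0 : Fin (m + 1)) ∈ K),
      con (Fin K.card) x * tot (Fin (m + 1 - K.card)) x =
      ∑ L ∈ ((Finset.univ : Finset (Fin (m + 1))).erase 0).powerset,
        con (Fin (L.card + 1)) x * tot (Fin (m + 1 - (L.card + 1))) x := by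
    refine Finset.sum_nbij' (fun K => K.erase 0) (fun L => insert 0 L) ?_ ?_ ?_ ?_ ?_
    · intro K _
      rw [Finset.mem_powerset]
      exact Finset.erase_subset_erase _ (Finset.subset_univ _)
    · intro L _
      simp
    · intro K hK
      exact Finset.insert_erase (Finset.mem_filter.mp hK).2
    · intro L hL
      rw [Finset.mem_powerset] at hL
      refine Finset.erase_insert ?_
      intro h
      exact absurd (hL h) (by simp)
    · intro K hK
      have h0 : (0 : Fin (m + 1)) ∈ K := (Finset.mem_filter.mp hK).2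
      have h1 : (K.erase 0).card + 1 = K.card := Finset.card_erase_add_one h0
      simp only [h1]
  rw [hbij, Finset.sum_powerset_apply_card
    (fun j => con (Fin (j + 1)) x * tot (Fin (m + 1 - (j + 1))) x)]
  have hcard : ((Finset.univ : Finset (Fin (m + 1))).erase 0).card = m := by
    rw [Finset.card_erase_of_mem (Finset.mem_univ _), Finset.card_univ, Fintype.card_fin]
    rfl
  rw [hcard]
  refine Finset.sum_congr rfl (fun k _ => ?_)
  rw [nsmul_eq_mul, Nat.add_sub_add_right, mul_assoc]

theorem tot_zero (x : ℚ) : tot (Fin 0) x = 1 := by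
  let T0 : Tri (Fin 0) :=
    { a := Equiv.refl _, f := Equiv.refl _, aa := fun d => d.elim0, ane := fun d => d.elim0,
      fff := fun d => d.elim0, fne := fun d => d.elim0 }
  have hu : ∀ T : Tri (Fin 0), T = T0 := by
    intro T
    apply Tri.ext' <;> (ext d; exact d.elim0)
  let _ : Unique (Tri (Fin 0)) := ⟨⟨T0⟩, hu⟩
  unfold tot
  rw [finsum_unique]
  have hV : IsEmpty (default : Tri (Fin 0)).V := by
    constructor
    intro v
    exact Quotient.inductionOn v (fun d => d.elim0)
  rw [Nat.card_of_isEmpty, pow_zero]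

private theorem tri_empty {m : ℕ} (hm : ¬ 3 ∣ m) : IsEmpty (Tri (Fin m)) := by
  constructor
  intro T
  have : Fact (Nat.Prime 3) := ⟨Nat.prime_three⟩
  have h1 : T.f ^ 3 ^ 1 = 1 := by
    ext d
    simp only [pow_one, pow_succ, pow_zero, one_mul, Equiv.Perm.mul_apply, T.fff,
      Equiv.Perm.one_apply]
  obtain ⟨d, hd⟩ := Equiv.Perm.exists_fixed_point_of_prime (p := 3) (n := 1)
    (by rwa [Fintype.card_fin]) h1
  exact T.fne d hd

theorem tot_ndvd {m : ℕ} (hm : ¬ 3 ∣ m) (x : ℚ) : tot (Fin m) x = 0 := by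
  have := tri_empty hm
  unfold tot
  exact finsum_of_isEmpty _

theorem con_ndvd {m : ℕ} (hm : ¬ 3 ∣ m) (x : ℚ) : con (Fin m) x = 0 := by
  have := tri_empty hm
  have : IsEmpty {T : Tri (Fin m) // T.Conn} := ⟨fun T => isEmptyElim T.1⟩
  unfold con
  exact finsum_of_isEmpty _

end SST.T
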