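import Pool.Agent.SST.T.Defs

/-!
# SST-T-Conj: summation over the rotations `f`

PROOF. `D = Fin (3 b)`, `E = Fin b × Fin 3`, `φ = phi b`. `Tri D` corresponds to pairs `(a, f)`, `a ∈ Inv univ`, `f ∈ R := {f : Perm D | f (f (f d)) = d, f d ≠ d}`; `Nat.card T.V = cyc (f * a)` (definitionally: `T.V = Quotient (SameCycle.setoid T.s)`, `T.s = f * a`). So `tot D x = ∑ f ∈ R, ∑ a ∈ Inv univ, x ^ cyc (f * a)` (`finsum_eq_sum_of_fintype`-type lemma with `Fintype.ofFinite`, an `Equiv` between `Tri D` and the subtype).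
For every `f ∈ R` there is `e : E ≃ D` with `f = e φ e⁻¹` (i.e. `f (e z) = e (φ z)`): both `f` and `e₀ φ e₀⁻¹` (`e₀ : E ≃ D` any equivalence, cards agree) have cycle type `replicate b 3`, so they are conjugate (`Equiv.Perm.isConj_iff_cycleType_eq`); the cycle type of an element of `R`: all cycles have length dividing `3` and there are no fixed points
(`Equiv.Perm.cycleType_prime_order`, `Equiv.Perm.cycleType_eq..`, `orderOf`; `sum cycleType = card support = 3 b`). Then `a ↦ e⁻¹ a e` is a bijection `Inv (univ : Finset D) → Inv (univ : Finset E)` and `cyc (f * a) = cyc (φ * (e⁻¹ a e))` (conjugation by `e`: private lemma `cyc (e σ e⁻¹) = cyc σ`, `Quotient.congr`, `SameCycle` transported).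
`R.card = (3 b)! / (3 ^ b * b !)`: `R = {f | f.cycleType = replicate b 3}`, `Equiv.Perm.card_of_cycleType` (Mathlib, GroupTheory/Perm/Centralizer): `(3b)! = ((3b - 3b)! * (∏ = 3^b) * b!) * card`. For `b = 0` everything is `1` (`D` empty). (`Inv univ` may be empty if `3 b` is odd; nothing special.)
-/

namespace SST.T

/-- the rotations: permutations whose cube is the identity, without fixed points -/
private noncomputable def cjR (D : Type) [Fintype D] [DecidableEq D] : Finset (Equiv.Perm D) :=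
  Finset.univ.filter fun f => (∀ d, f (f (f d)) = d) ∧ ∀ d, f d ≠ d

private theorem cjR_mem {D : Type} [Fintype D] [DecidableEq D] (f : Equiv.Perm D) :
    f ∈ cjR D ↔ (∀ d, f (f (f d)) = d) ∧ ∀ d, f d ≠ d := by
  simp [cjR]

private theorem cjInv_mem {D : Type} [Fintype D] [DecidableEq D] (a : Equiv.Perm D) :
    a ∈ Inv (Finset.univ : Finset D) ↔ (∀ d, a (a d) = d) ∧ ∀ d, a d ≠ d := by
  simp [Inv]

private theorem cjPairs (D : Type) [Fintype D] [DecidableEq D] (x : ℚ) :
    tot D x = ∑ f ∈ cjR D, ∑ a ∈ Inv (Finset.univ : Finset D), x ^ cyc (f * a) := by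
  classical
  haveI : Fintype (Tri D) := Fintype.ofFinite _
  unfold tot
  rw [finsum_eq_sum_of_fintype, ← Finset.sum_product' (cjR D) (Inv (Finset.univ : Finset D))
    (fun f a => x ^ cyc (f * a))]
  refine Finset.sum_bij' (fun T _ => (T.f, T.a))
    (fun p hp => ⟨p.2, p.1, ((cjInv_mem p.2).1 (Finset.mem_product.1 hp).2).1,
      ((cjInv_mem p.2).1 (Finset.mem_product.1 hp).2).2,
      ((cjR_mem p.1).1 (Finset.mem_product.1 hp).1).1,
      ((cjR_mem p.1).1 (Finset.mem_product.1 hp).1).2⟩) ?_ ?_ ?_ ?_ ?_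
  · intro T _
    exact Finset.mem_product.2 ⟨(cjR_mem _).2 ⟨T.fff, T.fne⟩, (cjInv_mem _).2 ⟨T.aa, T.ane⟩⟩
  · intro p _
    exact Finset.mem_univ _
  · intro T _
    rfl
  · intro p _
    rfl
  · intro T _
    rfl

private theorem cjCyc {E D : Type} (e : E ≃ D) (σ : Equiv.Perm E) (τ : Equiv.Perm D)
    (h : ∀ z, τ (e z) = e (σ z)) : cyc τ = cyc σ := by
  have hτ : τ = e.permCongrHom σ := by
    ext y
    obtain ⟨z, rfl⟩ := e.surjective y
    rw [h z]
    simp [Equiv.permCongrHom]
  have hz : ∀ (k : ℤ) (z : E), (τ ^ k) (e z) = e ((σ ^ k) z) := by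
    intro k z
    rw [hτ, ← map_zpow]
    simp [Equiv.permCongrHom]
  unfold cyc
  refine (Nat.card_congr (Quotient.congr e ?_)).symm
  intro y z
  show Equiv.Perm.SameCycle σ y z ↔ Equiv.Perm.SameCycle τ (e y) (e z)
  constructor
  · rintro ⟨k, hk⟩
    exact ⟨k, by rw [hz, hk]⟩
  · rintro ⟨k, hk⟩
    refine ⟨k, e.injective ?_⟩
    rw [← hz, hk]

private theorem cjType (b : ℕ) (f : Equiv.Perm (Fin (3 * b))) :
    f ∈ cjR (Fin (3 * b)) ↔ f.cycleType = Multiset.replicate b 3 := by
  rw [cjR_mem]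
  constructor
  · rintro ⟨h1, h2⟩
    have h3 : f ^ 3 = 1 := by
      ext d
      have := h1 d
      simp only [pow_succ, pow_zero, one_mul, Equiv.Perm.coe_mul, Function.comp_apply, Equiv.Perm.coe_one,
        id_eq]
      rw [this]
    have h4 : ∀ n ∈ f.cycleType, n = 3 := by
      intro n hn
      have h5 : n ∣ 3 := (Equiv.Perm.dvd_of_mem_cycleType hn).trans (orderOf_dvd_of_pow_eq_one h3)
      have h6 := Equiv.Perm.two_le_of_mem_cycleType hn
      rcases (Nat.dvd_prime Nat.prime_three).1 h5 with h7 | h7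
      · omega
      · exact h7
    have h5 := Multiset.eq_replicate_card.2 h4
    have h6 : f.support = Finset.univ := by
      ext d
      simp [h2 d]
    have h7 := Equiv.Perm.sum_cycleType f
    rw [h6, Finset.card_univ, Fintype.card_fin, h5, Multiset.sum_replicate, smul_eq_mul] at h7
    have h8 : Multiset.card f.cycleType = b := by omega
    rw [h5, h8]
  · intro h
    have h1 : f ^ 3 = 1 := by
      rw [← orderOf_dvd_iff_pow_eq_one, ← Equiv.Perm.lcm_cycleType, h]
      exact Multiset.lcm_dvd.2 fun a ha => by rw [Multiset.eq_of_mem_replicate ha]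
    have h2 : f.support = Finset.univ := by
      rw [← Finset.card_eq_iff_eq_univ, ← Equiv.Perm.sum_cycleType, h, Multiset.sum_replicate,
        Fintype.card_fin, smul_eq_mul, mul_comm]
    refine ⟨fun d => ?_, fun d => ?_⟩
    · have h3 : (f ^ 3) d = d := by rw [h1]; rfl
      simpa only [pow_succ, pow_zero, one_mul, Equiv.Perm.coe_mul, Function.comp_apply] using h3
    · have h3 : d ∈ f.support := by rw [h2]; exact Finset.mem_univ d
      exact Equiv.Perm.mem_support.1 h3

private theorem cjCard (b : ℕ) : ((cjR (Fin (3 * b))).card : ℚ) =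
    ((3 * b).factorial : ℚ) / (3 ^ b * b.factorial) := by
  have h1 : cjR (Fin (3 * b)) = (Finset.univ.filter fun g : Equiv.Perm (Fin (3 * b)) =>
      g.cycleType = Multiset.replicate b 3) := by
    ext f
    rw [cjType, Finset.mem_filter]
    exact ⟨fun h => ⟨Finset.mem_univ _, h⟩, fun h => h.2⟩
  have h2 := Equiv.Perm.card_of_cycleType_mul_eq (Fin (3 * b)) (Multiset.replicate b 3)
  have hcond : ((Multiset.replicate b 3).sum ≤ Fintype.card (Fin (3 * b)) ∧
      ∀ a ∈ Multiset.replicate b 3, 2 ≤ a) := by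
    refine ⟨?_, ?_⟩
    · rw [Multiset.sum_replicate, Fintype.card_fin, smul_eq_mul, mul_comm]
    · intro a ha
      rw [Multiset.eq_of_mem_replicate ha]
      norm_num
  rw [if_pos hcond, ← h1, Fintype.card_fin, Multiset.sum_replicate, Multiset.prod_replicate,
    smul_eq_mul, mul_comm b 3, Nat.sub_self, Nat.factorial_zero, one_mul] at h2
  have h3 : (∏ n ∈ (Multiset.replicate b 3).toFinset, ((Multiset.replicate b 3).count n).factorial) =
      b.factorial := by
    rw [Multiset.toFinset_replicate]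
    by_cases hb : b = 0
    · rw [if_pos hb, hb]
      simp
    · rw [if_neg hb, Finset.prod_singleton, Multiset.count_replicate_self]
  rw [h3] at h2
  rw [eq_div_iff (by positivity)]
  exact_mod_cast h2

private theorem cjPhi (b : ℕ) : (∀ z, phi b (phi b (phi b z)) = z) ∧ ∀ z, phi b z ≠ z := by
  have h3 : ∀ r : Fin 3, finRotate 3 (finRotate 3 (finRotate 3 r)) = r := by decide
  have h4 : ∀ r : Fin 3, finRotate 3 r ≠ r := by decide
  refine ⟨?_, ?_⟩
  · rintro ⟨i, r⟩
    show (i, finRotate 3 (finRotate 3 (finRotate 3 r))) = (i, r)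
    rw [h3]
  · rintro ⟨i, r⟩ h
    have h5 : (i, finRotate 3 r) = (i, r) := h
    exact h4 r (Prod.ext_iff.1 h5).2

private theorem cjConj (b : ℕ) {f : Equiv.Perm (Fin (3 * b))} (hf : f ∈ cjR (Fin (3 * b))) :
    ∃ e : (Fin b × Fin 3) ≃ Fin (3 * b), ∀ z, f (e z) = e (phi b z) := by
  have hc : Fintype.card (Fin b × Fin 3) = Fintype.card (Fin (3 * b)) := by
    rw [Fintype.card_prod, Fintype.card_fin, Fintype.card_fin, Fintype.card_fin, mul_comm]
  set e₀ : (Fin b × Fin 3) ≃ Fin (3 * b) := Fintype.equivOfCardEq hc with he₀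
  set f' : Equiv.Perm (Fin (3 * b)) := e₀.permCongr (phi b) with hf'
  have happ : ∀ y, f' y = e₀ (phi b (e₀.symm y)) := fun y => by
    rw [hf', Equiv.permCongr_apply]
  have hmem : f' ∈ cjR (Fin (3 * b)) := by
    rw [cjR_mem]
    refine ⟨fun d => ?_, fun d hd => ?_⟩
    · rw [happ, happ, happ, Equiv.symm_apply_apply, Equiv.symm_apply_apply, (cjPhi b).1,
        Equiv.apply_symm_apply]
    · rw [happ] at hd
      have h1 : phi b (e₀.symm d) = e₀.symm d := by
        have h2 := congrArg e₀.symm hd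
        rwa [Equiv.symm_apply_apply] at h2
      exact (cjPhi b).2 _ h1
  have h1 : IsConj f' f := by
    rw [Equiv.Perm.isConj_iff_cycleType_eq, (cjType b f').1 hmem, (cjType b f).1 hf]
  obtain ⟨c, hc⟩ := isConj_iff.1 h1
  refine ⟨e₀.trans c, fun z => ?_⟩
  show f (c (e₀ z)) = c (e₀ (phi b z))
  rw [← hc]
  have h2 : c⁻¹ (c (e₀ z)) = e₀ z := c.symm_apply_apply (e₀ z)
  show c (f' (c⁻¹ (c (e₀ z)))) = _
  rw [h2, happ, Equiv.symm_apply_apply]

private theorem cjInner (b : ℕ) (x : ℚ) {f : Equiv.Perm (Fin (3 * b))}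
    (hf : f ∈ cjR (Fin (3 * b))) :
    ∑ a ∈ Inv (Finset.univ : Finset (Fin (3 * b))), x ^ cyc (f * a) =
      ∑ α ∈ Inv (Finset.univ : Finset (Fin b × Fin 3)), x ^ cyc (phi b * α) := by
  obtain ⟨e, he⟩ := cjConj b hf
  refine Finset.sum_bij' (fun a _ => e.symm.permCongr a) (fun α _ => e.permCongr α) ?_ ?_ ?_ ?_ ?_
  · intro a ha
    rw [cjInv_mem] at ha ⊢
    refine ⟨fun d => ?_, fun d hd => ?_⟩
    · rw [Equiv.permCongr_apply, Equiv.permCongr_apply, Equiv.symm_symm, Equiv.apply_symm_apply, ha.1,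
        Equiv.symm_apply_apply]
    · rw [Equiv.permCongr_apply, Equiv.symm_symm] at hd
      apply ha.2 (e d)
      conv_rhs => rw [← hd]
      rw [Equiv.apply_symm_apply]
  · intro a ha
    rw [cjInv_mem] at ha ⊢
    refine ⟨fun d => ?_, fun d hd => ?_⟩
    · rw [Equiv.permCongr_apply, Equiv.permCongr_apply, Equiv.symm_apply_apply, ha.1,
        Equiv.apply_symm_apply]
    · rw [Equiv.permCongr_apply] at hd
      apply ha.2 (e.symm d)
      conv_rhs => rw [← hd]
      rw [Equiv.symm_apply_apply]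
  · intro a _
    ext d
    simp [Equiv.permCongr_apply]
  · intro a _
    ext d
    · simp [Equiv.permCongr_apply]
    · simp [Equiv.permCongr_apply]
  · intro a _
    congr 1
    refine cjCyc e _ _ fun z => ?_
    show f (a (e z)) = e (phi b (e.symm (a (e z))))
    rw [← he, Equiv.apply_symm_apply]

theorem tot_fin (b : ℕ) (x : ℚ) : tot (Fin (3 * b)) x =
    (((3 * b).factorial : ℚ) / (3 ^ b * b.factorial)) *
      ∑ α ∈ Inv (Finset.univ : Finset (Fin b × Fin 3)), x ^ cyc (phi b * α) := by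
  rw [cjPairs, Finset.sum_congr rfl (fun f hf => cjInner b x hf), Finset.sum_const, nsmul_eq_mul, cjCard]

end SST.T
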