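import Pool.Agent.SST.T.Final

/-!
# Project SST, block A: the two Toda inequalities in the form used by the end block

`toda_one` and `toda_two` are (7.1) and (7.2) of the paper proof (`/team-store/sst_proof.md`).
The subtraction `n + 3 - 2 * g` is the truncated subtraction of natural numbers; for `2 * g > n + 1`
both left sides are `0`.
-/

namespace SST

theorem toda_one {n g : ℕ} (hn : 1 ≤ n) :
    ((n + 3 - 2 * g).choose 2 : ℝ) * nu (n + 1) g ≤ 6 * n * (3 * n + 2) * nu n g :=
  T.nu_ineq1 n g hn

theorem toda_two {n g : ℕ} (hn : 1 ≤ n) :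
    ((n + 3 - 2 * g).choose 4 : ℝ) * nu (n + 1) g ≤ 6 * n * (3 * n + 2) * nu n (g + 1) :=
  T.nu_ineq2 n g hn

end SST
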