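import Pool.Agent.SST.T.Defs

/-!
# SST-T-Alt1: `p_1` times the Vandermonde determinant
-/

namespace SST.T

open MvPolynomial

private theorem a1Sum {R : Type*} [CommRing R] {N : ℕ} (M : Matrix (Fin N) (Fin N) R)
    (v : Fin N → R) :
    ∑ i, (M.updateRow i (fun j => v j * M i j)).det = (∑ j, v j) * M.det := by
  simp_rw [Matrix.det_apply']
  rw [Finset.sum_comm, Finset.mul_sum]
  refine Finset.sum_congr rfl fun σ _ => ?_
  have h : ∀ i, ∏ j, (M.updateRow i (fun j => v j * M i j)) (σ j) j =
      v (σ.symm i) * ∏ j, M (σ j) j := by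
    intro i
    have h1 : ∀ j, (M.updateRow i (fun j => v j * M i j)) (σ j) j =
        (if j = σ.symm i then v j else 1) * M (σ j) j := by
      intro j
      rw [Matrix.updateRow_apply]
      by_cases hj : σ j = i
      · have : j = σ.symm i := by rw [← hj]; simp
        rw [if_pos hj, if_pos this, hj]
      · have : j ≠ σ.symm i := by rintro rfl; simp at hj
        rw [if_neg hj, if_neg this, one_mul]
    rw [Finset.prod_congr rfl (fun j _ => h1 j), Finset.prod_mul_distrib]
    simp
  simp_rw [h]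
  rw [← Finset.mul_sum, ← Finset.sum_mul, Equiv.sum_comp σ.symm v]
  ring

theorem p1_alt (N : ℕ) (hN : 1 ≤ N) : psum (Fin N) ℚ 1 * alt (e0 N) = alt (e1 N) := by
  obtain ⟨n, rfl⟩ : ∃ n, N = n + 1 := ⟨N - 1, by omega⟩
  set M : Matrix (Fin (n + 1)) (Fin (n + 1)) (MvPolynomial (Fin (n + 1)) ℚ) :=
    Matrix.of fun i j => (X j ^ e0 (n + 1) i : MvPolynomial (Fin (n + 1)) ℚ) with hM
  have h1 := a1Sum M (fun j => X j)
  have h2 : psum (Fin (n + 1)) ℚ 1 = ∑ j, X j := by simp [psum]
  rw [h2]
  change (∑ j, X j) * M.det = _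
  rw [← h1, Fin.sum_univ_castSucc, Finset.sum_eq_zero, zero_add]
  · unfold alt
    congr 1
    ext i j : 2
    rw [Matrix.updateRow_apply]
    by_cases hi : i = Fin.last n
    · subst hi
      simp [hM, e0, e1, pow_succ']
    · have hi' : (i : ℕ) ≠ n := fun h => hi (Fin.ext h)
      simp [hM, e0, e1, hi, hi']
  · intro i _
    have hne : (Fin.castSucc i : Fin (n + 1)) ≠ i.succ := by
      intro h
      have := congrArg Fin.val h
      simp at this
    apply Matrix.det_zero_of_row_eq hne
    rw [Matrix.updateRow_self, Matrix.updateRow_ne hne.symm]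
    ext j : 1
    simp [hM, e0, pow_succ']

end SST.T
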