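import Pool.Agent.SST.T.Defs

/-!
# SST-T-Andr: Andreief's identity for alternants

PROOF. `alt e = ∑ σ, sign σ • ∏ i, X i ^ e (σ i)` (`Matrix.det_apply`, entry `(σ i, i)` of the matrix is `X i ^ e (σ i)`). So
`alt e * alt e' = ∑ σ, ∑ τ, sign σ sign τ ∏ i, X i ^ (e (σ i) + e' (τ i))`, and `ev` of the product of powers is `∏ i, h (e (σ i) + e' (τ i))` (`∏ i, X i ^ (b i) = monomial b 1` with `b : Fin N →₀ ℕ`,
`Finsupp.equivFunOnFinite.symm`; private lemma `ev h N (∏ i, X i ^ b i) = ∏ i, h (b i)`; see `MvPolynomial.monomial_eq`, `Finsupp.prod_fintype`).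
For fixed `τ` substitute `σ = ρ * τ` (`Equiv.sum_comp (Equiv.mulRight τ)`): `sign (ρ τ) sign τ = sign ρ` and `∏ i, h (e (ρ (τ i)) + e' (τ i)) = ∏ i, h (e (ρ i) + e' i)` (`Equiv.prod_comp τ`), so the inner sum is `det (hk h e e')` (`Matrix.det_apply`, entry `(ρ i, i)`) for every `τ`;
there are `N !` of them (`Fintype.card_perm`).
`alt_e0`: `alt (e0 N) = det (vandermonde X)ᵀ` (`Matrix.det_transpose`, `Matrix.det_vandermonde`).
-/

namespace SST.T

open MvPolynomial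

private theorem ev_pow {R : Type*} [CommRing R] [Algebra ℚ R] (h : ℕ → R) {N : ℕ} (b : Fin N → ℕ) :
    ev h N (∏ i, X i ^ b i) = ∏ i, h (b i) := by
  have h1 : (∏ i, X i ^ b i : MvPolynomial (Fin N) ℚ)
      = monomial (Finsupp.equivFunOnFinite.symm b) 1 := by
    rw [monomial_eq, Finsupp.prod_fintype]
    · simp
    · intro i; simp
  rw [h1, ev_monomial]
  simp

private theorem alt_eq {N : ℕ} (e : Fin N → ℕ) :
    alt e = ∑ σ : Equiv.Perm (Fin N), ((Equiv.Perm.sign σ : ℤ) : ℚ) • ∏ i, X i ^ e (σ i) := by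
  unfold alt
  rw [Matrix.det_apply]
  refine Finset.sum_congr rfl fun σ _ => ?_
  rw [Units.smul_def, ← Int.cast_smul_eq_zsmul ℚ]
  rfl

theorem ev_alt {R : Type*} [CommRing R] [Algebra ℚ R] (h : ℕ → R) {N : ℕ} (e e' : Fin N → ℕ) :
    ev h N (alt e * alt e') = (N.factorial : R) * (hk h e e').det := by
  have h1 : alt e * alt e' = ∑ τ : Equiv.Perm (Fin N), ∑ σ : Equiv.Perm (Fin N),
      (((Equiv.Perm.sign σ : ℤ) : ℚ) * ((Equiv.Perm.sign τ : ℤ) : ℚ)) •
        ∏ i, (X i : MvPolynomial (Fin N) ℚ) ^ (e (σ i) + e' (τ i)) := by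
    rw [alt_eq e, alt_eq e', Finset.sum_mul_sum, Finset.sum_comm]
    refine Finset.sum_congr rfl fun τ _ => Finset.sum_congr rfl fun σ _ => ?_
    rw [smul_mul_smul_comm, ← Finset.prod_mul_distrib]
    simp only [pow_add]
  have h2 : ∀ τ : Equiv.Perm (Fin N), ∑ σ : Equiv.Perm (Fin N),
      (((Equiv.Perm.sign σ : ℤ) : ℚ) * ((Equiv.Perm.sign τ : ℤ) : ℚ)) •
        ∏ i, h (e (σ i) + e' (τ i)) = (hk h e e').det := by
    intro τ
    rw [← Equiv.sum_comp (Equiv.mulRight τ), Matrix.det_apply]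
    refine Finset.sum_congr rfl fun ρ _ => ?_
    have h3 : (((Equiv.Perm.sign (Equiv.mulRight τ ρ) : ℤ) : ℚ) *
        ((Equiv.Perm.sign τ : ℤ) : ℚ)) = ((Equiv.Perm.sign ρ : ℤ) : ℚ) := by
      rw [Equiv.coe_mulRight, Equiv.Perm.sign_mul]
      have : ((Equiv.Perm.sign τ : ℤ) : ℚ) * ((Equiv.Perm.sign τ : ℤ) : ℚ) = 1 := by
        rcases Int.units_eq_one_or (Equiv.Perm.sign τ) with h | h <;> rw [h] <;> norm_num
      push_cast
      rw [mul_assoc, this, mul_one]
    rw [h3, Units.smul_def, ← Int.cast_smul_eq_zsmul ℚ]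
    congr 1
    have h4 := Equiv.prod_comp τ (fun i => h (e (ρ i) + e' i))
    simp only [hk, Matrix.of_apply]
    rw [← h4]
    refine Finset.prod_congr rfl fun i _ => ?_
    simp [Equiv.Perm.mul_apply]
  rw [h1, map_sum]
  simp only [map_sum, map_smul, ev_pow]
  rw [Finset.sum_congr rfl fun τ _ => h2 τ, Finset.sum_const, Finset.card_univ,
    Fintype.card_perm, Fintype.card_fin, nsmul_eq_mul]

theorem alt_e0 (N : ℕ) : alt (e0 N) = vd N := by
  have h1 : (Matrix.of fun i j : Fin N => (X j ^ e0 N i : MvPolynomial (Fin N) ℚ))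
      = Matrix.transpose (Matrix.vandermonde (fun i : Fin N => (X i : MvPolynomial (Fin N) ℚ))) := by
    ext1 i j
    simp [Matrix.vandermonde_apply, e0]
  unfold alt vd
  rw [h1, Matrix.det_transpose, Matrix.det_vandermonde]

end SST.T
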