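import Pool.Agent.SST.T.Ht

/-!
# SST-T-BHt: derivative and constant coefficient of `ev ht`

PROOF. (a) Both sides of `der_ev` are `ℚ`-linear in `Q` (`PowerSeries.derivative ℚ` is linear: `map_add`, `map_smul`/`Derivation.map_smul`), so take `Q = monomial a c` (`MvPolynomial.induction_on'`). `ev_monomial`: `derivative (c • ∏ j, ht (a j)) = c • ∑ j, (∏ i ∈ univ.erase j, ht (a i)) * ht (a j + 3)` (`ht_der`, product rule for finite products:
prove by `Finset.induction_on` with `Derivation.leibniz`, or `Derivation.leibniz_prod` if it exists), and `psum 3 * monomial a c = ∑ j, monomial (a + single j 3) c`, whose value is `c • ∏ i, ht ((a + single j 3) i) = c • (ht (a j + 3) * ∏ i ∈ univ.erase j, ht (a i))`.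
(b) `const_ev`: `PowerSeries.constantCoeff` is a ring homomorphism and `ℚ`-linear; on monomials `constantCoeff (c • ∏ ht (a j)) = c * ∏ mom (a j)` (`ht_const`, `map_prod`, `PowerSeries.smul_eq_C_mul`, `constantCoeff_C`).
-/

namespace SST.T

open MvPolynomial

private theorem BHt_prod {N : ℕ} (s : Finset (Fin N)) (f : Fin N → PowerSeries ℚ) :
    PowerSeries.derivative ℚ (∏ j ∈ s, f j) =
      ∑ j ∈ s, (∏ i ∈ s.erase j, f i) * PowerSeries.derivative ℚ (f j) := by
  classical
  induction s using Finset.induction_on with
  | empty => rw [Finset.prod_empty, Finset.sum_empty, Derivation.map_one_eq_zero]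
  | insert a s ha ih =>
    rw [Finset.prod_insert ha, Finset.sum_insert ha, Finset.erase_insert ha, Derivation.leibniz, ih,
      smul_eq_mul, smul_eq_mul, Finset.mul_sum, add_comm]
    congr 1
    refine Finset.sum_congr rfl fun j hj => ?_
    have hja : a ≠ j := fun h => ha (h ▸ hj)
    rw [Finset.erase_insert_of_ne hja, Finset.prod_insert (fun h => ha (Finset.mem_of_mem_erase h)),
      mul_assoc]

theorem der_ev (N : ℕ) (Q : MvPolynomial (Fin N) ℚ) :
    PowerSeries.derivative ℚ (ev ht N Q) = ev ht N (psum (Fin N) ℚ 3 * Q) := by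
  induction Q using MvPolynomial.induction_on' with
  | monomial a c =>
    have h1 : psum (Fin N) ℚ 3 * monomial a c = ∑ j : Fin N, monomial (Finsupp.single j 3 + a) c := by
      unfold psum
      rw [Finset.sum_mul]
      refine Finset.sum_congr rfl fun j _ => ?_
      rw [X_pow_eq_monomial, monomial_mul, one_mul]
    rw [h1, map_sum, ev_monomial, Derivation.map_smul, BHt_prod, Finset.smul_sum]
    refine Finset.sum_congr rfl fun j _ => ?_
    rw [ev_monomial, ht_der]
    congr 1
    rw [← Finset.mul_prod_erase Finset.univ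
      (fun i => ht ((Finsupp.single j 3 + a : Fin N →₀ ℕ) i)) (Finset.mem_univ j), mul_comm]
    congr 1
    · rw [Finsupp.add_apply, Finsupp.single_eq_same, add_comm]
    · refine Finset.prod_congr rfl fun i hi => ?_
      rw [Finsupp.add_apply, Finsupp.single_eq_of_ne (Finset.ne_of_mem_erase hi), zero_add]
  | add p q hp hq => rw [map_add, map_add, hp, hq, mul_add, map_add]

theorem const_ev (N : ℕ) (Q : MvPolynomial (Fin N) ℚ) :
    PowerSeries.constantCoeff (ev ht N Q) = ev mom N Q := by
  induction Q using MvPolynomial.induction_on' with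
  | monomial a c =>
    rw [ev_monomial, ev_monomial, PowerSeries.smul_eq_C_mul, map_mul, map_prod,
      PowerSeries.constantCoeff_C, smul_eq_mul]
    congr 1
    exact Finset.prod_congr rfl fun j _ => ht_const (a j)
  | add p q hp hq => rw [map_add, map_add, hp, hq, map_add]

theorem der_B (N : ℕ) (Q : MvPolynomial (Fin N) ℚ) :
    PowerSeries.derivative ℚ (B ht N Q) = B ht N (psum (Fin N) ℚ 3 * Q) := by
  rw [B_apply, B_apply, der_ev]
  congr 1
  ring

theorem const_B (N : ℕ) (Q : MvPolynomial (Fin N) ℚ) :
    PowerSeries.constantCoeff (B ht N Q) = B mom N Q := by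
  rw [B_apply, B_apply, const_ev]

end SST.T
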