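import Pool.Agent.SST.T.Sum

/-!
# SST-T-Comp: decomposition by the component of a dart

PROOF. For `T : Tri D` let `cmp T : Set D` be the set of darts reachable from `d₀` by `a` and `f` (e.g. the intersection of all sets `S ∋ d₀` closed under `a` and `f`; since `D` is finite and `a, f` are permutations of finite order (`a a = 1`, `f f f = 1`), the complement of a closed set is closed: `a⁻¹ = a`, `f⁻¹ = f f`).
Decompose `tot D x = ∑ K, ∑ᶠ T with cmp T = K, x ^ #V(T)`. For fixed `K ∋ d₀` the map `(T₁, T₂) ↦ trans (Equiv.sumCompl (· ∈ K)) (dsum T₁ T₂)` is a bijection from `{T₁ : Tri {x // x ∈ K} // T₁.Conn} × Tri {x // x ∉ K}` onto `{T | cmp T = K}`: the inverse restricts `a` and `f` (`Equiv.Perm.subtypePerm`);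
`cmp T = K` iff `K ∋ d₀`, `K` is closed and the restriction to `K` is connected (a closed subset of `K` containing `d₀` is `K`; a nonempty closed `S ⊆ K` not containing `d₀` would have a closed complement in `K` containing `d₀`). `card_V_trans`, `card_V_dsum`: the weight is multiplicative, so the inner sum is `con K x * tot Kᶜ x`.
(`finsum` over finite types: convert with `finsum_eq_sum_of_fintype` after `Fintype.ofFinite`, `Finset.sum_fiberwise`.)
-/

namespace SST.T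

/-- The darts reachable from `d₀`. -/
private def cmpS {D : Type} (d₀ : D) (T : Tri D) : Set D :=
  {y | ∀ S : Set D, d₀ ∈ S → (∀ d ∈ S, T.a d ∈ S ∧ T.f d ∈ S) → y ∈ S}

private lemma cmpS_self {D : Type} (d₀ : D) (T : Tri D) : d₀ ∈ cmpS d₀ T :=
  fun _ h _ => h

private lemma cmpS_closed {D : Type} (d₀ : D) (T : Tri D) :
    ∀ d ∈ cmpS d₀ T, T.a d ∈ cmpS d₀ T ∧ T.f d ∈ cmpS d₀ T :=
  fun d hd => ⟨fun S h0 hS => (hS d (hd S h0 hS)).1, fun S h0 hS => (hS d (hd S h0 hS)).2⟩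

private lemma a_iff {D : Type} (T : Tri D) {S : Set D}
    (hS : ∀ d ∈ S, T.a d ∈ S ∧ T.f d ∈ S) (d : D) : T.a d ∈ S ↔ d ∈ S := by
  constructor
  · intro h
    have := (hS _ h).1
    rwa [T.aa] at this
  · intro h
    exact (hS _ h).1

private lemma f_iff {D : Type} (T : Tri D) {S : Set D}
    (hS : ∀ d ∈ S, T.a d ∈ S ∧ T.f d ∈ S) (d : D) : T.f d ∈ S ↔ d ∈ S := by
  constructor
  · intro h
    have := (hS _ (hS _ h).2).2
    rwa [T.fff] at this
  · intro h
    exact (hS _ h).2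

/-- Restriction of a gluing to an invariant set of darts. -/
private def rs {D : Type} (T : Tri D) (p : D → Prop) (ha : ∀ x, p (T.a x) ↔ p x)
    (hf : ∀ x, p (T.f x) ↔ p x) : Tri {x // p x} where
  a := T.a.subtypePerm ha
  f := T.f.subtypePerm hf
  aa d := by
    apply Subtype.ext
    simp [T.aa]
  ane d := by
    intro h
    exact T.ane d.1 (congrArg Subtype.val h)
  fff d := by
    apply Subtype.ext
    simp [T.fff]
  fne d := by
    intro h
    exact T.fne d.1 (congrArg Subtype.val h)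

private lemma rs_a {D : Type} (T : Tri D) (p : D → Prop) (ha : ∀ x, p (T.a x) ↔ p x)
    (hf : ∀ x, p (T.f x) ↔ p x) (d : {x // p x}) : ((rs T p ha hf).a d : D) = T.a d := rfl

private lemma rs_f {D : Type} (T : Tri D) (p : D → Prop) (ha : ∀ x, p (T.a x) ↔ p x)
    (hf : ∀ x, p (T.f x) ↔ p x) (d : {x // p x}) : ((rs T p ha hf).f d : D) = T.f d := rfl

private lemma rs_conn {D : Type} (d₀ : D) (T : Tri D) (p : D → Prop)
    (hp : ∀ x, p x ↔ x ∈ cmpS d₀ T) (ha : ∀ x, p (T.a x) ↔ p x)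
    (hf : ∀ x, p (T.f x) ↔ p x) : (rs T p ha hf).Conn := by
  intro S hne hS
  set S' : Set D := {d | ∃ h : p d, (⟨d, h⟩ : {x // p x}) ∈ S} with hS'
  have hc : ∀ d ∈ S', T.a d ∈ S' ∧ T.f d ∈ S' := by
    rintro d ⟨h, hd⟩
    obtain ⟨h1, h2⟩ := hS _ hd
    exact ⟨⟨(ha d).2 h, h1⟩, ⟨(hf d).2 h, h2⟩⟩
  by_cases h0 : d₀ ∈ S'
  · ext ⟨y, hy⟩
    simp only [Set.mem_univ, iff_true]
    have h1 : y ∈ cmpS d₀ T := (hp y).1 hy
    obtain ⟨_, h2⟩ := h1 S' h0 hc
    exact h2
  · exfalso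
    have hc2 : ∀ d ∈ S'ᶜ, T.a d ∈ S'ᶜ ∧ T.f d ∈ S'ᶜ := by
      intro d hd
      exact ⟨fun h => hd ((a_iff T hc d).1 h), fun h => hd ((f_iff T hc d).1 h)⟩
    obtain ⟨⟨y, hy⟩, hyS⟩ := hne
    exact (hp y).1 hy S'ᶜ h0 hc2 ⟨hy, hyS⟩

/-- The glued map. -/
private def gl {D : Type} (p : D → Prop) [DecidablePred p] (T₁ : Tri {x // p x})
    (T₂ : Tri {x // ¬ p x}) : Tri D :=
  trans (Equiv.sumCompl p) (dsum T₁ T₂)

private lemma gl_a_pos {D : Type} (p : D → Prop) [DecidablePred p] (T₁ : Tri {x // p x})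
    (T₂ : Tri {x // ¬ p x}) (d : D) (h : p d) : (gl p T₁ T₂).a d = T₁.a ⟨d, h⟩ := by
  simp [gl, trans, dsum, h]

private lemma gl_a_neg {D : Type} (p : D → Prop) [DecidablePred p] (T₁ : Tri {x // p x})
    (T₂ : Tri {x // ¬ p x}) (d : D) (h : ¬ p d) : (gl p T₁ T₂).a d = T₂.a ⟨d, h⟩ := by
  simp [gl, trans, dsum, h]

private lemma gl_f_pos {D : Type} (p : D → Prop) [DecidablePred p] (T₁ : Tri {x // p x})
    (T₂ : Tri {x // ¬ p x}) (d : D) (h : p d) : (gl p T₁ T₂).f d = T₁.f ⟨d, h⟩ := by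
  simp [gl, trans, dsum, h]

private lemma gl_f_neg {D : Type} (p : D → Prop) [DecidablePred p] (T₁ : Tri {x // p x})
    (T₂ : Tri {x // ¬ p x}) (d : D) (h : ¬ p d) : (gl p T₁ T₂).f d = T₂.f ⟨d, h⟩ := by
  simp [gl, trans, dsum, h]

private lemma gl_cmp {D : Type} (d₀ : D) (p : D → Prop) [DecidablePred p] (h0 : p d₀)
    (T₁ : Tri {x // p x}) (hT : T₁.Conn)
    (T₂ : Tri {x // ¬ p x}) (y : D) : y ∈ cmpS d₀ (gl p T₁ T₂) ↔ p y := by
  constructor
  · intro h
    refine h {d | p d} h0 ?_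
    intro d hd
    have hd' : p d := hd
    refine ⟨?_, ?_⟩
    · show p _
      rw [gl_a_pos p T₁ T₂ d hd']
      exact (T₁.a ⟨d, hd'⟩).2
    · show p _
      rw [gl_f_pos p T₁ T₂ d hd']
      exact (T₁.f ⟨d, hd'⟩).2
  · intro hy S hS0 hS
    have h1 := hT {z : {x // p x} | z.1 ∈ S} ⟨⟨d₀, h0⟩, hS0⟩ (by
      intro d hd
      have h2 := hS d.1 hd
      rw [gl_a_pos p T₁ T₂ d.1 d.2, gl_f_pos p T₁ T₂ d.1 d.2] at h2
      exact h2)
    have h2 : (⟨y, hy⟩ : {x // p x}) ∈ {z : {x // p x} | z.1 ∈ S} := by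
      rw [h1]; trivial
    exact h2

private noncomputable def cmpEquiv {D : Type} (d₀ : D) (p : D → Prop) [DecidablePred p]
    (h0 : p d₀) :
    {T : Tri D // ∀ y, p y ↔ y ∈ cmpS d₀ T} ≃
      {T₁ : Tri {x // p x} // T₁.Conn} × Tri {x // ¬ p x} where
  toFun T :=
    have ha : ∀ x, p (T.1.a x) ↔ p x := fun x => by
      rw [T.2, T.2]; exact a_iff T.1 (cmpS_closed d₀ T.1) x
    have hf : ∀ x, p (T.1.f x) ↔ p x := fun x => by
      rw [T.2, T.2]; exact f_iff T.1 (cmpS_closed d₀ T.1) x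
    (⟨rs T.1 p ha hf, rs_conn d₀ T.1 p T.2 ha hf⟩,
      rs T.1 (fun x => ¬ p x) (fun x => not_congr (ha x)) (fun x => not_congr (hf x)))
  invFun q := ⟨gl p q.1.1 q.2, fun y => (gl_cmp d₀ p h0 q.1.1 q.1.2 q.2 y).symm⟩
  left_inv T := by
    apply Subtype.ext
    apply Tri.ext'
    · ext d
      by_cases h : p d
      · exact gl_a_pos p _ _ d h
      · exact gl_a_neg p _ _ d h
    · ext d
      by_cases h : p d
      · exact gl_f_pos p _ _ d h
      · exact gl_f_neg p _ _ d h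
  right_inv q := by
    obtain ⟨⟨T₁, hT₁⟩, T₂⟩ := q
    apply Prod.ext
    · apply Subtype.ext
      apply Tri.ext'
      · ext d
        exact gl_a_pos p _ _ d.1 d.2
      · ext d
        exact gl_f_pos p _ _ d.1 d.2
    · apply Tri.ext'
      · ext d
        exact gl_a_neg p _ _ d.1 d.2
      · ext d
        exact gl_f_neg p _ _ d.1 d.2

private lemma card_gl {D : Type} [Finite D] (p : D → Prop) [DecidablePred p]
    (T₁ : Tri {x // p x}) (T₂ : Tri {x // ¬ p x}) :
    Nat.card (gl p T₁ T₂).V = Nat.card T₁.V + Nat.card T₂.V := by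
  unfold gl
  rw [card_V_trans, card_V_dsum]

private lemma sum_fiber {D : Type} [Finite D] (d₀ : D) (x : ℚ) (p : D → Prop) [DecidablePred p]
    (h0 : p d₀) [Fintype {T : Tri D // ∀ y, p y ↔ y ∈ cmpS d₀ T}] :
    ∑ T : {T : Tri D // ∀ y, p y ↔ y ∈ cmpS d₀ T}, x ^ Nat.card T.1.V =
      con {y : D // p y} x * tot {y : D // ¬ p y} x := by
  classical
  have : Fintype {T₁ : Tri {x // p x} // T₁.Conn} := Fintype.ofFinite _
  have : Fintype (Tri {x // ¬ p x}) := Fintype.ofFinite _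
  unfold con tot
  rw [finsum_eq_sum_of_fintype, finsum_eq_sum_of_fintype, Fintype.sum_mul_sum,
    ← Fintype.sum_prod_type', ← (cmpEquiv d₀ p h0).symm.sum_comp]
  apply Finset.sum_congr rfl
  intro q _
  have h1 : ((cmpEquiv d₀ p h0).symm q).1 = gl p q.1.1 q.2 := rfl
  rw [h1, card_gl, pow_add]

theorem tot_comp {D : Type} [Fintype D] [DecidableEq D] (d₀ : D) (x : ℚ) :
    tot D x = ∑ K ∈ (Finset.univ : Finset (Finset D)).filter (fun K => d₀ ∈ K),
      con {y : D // y ∈ K} x * tot {y : D // y ∉ K} x := by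
  classical
  have : Fintype (Tri D) := Fintype.ofFinite _
  have h1 : tot D x = ∑ T : Tri D, x ^ Nat.card T.V := finsum_eq_sum_of_fintype _
  rw [h1, ← Finset.sum_fiberwise Finset.univ
    (fun T : Tri D => Finset.univ.filter fun y => y ∈ cmpS d₀ T) (fun T : Tri D => x ^ Nat.card T.V),
    Finset.sum_filter]
  apply Finset.sum_congr rfl
  intro K _
  by_cases hK : d₀ ∈ K
  · rw [if_pos hK, ← sum_fiber d₀ x (fun y => y ∈ K) hK]
    rw [Finset.sum_subtype (p := fun T : Tri D => ∀ y, y ∈ K ↔ y ∈ cmpS d₀ T)]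
    intro T
    simp only [Finset.mem_filter, Finset.mem_univ, true_and]
    constructor
    · intro h y
      rw [← h]
      simp
    · intro h
      ext y
      rw [h y]
      simp
  · rw [if_neg hK]
    apply Finset.sum_eq_zero
    intro T hT
    exfalso
    apply hK
    simp only [Finset.mem_filter, Finset.mem_univ, true_and] at hT
    rw [← hT]
    simp [cmpS_self]

end SST.T
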