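import Pool.Agent.SST.Defs

/-!
# SST block A (enumeration, Toda inequality): definitions

`ev h N` is the product functional on `ℚ[x_0, .., x_{N-1}]` with moments `h`, `vd N` the Vandermonde
determinant, `B h N Q = ev h N (vd N ^ 2 * Q)`.
-/

namespace SST.T

open MvPolynomial

/-! ## Product functionals -/

/-- The linear functional with `ev h N (∏ x_j ^ a_j) = ∏ h (a_j)`. -/
noncomputable def ev {R : Type*} [CommRing R] [Algebra ℚ R] (h : ℕ → R) (N : ℕ) :
    MvPolynomial (Fin N) ℚ →ₗ[ℚ] R :=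
  (MvPolynomial.basisMonomials (Fin N) ℚ).constr ℚ (fun a : Fin N →₀ ℕ => ∏ j, h (a j))

theorem ev_monomial {R : Type*} [CommRing R] [Algebra ℚ R] (h : ℕ → R) (N : ℕ)
    (a : Fin N →₀ ℕ) (c : ℚ) : ev h N (monomial a c) = c • ∏ j, h (a j) := by
  have h1 : monomial a c = c • monomial a (1 : ℚ) := by
    rw [smul_monomial, smul_eq_mul, mul_one]
  have h2 : ev h N (monomial a (1 : ℚ)) = ∏ j, h (a j) := by
    have := (MvPolynomial.basisMonomials (Fin N) ℚ).constr_basis ℚ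
      (fun a : Fin N →₀ ℕ => ∏ j, h (a j)) a
    rwa [MvPolynomial.coe_basisMonomials] at this
  rw [h1, map_smul, h2]

/-- Integration by parts for the moments of `exp(-x^2/2 + c x^3/3)`. -/
def IBP {R : Type*} [CommRing R] (h : ℕ → R) (c : R) : Prop :=
  h 1 = c * h 2 ∧ ∀ k : ℕ, h (k + 2) = (k + 1 : ℕ) * h k + c * h (k + 3)

/-- Moments of the standard Gaussian. -/
def mom : ℕ → ℚ
  | 0 => 1
  | 1 => 0
  | k + 2 => (k + 1 : ℕ) * mom k

/-- Moments of the Gaussian times `exp(t x^3)`: power series in `t`. -/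
noncomputable def ht (k : ℕ) : PowerSeries ℚ :=
  PowerSeries.mk fun b => mom (k + 3 * b) / (b.factorial : ℚ)

/-- Vandermonde determinant. -/
noncomputable def vd (N : ℕ) : MvPolynomial (Fin N) ℚ :=
  ∏ i : Fin N, ∏ j ∈ Finset.Ioi i, (X j - X i)

/-- `E[Δ^2 Q]`. -/
noncomputable def B {R : Type*} [CommRing R] [Algebra ℚ R] (h : ℕ → R) (N : ℕ) :
    MvPolynomial (Fin N) ℚ →ₗ[ℚ] R :=
  (ev h N).comp (LinearMap.mulLeft ℚ (vd N ^ 2))

theorem B_apply {R : Type*} [CommRing R] [Algebra ℚ R] (h : ℕ → R) (N : ℕ)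
    (Q : MvPolynomial (Fin N) ℚ) : B h N Q = ev h N (vd N ^ 2 * Q) := rfl

/-- The derivation `∑ x_i ^ m ∂_i`. -/
noncomputable def Dm (N m : ℕ) :
    Derivation ℚ (MvPolynomial (Fin N) ℚ) (MvPolynomial (Fin N) ℚ) :=
  MvPolynomial.mkDerivation ℚ (fun i => X i ^ m)

/-- Hankel type matrices. -/
def hk {R : Type*} (h : ℕ → R) {N : ℕ} (e e' : Fin N → ℕ) : Matrix (Fin N) (Fin N) R :=
  Matrix.of fun i j => h (e i + e' j)

/-- exponents `0, 1, .., N-1`. -/
def e0 (N : ℕ) : Fin N → ℕ := fun i => i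

/-- exponents `0, 1, .., N-2, N`. -/
def e1 (N : ℕ) : Fin N → ℕ := fun i => if (i : ℕ) + 1 = N then N else i

/-- alternants. -/
noncomputable def alt {N : ℕ} (e : Fin N → ℕ) : MvPolynomial (Fin N) ℚ :=
  (Matrix.of fun i j : Fin N => (X j ^ e i : MvPolynomial (Fin N) ℚ)).det

/-! ## Abstract power sums -/

/-- The ring of polynomials in `p_0, p_1, ...`. -/
abbrev Lam : Type := MvPolynomial ℕ ℚ

/-- The derivation of `Lam` with `p_l ↦ l p_{l - 1 + m}`. -/
noncomputable def DL (m : ℕ) : Derivation ℚ Lam Lam :=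
  MvPolynomial.mkDerivation ℚ (fun l => (l : ℚ) • (X (l - 1 + m) : Lam))

/-- Loop equations. -/
def Loop (N : ℕ) (F : Lam →ₗ[ℚ] ℚ) : Prop :=
  (∀ Q, F (X 0 * Q) = N * F Q) ∧
  (∀ Q, F (X 1 * Q) = F (DL 0 Q)) ∧
  ∀ m Q, F (X (m + 2) * Q) =
    ∑ a ∈ Finset.range (m + 1), F (X a * X (m - a) * Q) + F (DL (m + 1) Q)

/-! ## Matchings -/

/-- Involutions whose set of non-fixed points is `S`. -/
noncomputable def Inv {D : Type*} [Fintype D] [DecidableEq D] (S : Finset D) :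
    Finset (Equiv.Perm D) :=
  Finset.univ.filter fun α => (∀ d, α (α d) = d) ∧ ∀ d, (α d ≠ d ↔ d ∈ S)

/-- The Gaussian functional on the polynomials in the entries of an `N × N` matrix:
`W (H_ij F) = W (∂F/∂H_ji)`. -/
noncomputable def W (N : ℕ) : MvPolynomial (Fin N × Fin N) ℚ →ₗ[ℚ] ℚ :=
  (MvPolynomial.basisMonomials (Fin N × Fin N) ℚ).constr ℚ
    (fun n => (∏ i, mom (n (i, i))) *
      ∏ i : Fin N, ∏ j ∈ Finset.Ioi i,
        if n (i, j) = n (j, i) then ((n (i, j)).factorial : ℚ) else 0)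

/-- The generic matrix. -/
noncomputable def HH (N : ℕ) : Matrix (Fin N) (Fin N) (MvPolynomial (Fin N × Fin N) ℚ) :=
  Matrix.of fun i j => X (i, j)

/-- Number of cycles (fixed points included) of a permutation. -/
noncomputable def cyc {D : Type*} (σ : Equiv.Perm D) : ℕ :=
  Nat.card (Quotient (Equiv.Perm.SameCycle.setoid σ))

/-- The standard permutation with `b` cycles of length `3`. -/
def phi (b : ℕ) : Equiv.Perm (Fin b × Fin 3) :=
  Equiv.prodCongr (Equiv.refl _) (finRotate 3)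

/-! ## Generating polynomials of triangulations -/

section
variable (D : Type) [Finite D]

/-- `∑_T x ^ #V(T)` over all gluings. -/
noncomputable def tot (x : ℚ) : ℚ :=
  ∑ᶠ T : Tri D, x ^ Nat.card T.V

/-- `∑_T x ^ #V(T)` over the connected gluings. -/
noncomputable def con (x : ℚ) : ℚ :=
  ∑ᶠ T : {T : Tri D // T.Conn}, x ^ Nat.card T.1.V

end

/-- `(1/(3j)!) ∑_T X ^ #V(T)` over the connected gluings of `j` triangles (dart set `Fin (3j)`),
as a polynomial. -/
noncomputable def cp (j : ℕ) : Polynomial ℚ :=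
  ∑ᶠ T : {T : Tri (Fin (3 * j)) // T.Conn},
    Polynomial.C (1 / ((3 * j).factorial : ℚ)) * Polynomial.X ^ Nat.card T.1.V

end SST.T
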