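import Pool.Agent.SST.T.Defs

/-!
# SST-T-Dodg: Desnanot-Jacobi (Dodgson) identity for Hankel determinants
-/

namespace SST.T

/-- Bordered matrix. -/
private def dgBord {R : Type*} [CommRing R] {N : ℕ} (A : Matrix (Fin N) (Fin N) R)
    (B : Matrix (Fin N) (Fin 2) R) (C : Matrix (Fin 2) (Fin N) R)
    (D : Matrix (Fin 2) (Fin 2) R) (a b : Fin 2) : Matrix (Fin N ⊕ Fin 1) (Fin N ⊕ Fin 1) R :=
  Matrix.fromBlocks A (Matrix.of fun j _ => B j b) (Matrix.of fun _ k => C a k)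
    (Matrix.of fun _ _ => D a b)

private theorem dgDes {R : Type*} [CommRing R] {N : ℕ} (A : Matrix (Fin N) (Fin N) R)
    (B : Matrix (Fin N) (Fin 2) R) (C : Matrix (Fin 2) (Fin N) R)
    (D : Matrix (Fin 2) (Fin 2) R) (hA : IsUnit A.det) :
    (Matrix.fromBlocks A B C D).det * A.det =
      (dgBord A B C D 0 0).det * (dgBord A B C D 1 1).det -
        (dgBord A B C D 0 1).det * (dgBord A B C D 1 0).det := by
  have : Invertible A := Matrix.invertibleOfIsUnitDet A hA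
  have key : ∀ a b : Fin 2, (dgBord A B C D a b).det = A.det * (D - C * ⅟A * B) a b := by
    intro a b
    unfold dgBord
    rw [Matrix.det_fromBlocks₁₁]
    congr 1
    rw [Matrix.det_unique]
    simp [Matrix.mul_apply, Matrix.sub_apply]
  rw [Matrix.det_fromBlocks₁₁, Matrix.det_fin_two, key, key, key, key]
  ring

private theorem dgFull {R : Type*} [CommRing R] (m : ℕ → R) (N : ℕ) :
    (hk m (e0 (N + 2)) (e0 (N + 2))).det = (Matrix.fromBlocks
      (hk m (e0 N) (e0 N))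
      (Matrix.of fun (j : Fin N) (b : Fin 2) => m ((j : ℕ) + (N + (b : ℕ))))
      (Matrix.of fun (a : Fin 2) (k : Fin N) => m ((N + (a : ℕ)) + (k : ℕ)))
      (Matrix.of fun (a b : Fin 2) => m ((N + (a : ℕ)) + (N + (b : ℕ))))).det := by
  rw [← Matrix.det_submatrix_equiv_self (finSumFinEquiv : Fin N ⊕ Fin 2 ≃ Fin (N + 2))]
  congr 1
  ext i j
  rcases i with i | i <;> rcases j with j | j <;> simp [hk, e0]

private theorem dgB {R : Type*} [CommRing R] (m : ℕ → R) (N : ℕ) (a b : Fin 2) :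
    (dgBord (hk m (e0 N) (e0 N))
      (Matrix.of fun (j : Fin N) (b : Fin 2) => m ((j : ℕ) + (N + (b : ℕ))))
      (Matrix.of fun (a : Fin 2) (k : Fin N) => m ((N + (a : ℕ)) + (k : ℕ)))
      (Matrix.of fun (a b : Fin 2) => m ((N + (a : ℕ)) + (N + (b : ℕ)))) a b).det =
    (Matrix.of fun j k : Fin (N + 1) =>
      m ((if (j : ℕ) = N then N + (a : ℕ) else (j : ℕ)) +
        (if (k : ℕ) = N then N + (b : ℕ) else (k : ℕ)))).det := by
  rw [← Matrix.det_submatrix_equiv_self (finSumFinEquiv : Fin N ⊕ Fin 1 ≃ Fin (N + 1))]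
  congr 1
  ext i j
  have hlt : ∀ i : Fin N, (i : ℕ) ≠ N := fun i => i.2.ne
  rcases i with i | i <;> rcases j with j | j <;>
    simp [dgBord, hlt, hk, e0]

theorem dodgson {R : Type*} [CommRing R] (h : ℕ → R) (M : ℕ)
    (hu : IsUnit (hk h (e0 M) (e0 M)).det) :
    (hk h (e0 (M + 2)) (e0 (M + 2))).det * (hk h (e0 M) (e0 M)).det =
      (hk h (e0 (M + 1)) (e0 (M + 1))).det * (hk h (e1 (M + 1)) (e1 (M + 1))).det -
      (hk h (e1 (M + 1)) (e0 (M + 1))).det * (hk h (e0 (M + 1)) (e1 (M + 1))).det := by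
  rw [dgFull, dgDes _ _ _ _ hu, dgB, dgB, dgB, dgB]
  have h0 : ∀ j : Fin (M + 1), (if (j : ℕ) = M then M + ((0 : Fin 2) : ℕ) else (j : ℕ)) =
      e0 (M + 1) j := by
    intro j
    by_cases hj : (j : ℕ) = M <;> simp [e0, hj]
  have h1 : ∀ j : Fin (M + 1), (if (j : ℕ) = M then M + ((1 : Fin 2) : ℕ) else (j : ℕ)) =
      e1 (M + 1) j := by
    intro j
    by_cases hj : (j : ℕ) = M <;> simp [e1, hj]
  simp only [h0, h1]
  unfold hk
  ring

end SST.T
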