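import Pool.Agent.SST.T.Defs

/-!
# SST-T-Ev: integration by parts for product functionals
-/

namespace SST.T

open MvPolynomial

private theorem evSplit {R : Type*} [CommRing R] (h : ℕ → R) (N : ℕ) (i : Fin N)
    (a b : Fin N →₀ ℕ) (hab : ∀ j, j ≠ i → b j = a j) :
    ∏ j, h (b j) = h (b i) * ∏ j ∈ Finset.univ.erase i, h (a j) := by
  rw [← Finset.mul_prod_erase Finset.univ (fun j => h (b j)) (Finset.mem_univ i)]
  congr 1
  refine Finset.prod_congr rfl fun j hj => ?_
  rw [hab j (Finset.ne_of_mem_erase hj)]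

theorem ev_ibp {R : Type*} [CommRing R] [Algebra ℚ R] {h : ℕ → R} {c : R} (hh : IBP h c) (N : ℕ)
    (i : Fin N) (F : MvPolynomial (Fin N) ℚ) :
    ev h N (X i * F) = ev h N (pderiv i F) + c * ev h N (X i ^ 2 * F) := by
  induction F using MvPolynomial.induction_on' with
  | add p q hp hq =>
    rw [mul_add, mul_add, map_add, map_add, map_add, map_add, hp, hq]
    ring
  | monomial a q =>
    have e1 : X i * monomial a q = monomial (Finsupp.single i 1 + a) q := by
      rw [X, monomial_mul, one_mul]
    have e2 : X i ^ 2 * monomial a q = monomial (Finsupp.single i 2 + a) q := by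
      rw [X_pow_eq_monomial, monomial_mul, one_mul]
    rw [e1, e2, pderiv_monomial, ev_monomial, ev_monomial, ev_monomial]
    rw [evSplit h N i a (Finsupp.single i 1 + a) (fun j hj => by
        simp [hj]),
      evSplit h N i a (Finsupp.single i 2 + a) (fun j hj => by simp [hj]),
      evSplit h N i a (a - Finsupp.single i 1) (fun j hj => by
        simp [hj])]
    have f1 : (Finsupp.single i 1 + a : Fin N →₀ ℕ) i = a i + 1 := by simp [add_comm]
    have f2 : (Finsupp.single i 2 + a : Fin N →₀ ℕ) i = a i + 2 := by simp [add_comm]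
    have f3 : (a - Finsupp.single i 1 : Fin N →₀ ℕ) i = a i - 1 := by simp
    rw [f1, f2, f3]
    generalize (∏ j ∈ Finset.univ.erase i, h (a j)) = P
    rcases Nat.eq_zero_or_pos (a i) with h0 | h0
    · rw [h0]
      have := hh.1
      simp only [zero_add, Nat.cast_zero, mul_zero, zero_smul]
      rw [this, mul_smul_comm, mul_assoc]
    · obtain ⟨k, hk⟩ : ∃ k, a i = k + 1 := ⟨a i - 1, by omega⟩
      rw [hk]
      have := hh.2 k
      have g1 : k + 1 + 1 = k + 2 := rfl
      have g2 : k + 1 + 2 = k + 3 := rfl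
      have g3 : k + 1 - 1 = k := rfl
      rw [g1, g2, g3, this, mul_smul_comm]
      rw [mul_smul, add_mul, smul_add, mul_assoc, mul_assoc]
      congr 2
      rw [Nat.cast_smul_eq_nsmul, nsmul_eq_mul]

end SST.T
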