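import Pool.Agent.SST.T.Trans

/-!
# SST-T-NuCp: `nu` as a coefficient of `cp`
-/

namespace SST.T

theorem cp_coeff (j v : ℕ) : (cp j).coeff v =
    (Nat.card {T : {T : Tri (Fin (3 * j)) // T.Conn} // Nat.card T.1.V = v} : ℚ) /
      ((3 * j).factorial : ℚ) := by
  classical
  haveI : Fintype {T : Tri (Fin (3 * j)) // T.Conn} := Fintype.ofFinite _
  unfold cp
  rw [finsum_eq_sum_of_fintype, Polynomial.finsetSum_coeff]
  simp only [Polynomial.coeff_C_mul, Polynomial.coeff_X_pow]
  rw [← Finset.mul_sum, Finset.sum_boole, Nat.card_eq_fintype_card, Fintype.card_subtype]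
  rw [one_div, div_eq_inv_mul]
  congr 2
  congr 1
  ext T
  simp [eq_comm]

theorem nu_eq (n g : ℕ) (hg : 2 * g ≤ n + 2) :
    nu n g = ((cp (2 * n)).coeff (n + 2 - 2 * g) : ℝ) := by
  have e : Fin (6 * n) ≃ Fin (3 * (2 * n)) := finCongr (by ring)
  have h6 : (6 * n).factorial = (3 * (2 * n)).factorial := by
    congr 1; ring
  rw [cp_coeff, nu, h6]
  have h1 : (Trn n g).ncard =
      Nat.card {T : {T : Tri (Fin (3 * (2 * n))) // T.Conn} // Nat.card T.1.V = n + 2 - 2 * g} := by
    rw [← Nat.card_coe_set_eq]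
    refine Nat.card_congr ?_
    refine (Equiv.subtypeEquiv (transEquiv e) (p := fun T => T ∈ Trn n g)
      (q := fun T => T.Conn ∧ Nat.card T.V = n + 2 - 2 * g) ?_).trans ?_
    · intro T
      show (T.Conn ∧ T.Genus n g) ↔ ((trans e T).Conn ∧ Nat.card (trans e T).V = n + 2 - 2 * g)
      rw [conn_trans, card_V_trans]
      unfold Tri.Genus
      constructor
      · rintro ⟨a, b⟩
        exact ⟨a, by omega⟩
      · rintro ⟨a, b⟩
        exact ⟨a, by omega⟩
    · exact
        { toFun := fun T => ⟨⟨T.1, T.2.1⟩, T.2.2⟩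
          invFun := fun T => ⟨T.1.1, T.1.2, T.2⟩
          left_inv := fun T => rfl
          right_inv := fun T => rfl }
  rw [h1]
  push_cast
  rfl

theorem nu_eq_zero (n g : ℕ) (hg : n + 2 < 2 * g) : nu n g = 0 := by
  have : Trn n g = ∅ := by
    ext T
    simp only [Trn, Set.mem_setOf_eq, Set.mem_empty_iff_false, iff_false, not_and]
    intro _ h
    unfold Tri.Genus at h
    omega
  rw [nu, this]
  simp

theorem cp_coeff_zero (n : ℕ) (hn : 1 ≤ n) : (cp (2 * n)).coeff 0 = 0 := by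
  rw [cp_coeff]
  have : IsEmpty {T : {T : Tri (Fin (3 * (2 * n))) // T.Conn} // Nat.card T.1.V = 0} := by
    constructor
    rintro ⟨T, h⟩
    haveI : Finite T.1.V := Quotient.finite _
    haveI : Nonempty T.1.V := ⟨T.1.tl ⟨0, by omega⟩⟩
    exact (Nat.card_pos (α := T.1.V)).ne' h
  rw [Nat.card_of_isEmpty]
  simp

end SST.T
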