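import Pool.Agent.SST.T.Ident
import Pool.Agent.SST.T.NuCp

/-!
# SST-T-Final: the two inequalities (7.1), (7.2)
-/

namespace SST.T

/-- (7.1) + (7.2), with `v = n + 2 - 2g = w + 1` vertices. -/
theorem cp_main (n w : ℕ) (hn : 1 ≤ n) :
    ((w + 2).choose 2 : ℚ) * (cp (2 * (n + 1))).coeff (w + 2) +
      ((w + 4).choose 4 : ℚ) * (cp (2 * (n + 1))).coeff (w + 4) ≤
      6 * n * (3 * n + 2) * (cp (2 * n)).coeff (w + 1) := by
  have h1 := cp_ineq (2 * n) w (by omega)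
  have h2 := dd_ge (P := cp (2 * n + 2)) (fun v => cp_nonneg _ v) w
  rw [show 2 * (n + 1) = 2 * n + 2 by ring]
  push_cast at h1
  nlinarith [h1, h2]

/-- (7.1). -/
theorem nu_ineq1 (n g : ℕ) (hn : 1 ≤ n) :
    ((n + 3 - 2 * g).choose 2 : ℝ) * nu (n + 1) g ≤ 6 * n * (3 * n + 2) * nu n g := by
  have hnu : ∀ m k, 0 ≤ nu m k := fun m k => by unfold nu; positivity
  by_cases hg : n + 1 < 2 * g
  · have h0 : (n + 3 - 2 * g).choose 2 = 0 := Nat.choose_eq_zero_of_lt (by omega)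
    rw [h0]
    have := hnu n g
    simp only [Nat.cast_zero, zero_mul]
    positivity
  · obtain ⟨w, hw⟩ : ∃ w, n + 2 - 2 * g = w + 1 := ⟨n + 1 - 2 * g, by omega⟩
    rw [nu_eq (n + 1) g (by omega), nu_eq n g (by omega), hw,
      show n + 1 + 2 - 2 * g = w + 2 by omega]
    have h := cp_main n w hn
    have h4 : 0 ≤ ((w + 4).choose 4 : ℚ) * (cp (2 * (n + 1))).coeff (w + 4) :=
      mul_nonneg (by positivity) (cp_nonneg _ _)
    have h5 : ((w + 2).choose 2 : ℚ) * (cp (2 * (n + 1))).coeff (w + 2) ≤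
      6 * n * (3 * n + 2) * (cp (2 * n)).coeff (w + 1) := by linarith
    exact_mod_cast h5

/-- (7.2). -/
theorem nu_ineq2 (n g : ℕ) (hn : 1 ≤ n) :
    ((n + 3 - 2 * g).choose 4 : ℝ) * nu (n + 1) g ≤ 6 * n * (3 * n + 2) * nu n (g + 1) := by
  have hnu : ∀ m k, 0 ≤ nu m k := fun m k => by unfold nu; positivity
  by_cases hg : n < 2 * g + 1
  · have h0 : (n + 3 - 2 * g).choose 4 = 0 := Nat.choose_eq_zero_of_lt (by omega)
    rw [h0]
    have := hnu n (g + 1)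
    simp only [Nat.cast_zero, zero_mul]
    positivity
  · obtain ⟨w, hw⟩ : ∃ w, n + 2 - 2 * (g + 1) = w + 1 := ⟨n - 1 - 2 * g, by omega⟩
    rw [nu_eq (n + 1) g (by omega), nu_eq n (g + 1) (by omega), hw,
      show n + 1 + 2 - 2 * g = w + 4 by omega]
    have h := cp_main n w hn
    have h4 : 0 ≤ ((w + 2).choose 2 : ℚ) * (cp (2 * (n + 1))).coeff (w + 2) :=
      mul_nonneg (by positivity) (cp_nonneg _ _)
    have h5 : ((w + 4).choose 4 : ℚ) * (cp (2 * (n + 1))).coeff (w + 4) ≤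
      6 * n * (3 * n + 2) * (cp (2 * n)).coeff (w + 1) := by linarith
    exact_mod_cast h5

end SST.T
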