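import Pool.Agent.SST.T.Zser
import Pool.Agent.SST.T.Rec

/-!
# SST-T-Hser: the logarithmic derivative of `B ht N 1`

PROOF. (a) `cp_eval`: `Polynomial.eval` is additive: `finsum_eq_sum_of_fintype`-type conversion (`Tri (Fin (3j))` is finite), `Polynomial.eval_finsetSum`, `eval_mul`, `eval_pow`, `eval_C`, `eval_X`.
(b) With `A b = tot (Fin (3b)) N / (3b)!`, `C j = con (Fin (3j)) N / (3j)! = (cp j).eval N`: `coeff b (B ht N 1) = B0 * 3^b * A b`, `coeff b (X * derivative W) = b * coeff b W` (`b = 0`: `0`). To prove: `b * 3^b * A b = ∑ (i + j = b), (j 3^j C j) * (3^i A i)`, i.e. `b A b = ∑ j C j A (b - j)`. For `b ≥ 1`, `m + 1 = 3 b`: `tot_rec` divided by `(m)!`: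
`tot (Fin (3b)) / (3b-1)! = ∑ k, con (Fin (k+1)) / k! * tot (Fin (m-k)) / (m-k)!`; only `k + 1 = 3 j` contributes (`con_ndvd`), `con (Fin (3j)) / (3j-1)! = 3 j C j`, `m - k = 3 (b - j)`; divide by `3`. (Reindex the sum over `k` with `3 ∣ k + 1` by `j`, `1 ≤ j ≤ b`: `Finset.sum_filter`, `Finset.sum_bij`/`sum_nbij'`.) `PowerSeries.coeff_mul` with `Finset.Nat.antidiagonal` sums, `Finset.Nat.sum_antidiagonal_eq_sum_range_succ_mk`.
-/

namespace SST.T

open PowerSeries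

theorem cp_eval (j : ℕ) (x : ℚ) :
    (cp j).eval x = con (Fin (3 * j)) x / ((3 * j).factorial : ℚ) := by
  have : Fintype {T : Tri (Fin (3 * j)) // T.Conn} := Fintype.ofFinite _
  unfold cp con
  rw [finsum_eq_sum_of_fintype, finsum_eq_sum_of_fintype, Polynomial.eval_finsetSum,
    Finset.sum_div]
  refine Finset.sum_congr rfl fun T _ => ?_
  rw [Polynomial.eval_mul, Polynomial.eval_C, Polynomial.eval_pow, Polynomial.eval_X]
  ring

private theorem hser_three (f : ℕ → ℚ) (n : ℕ) : ∑ k ∈ Finset.range (3 * n), f k =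
    ∑ i ∈ Finset.range n, (f (3 * i) + f (3 * i + 1) + f (3 * i + 2)) := by
  induction n with
  | zero => simp
  | succ n ih =>
    have e : 3 * (n + 1) = 3 * n + 1 + 1 + 1 := by ring
    rw [e, Finset.sum_range_succ, Finset.sum_range_succ, Finset.sum_range_succ, ih,
      Finset.sum_range_succ]
    ring

private theorem hser_rec (T C : ℕ → ℚ) (hrec : ∀ m : ℕ, T (m + 1) =
    ∑ k ∈ Finset.range (m + 1), (m.choose k : ℚ) * C (k + 1) * T (m - k))
    (hC : ∀ m, ¬ 3 ∣ m → C m = 0) (b : ℕ) :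
    ((b + 1 : ℕ) : ℚ) * (T (3 * (b + 1)) / ((3 * (b + 1)).factorial : ℚ)) =
      ∑ i ∈ Finset.range (b + 1), ((i + 1 : ℕ) : ℚ) *
        (C (3 * (i + 1)) / ((3 * (i + 1)).factorial : ℚ)) *
          (T (3 * (b - i)) / ((3 * (b - i)).factorial : ℚ)) := by
  have h1 := hrec (3 * b + 2)
  have e1 : 3 * b + 2 + 1 = 3 * (b + 1) := by ring
  rw [e1, hser_three] at h1
  have h2 : ∀ i ∈ Finset.range (b + 1),
      (((3 * b + 2).choose (3 * i) : ℚ) * C (3 * i + 1) * T (3 * b + 2 - 3 * i) +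
      ((3 * b + 2).choose (3 * i + 1) : ℚ) * C (3 * i + 1 + 1) * T (3 * b + 2 - (3 * i + 1)) +
      ((3 * b + 2).choose (3 * i + 2) : ℚ) * C (3 * i + 2 + 1) * T (3 * b + 2 - (3 * i + 2))) =
      ((3 * b + 2).factorial : ℚ) * 3 * (((i + 1 : ℕ) : ℚ) *
        (C (3 * (i + 1)) / ((3 * (i + 1)).factorial : ℚ)) *
          (T (3 * (b - i)) / ((3 * (b - i)).factorial : ℚ))) := by
    intro i hi
    rw [Finset.mem_range] at hi
    have k1 : 3 * b + 2 - (3 * i + 2) = 3 * (b - i) := by omega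
    have k2 : 3 * i + 2 + 1 = 3 * (i + 1) := by ring
    rw [hC (3 * i + 1) (by omega), hC (3 * i + 1 + 1) (by omega), k1, k2,
      Nat.cast_choose ℚ (by omega : 3 * i + 2 ≤ 3 * b + 2), k1]
    have k3 : ((3 * (i + 1)).factorial : ℚ) = 3 * ((i + 1 : ℕ) : ℚ) *
        ((3 * i + 2).factorial : ℚ) := by
      rw [← k2, Nat.factorial_succ]
      push_cast
      ring
    rw [k3]
    have k4 : ((3 * i + 2).factorial : ℚ) ≠ 0 := by
      exact_mod_cast Nat.factorial_ne_zero _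
    have k5 : ((3 * (b - i)).factorial : ℚ) ≠ 0 := by
      exact_mod_cast Nat.factorial_ne_zero _
    have k6 : ((i + 1 : ℕ) : ℚ) ≠ 0 := by
      exact_mod_cast Nat.succ_ne_zero i
    field_simp
    ring
  rw [Finset.sum_congr rfl h2, ← Finset.mul_sum] at h1
  have k3 : ((3 * (b + 1)).factorial : ℚ) = 3 * ((b + 1 : ℕ) : ℚ) *
      ((3 * b + 2).factorial : ℚ) := by
    rw [← e1, Nat.factorial_succ]
    push_cast
    ring
  have k4 : ((3 * b + 2).factorial : ℚ) ≠ 0 := by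
    exact_mod_cast Nat.factorial_ne_zero _
  have k6 : ((b + 1 : ℕ) : ℚ) ≠ 0 := by
    exact_mod_cast Nat.succ_ne_zero b
  rw [h1, k3]
  field_simp

/-- `t d/dt log Z_N`. -/
noncomputable def Hs (N : ℕ) : PowerSeries ℚ :=
  PowerSeries.mk fun j => (j : ℚ) * 3 ^ j * (cp j).eval (N : ℚ)

theorem Hs_mul (N : ℕ) : Hs N * B ht N 1 = X * derivative ℚ (B ht N 1) := by
  obtain ⟨T, hT⟩ : ∃ T : ℕ → ℚ, ∀ n, T n = tot (Fin n) N := ⟨_, fun _ => rfl⟩
  obtain ⟨C, hC⟩ : ∃ C : ℕ → ℚ, ∀ n, C n = con (Fin n) N := ⟨_, fun _ => rfl⟩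
  have hB : ∀ b, coeff b (B ht N 1) = B mom N 1 * (3 ^ b / ((3 * b).factorial : ℚ) * T (3 * b)) :=
    fun b => by rw [hT]; exact coeff_B N b
  have hH : ∀ j, coeff j (Hs N) = (j : ℚ) * 3 ^ j * (C (3 * j) / ((3 * j).factorial : ℚ)) :=
    fun j => by
      unfold Hs
      rw [coeff_mk, cp_eval, hC]
  ext b
  rw [coeff_mul, Finset.Nat.sum_antidiagonal_eq_sum_range_succ_mk]
  rcases b with _ | b
  · rw [Finset.sum_range_one]
    simp only [hH]
    simp
  · rw [coeff_succ_X_mul, PowerSeries.coeff_derivative, hB, Finset.sum_range_succ']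
    have h1 := hser_rec T C (fun m => by
      rw [hT, tot_rec]
      refine Finset.sum_congr rfl fun k _ => ?_
      rw [hT, hC]) (fun m hm => by rw [hC, con_ndvd hm]) b
    have h2 : ∀ i ∈ Finset.range (b + 1),
        coeff (i + 1, b + 1 - (i + 1)).1 (Hs N) * coeff (i + 1, b + 1 - (i + 1)).2 (B ht N 1) =
        B mom N 1 * 3 ^ (b + 1) * (((i + 1 : ℕ) : ℚ) *
          (C (3 * (i + 1)) / ((3 * (i + 1)).factorial : ℚ)) *
            (T (3 * (b - i)) / ((3 * (b - i)).factorial : ℚ))) := by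
      intro i hi
      rw [Finset.mem_range] at hi
      have e1 : b + 1 - (i + 1) = b - i := by omega
      have e2 : (3 : ℚ) ^ (b + 1) = 3 ^ (i + 1) * 3 ^ (b - i) := by
        rw [← pow_add]
        congr 1
        omega
      simp only
      rw [e1, hH, hB, e2]
      ring
    rw [Finset.sum_congr rfl h2, ← Finset.mul_sum, ← h1]
    simp only [hH]
    push_cast
    ring

end SST.T
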