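import Pool.Agent.SST.T.Defs

/-!
# SST-T-Ht: the moment sequences `mom` and `ht`

PROOF. (a) `mom_IBP`: by the definition of `mom` (`mom 1 = 0`, `mom (k+2) = (k+1) * mom k`).
(b) `ht_IBP`, `c = 3 X`: compare coefficients of `X ^ b` (`PowerSeries.ext`, `coeff_mk`, `coeff_succ_X_mul`, `coeff_zero_X_mul`).
`b = 0`: `mom 1 = 0`, `mom (k+2) = (k+1) mom k`. `b + 1`: `mom (k + 2 + 3(b+1)) / (b+1)! = (k+1) mom (k + 3(b+1)) / (b+1)! + 3 mom (k + 3 + 3 b) / b!`;
`k + 3 + 3 b = k + 3 (b+1) =: m`, `mom (m + 2) = (m+1) mom m`, `1/b! = (b+1)/(b+1)!`, `m + 1 = (k + 1) + 3 (b+1)`. For `h 1 = 3 X h 2`: `mom (1 + 3(b+1)) = (3 b + 3) mom (3 b + 2)`.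
(c) `ht_der`: `coeff b (derivative f) = coeff (b+1) f * (b+1)` (`PowerSeries.coeff_derivative`), `mom (k + 3 (b+1)) / (b+1)! * (b+1) = mom (k + 3 + 3 b) / b!`.
(d) `ht_const`: `b = 0`.
-/

namespace SST.T

private lemma mom_succ (k : ℕ) : mom (k + 2) = (k + 1 : ℕ) * mom k := rfl

private lemma coeff_ht (k b : ℕ) :
    PowerSeries.coeff b (ht k) = mom (k + 3 * b) / (b.factorial : ℚ) := by
  unfold ht
  rw [PowerSeries.coeff_mk]

private lemma coeff_cX_zero (f : PowerSeries ℚ) :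
    PowerSeries.coeff 0 ((3 * PowerSeries.X : PowerSeries ℚ) * f) = 0 := by
  rw [mul_assoc, PowerSeries.coeff_zero_eq_constantCoeff, map_mul, map_mul,
    PowerSeries.constantCoeff_X]
  ring

private lemma coeff_cX_succ (f : PowerSeries ℚ) (b : ℕ) :
    PowerSeries.coeff (b + 1) ((3 * PowerSeries.X : PowerSeries ℚ) * f) =
      3 * PowerSeries.coeff b f := by
  have h3 : (3 : PowerSeries ℚ) = PowerSeries.C (3 : ℚ) := by
    rw [map_ofNat]
  rw [mul_assoc, h3, PowerSeries.coeff_C_mul, PowerSeries.coeff_succ_X_mul]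

theorem mom_IBP : IBP mom (0 : ℚ) := by
  refine ⟨?_, ?_⟩
  · rw [zero_mul]
    rfl
  · intro k
    rw [zero_mul, add_zero]
    exact mom_succ k

private lemma fact_ne (b : ℕ) : (b.factorial : ℚ) ≠ 0 := by
  exact_mod_cast Nat.factorial_ne_zero b

private lemma step (m b : ℕ) (x : ℚ) :
    (x + 3 * ((b : ℚ) + 1)) * mom m / ((b + 1).factorial : ℚ) =
      x * (mom m / ((b + 1).factorial : ℚ)) + 3 * (mom m / (b.factorial : ℚ)) := by
  have h := fact_ne b
  have h1 : ((b : ℚ) + 1) ≠ 0 := by positivity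
  rw [Nat.factorial_succ]
  push_cast
  field_simp

theorem ht_IBP : IBP ht (3 * PowerSeries.X : PowerSeries ℚ) := by
  refine ⟨?_, ?_⟩
  · ext b
    rcases b with _ | b
    · rw [coeff_cX_zero, coeff_ht]
      have h1 : mom (1 + 3 * 0) = 0 := rfl
      rw [h1, zero_div]
    · rw [coeff_cX_succ, coeff_ht, coeff_ht]
      have h1 : 1 + 3 * (b + 1) = (2 + 3 * b) + 2 := by ring
      have h2 := step (2 + 3 * b) b 0
      rw [h1, mom_succ]
      have h3 : (((2 + 3 * b) + 1 : ℕ) : ℚ) = 0 + 3 * ((b : ℚ) + 1) := by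
        push_cast
        ring
      rw [h3, h2]
      ring
  · intro k
    ext b
    have hn : ((k + 1 : ℕ) : PowerSeries ℚ) = PowerSeries.C ((k + 1 : ℕ) : ℚ) := by
      rw [map_natCast]
    rcases b with _ | b
    · rw [map_add, coeff_cX_zero, hn, PowerSeries.coeff_C_mul, coeff_ht, coeff_ht]
      have h1 : k + 2 + 3 * 0 = k + 2 := rfl
      have h2 : k + 3 * 0 = k := rfl
      rw [h1, h2, mom_succ, Nat.factorial_zero, Nat.cast_one, div_one, div_one, add_zero]
    · rw [map_add, coeff_cX_succ, hn, PowerSeries.coeff_C_mul, coeff_ht, coeff_ht, coeff_ht]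
      have h1 : k + 2 + 3 * (b + 1) = (k + 3 * (b + 1)) + 2 := by ring
      have h2 : k + 3 + 3 * b = k + 3 * (b + 1) := by ring
      rw [h1, h2, mom_succ, ← step]
      congr 2
      push_cast
      ring

theorem ht_der (k : ℕ) : PowerSeries.derivative ℚ (ht k) = ht (k + 3) := by
  ext b
  rw [PowerSeries.coeff_derivative, coeff_ht, coeff_ht]
  have h1 : k + 3 * (b + 1) = k + 3 + 3 * b := by ring
  have h := fact_ne b
  have h2 : ((b : ℚ) + 1) ≠ 0 := by positivity
  rw [h1, Nat.factorial_succ]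
  push_cast
  field_simp

theorem ht_const (k : ℕ) : PowerSeries.constantCoeff (ht k) = mom k := by
  rw [← PowerSeries.coeff_zero_eq_constantCoeff_apply, coeff_ht]
  have h2 : k + 3 * 0 = k := rfl
  rw [h2, Nat.factorial_zero, Nat.cast_one, div_one]

end SST.T
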