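import Pool.Agent.SST.T.Defs

/-!
# SST-T-Pos: second differences of polynomials with nonnegative coefficients

PROOF. `(X + 1)^m + (X - 1)^m - 2 X^m` has the coefficient of `X^v` equal to `2 * m.choose v` if `v < m` and `m - v` is even, and `0` otherwise (`Polynomial.coeff_X_add_C_pow`, `coeff_X_sub_C_pow`: `(1)^(m-v) choose + (-1)^(m-v) choose`; for `v = m`: `1 + 1 - 2 = 0`). `P = ∑ m ∈ range (natDegree P + 1), C (P.coeff m) * X^m` (`Polynomial.as_sum_range_C_mul_X_pow`), `comp` is additive,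
so `coeff (dd P) v = ∑ m, P.coeff m * coeff (dd (X^m)) v ≥ 0`, and it is at least the sum of the two terms `m = v + 2` and `m = v + 4` (if one of them is beyond the degree, its coefficient is `0`; sum over a large enough range, e.g. `range (natDegree P + v + 6)`, `Polynomial.as_sum_range'`).
-/

namespace SST.T

open Polynomial

/-- `P(X+1) + P(X-1) - 2 P(X)`. -/
noncomputable def dd (P : ℚ[X]) : ℚ[X] := P.comp (X + 1) + P.comp (X - 1) - 2 * P

private theorem ddAdd (P Q : ℚ[X]) : dd (P + Q) = dd P + dd Q := by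
  unfold dd
  rw [add_comp, add_comp]
  ring

private theorem ddZero : dd (0 : ℚ[X]) = 0 := by
  unfold dd
  simp

private theorem ddSum {ι : Type*} (s : Finset ι) (f : ι → ℚ[X]) : dd (∑ i ∈ s, f i) = ∑ i ∈ s, dd (f i) := by
  classical
  induction s using Finset.induction_on with
  | empty => simpa using ddZero
  | insert a s ha ih => rw [Finset.sum_insert ha, Finset.sum_insert ha, ddAdd, ih]

/-- the coefficients of the second difference of `X ^ m` -/
private noncomputable def dc (m v : ℕ) : ℚ := (1 + (-1) ^ (m - v)) * (m.choose v : ℚ) - (if v = m then 2 else 0)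

private theorem ddMono (m : ℕ) (a : ℚ) (v : ℕ) : (dd (monomial m a)).coeff v = a * dc m v := by
  have h1 : (X + 1 : ℚ[X]) = X + C 1 := by rw [C_1]
  have h2 : (X - 1 : ℚ[X]) = X + C (-1) := by rw [C_neg, C_1, sub_eq_add_neg]
  have h3 : (2 : ℚ[X]) * monomial m a = monomial m (2 * a) := by
    rw [← C_mul_monomial]
    rfl
  unfold dd dc
  rw [monomial_comp, monomial_comp, h1, h2, h3, coeff_sub, coeff_add, coeff_C_mul, coeff_C_mul,
    coeff_X_add_C_pow, coeff_X_add_C_pow, coeff_monomial, one_pow]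
  by_cases h : v = m
  · rw [if_pos h, if_pos h.symm]
    ring
  · rw [if_neg h, if_neg (fun h' => h h'.symm)]
    ring

private theorem dcNonneg (m v : ℕ) : 0 ≤ dc m v := by
  unfold dc
  by_cases h : v = m
  · rw [if_pos h, h, Nat.sub_self, Nat.choose_self, pow_zero]
    norm_num
  · rw [if_neg h, sub_zero]
    have h1 : (0 : ℚ) ≤ 1 + (-1) ^ (m - v) := by
      rcases neg_one_pow_eq_or ℚ (m - v) with h2 | h2
      · rw [h2]; norm_num
      · rw [h2]; norm_num
    positivity

private theorem dcTwo (v : ℕ) : dc (v + 2) v = 2 * ((v + 2).choose 2 : ℚ) := by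
  unfold dc
  rw [if_neg (by omega), Nat.add_sub_cancel_left, ← Nat.choose_symm_add]
  norm_num

private theorem dcFour (v : ℕ) : dc (v + 4) v = 2 * ((v + 4).choose 4 : ℚ) := by
  unfold dc
  rw [if_neg (by omega), Nat.add_sub_cancel_left, ← Nat.choose_symm_add]
  norm_num

private theorem ddCoeff (P : ℚ[X]) (n : ℕ) (hn : P.natDegree < n) (v : ℕ) :
    (dd P).coeff v = ∑ m ∈ Finset.range n, P.coeff m * dc m v := by
  conv_lhs => rw [P.as_sum_range' n hn]
  rw [ddSum, finsetSum_coeff]
  exact Finset.sum_congr rfl fun m _ => ddMono m _ v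

theorem dd_nonneg {P : ℚ[X]} (hP : ∀ v, 0 ≤ P.coeff v) (v : ℕ) : 0 ≤ (dd P).coeff v := by
  rw [ddCoeff P (P.natDegree + 1) (Nat.lt_succ_self _)]
  exact Finset.sum_nonneg fun m _ => mul_nonneg (hP m) (dcNonneg m v)

theorem dd_ge {P : ℚ[X]} (hP : ∀ v, 0 ≤ P.coeff v) (v : ℕ) :
    2 * ((v + 2).choose 2 : ℚ) * P.coeff (v + 2) + 2 * ((v + 4).choose 4 : ℚ) * P.coeff (v + 4) ≤
      (dd P).coeff v := by
  rw [ddCoeff P (P.natDegree + v + 6) (by omega)]
  have h1 : ({v + 2, v + 4} : Finset ℕ) ⊆ Finset.range (P.natDegree + v + 6) := by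
    intro m hm
    rw [Finset.mem_insert, Finset.mem_singleton] at hm
    rw [Finset.mem_range]
    omega
  have h2 := Finset.sum_le_sum_of_subset_of_nonneg h1
    (f := fun m => P.coeff m * dc m v) (fun m _ _ => mul_nonneg (hP m) (dcNonneg m v))
  rw [Finset.sum_pair (by omega), dcTwo, dcFour] at h2
  linarith

end SST.T
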