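import Pool.Agent.SST.T.Main1
import Pool.Agent.SST.T.Hser
import Pool.Agent.SST.T.Pos

/-!
# SST-T-Ident: the coefficient inequality

PROOF. `toda_log N` with `H = Hs N`, `Hp = Hs (N+1)`, `Hm = Hs (N-1)` (`Hs_mul`), for all `N ≥ 1`. Define polynomials `ph i : ℚ[X]` with `coeff i (Phi N (Hs N)) = (ph i).eval N`: `ph 0 = X`, `ph 1 = 0`, `ph 2 = 36 X^2` and, for `i ≥ 1`, `ph (i+2) = C (3^(i+2) * (3 i (3 i + 4))) * cp i`:
`coeff (i+2) (108 X^2 H + 81 X^2 (X H')) = 108 h_i + 81 i h_i`, `h_i = i 3^i cp_i`, `108 i + 81 i^2 = 9 * 3 i (3 i + 4)`  (uniformly: `ph (i+2) = C (3^(i+2) * (3 i (3 i + 4))) * cp i + if i = 0 then 36 X^2 else 0`).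
`coeff k (Hs (N+1) + Hs (N-1) - 2 Hs N) = (C (k 3^k) * dd (cp k)).eval N` (`(N-1 : ℕ)` casts to `N - 1` as `N ≥ 1`). Coefficient of `X^(j+2)` of `toda_log`: `(j+2) (ph (j+2)).eval N = ∑ (i + k = j + 2) (ph i).eval N * (k 3^k dd (cp k)).eval N` for all `N ≥ 1`; two polynomials with the same values at infinitely many points are equal
(`Polynomial.eq_of_infinite_eval_eq`), so `(j+2) ph (j+2) = ∑ ph i * C (k 3^k) * dd (cp k)` in `ℚ[X]`. All coefficients on the right are `≥ 0` (`cp_nonneg`, `dd_nonneg`, products and sums of polynomials with nonnegative coefficients: `Polynomial.coeff_mul`), so the coefficient of `X^(v+1)` on the left is at least that of the term `i = 0`, `k = j + 2`: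
`X * C ((j+2) 3^(j+2)) * dd (cp (j+2))`, i.e. `(j+2) 3^(j+2) coeff v (dd (cp (j+2)))` (`Polynomial.coeff_X_mul`). For `j ≥ 1` the left side is `(j+2) 3^(j+2) 3 j (3 j + 4) coeff (v+1) (cp j)`. Divide by `(j+2) 3^(j+2)`.
-/

namespace SST.T

open Polynomial

theorem cp_nonneg (j v : ℕ) : 0 ≤ (cp j).coeff v := by
  classical
  have : Fintype {T : Tri (Fin (3 * j)) // T.Conn} := Fintype.ofFinite _
  unfold cp
  rw [finsum_eq_sum_of_fintype, Polynomial.finsetSum_coeff]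
  refine Finset.sum_nonneg fun T _ => ?_
  rw [Polynomial.coeff_C_mul, Polynomial.coeff_X_pow]
  split_ifs <;> positivity

/-- the coefficients of `Phi` as polynomials -/
private noncomputable def ph : ℕ → ℚ[X]
  | 0 => X
  | 1 => 0
  | i + 2 => C ((3 : ℚ) ^ (i + 2) * (3 * (i : ℚ) * (3 * (i : ℚ) + 4))) * cp i + if i = 0 then C 36 * X ^ 2 else 0

private theorem xd_coeff (f : PowerSeries ℚ) (i : ℕ) :
    PowerSeries.coeff i (PowerSeries.X * PowerSeries.derivative ℚ f) =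
      i * PowerSeries.coeff i f := by
  cases i with
  | zero => simp
  | succ n =>
    rw [PowerSeries.coeff_succ_X_mul, PowerSeries.coeff_derivative]
    push_cast
    ring

private theorem phi_eq (N : ℕ) (H : PowerSeries ℚ) : Phi N H =
    PowerSeries.C (N : ℚ) + PowerSeries.X ^ 2 * (PowerSeries.C (36 * (N : ℚ) ^ 2) +
      PowerSeries.C 108 * H + PowerSeries.C 81 * (PowerSeries.X * PowerSeries.derivative ℚ H)) := by
  unfold Phi
  have h1 : (PowerSeries.C (N : ℚ) : PowerSeries ℚ) = (N : PowerSeries ℚ) := map_natCast _ N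
  have h2 : (PowerSeries.C (36 : ℚ) : PowerSeries ℚ) = 36 := map_ofNat _ 36
  have h3 : (PowerSeries.C (108 : ℚ) : PowerSeries ℚ) = 108 := map_ofNat _ 108
  have h4 : (PowerSeries.C (81 : ℚ) : PowerSeries ℚ) = 81 := map_ofNat _ 81
  rw [map_mul, map_pow, h1, h2, h3, h4]
  ring

private theorem coeff_Hs (N i : ℕ) :
    PowerSeries.coeff i (Hs N) = (i : ℚ) * 3 ^ i * (cp i).eval (N : ℚ) := by
  unfold Hs
  rw [PowerSeries.coeff_mk]

private theorem ph_eval (N i : ℕ) :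
    (ph i).eval (N : ℚ) = PowerSeries.coeff i (Phi N (Hs N)) := by
  rw [phi_eq, map_add, PowerSeries.coeff_X_pow_mul', PowerSeries.coeff_C]
  match i with
  | 0 => simp [ph]
  | 1 => simp [ph]
  | i + 2 =>
    rw [if_neg (by omega), if_pos (by omega), Nat.add_sub_cancel, map_add, map_add,
      PowerSeries.coeff_C_mul, PowerSeries.coeff_C_mul, xd_coeff, coeff_Hs, PowerSeries.coeff_C,
      ph, eval_add, eval_mul, eval_C]
    by_cases h : i = 0
    · rw [if_pos h, if_pos h, eval_mul, eval_C, eval_pow, eval_X]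
      rw [pow_add]
      ring
    · rw [if_neg h, if_neg h, eval_zero, pow_add]
      ring

private theorem dd_eval (k : ℕ) (x : ℚ) : (C ((k : ℚ) * 3 ^ k) * dd (cp k)).eval x =
    (k : ℚ) * 3 ^ k * ((cp k).eval (x + 1) + (cp k).eval (x - 1) - 2 * (cp k).eval x) := by
  unfold dd
  simp [eval_comp]

private theorem ident_poly (j : ℕ) : C ((j : ℚ) + 2) * ph (j + 2) =
    ∑ p ∈ Finset.HasAntidiagonal.antidiagonal (j + 2), ph p.1 * (C ((p.2 : ℚ) * 3 ^ p.2) * dd (cp p.2)) := by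
  have key : ∀ N : ℕ, 1 ≤ N → (C ((j : ℚ) + 2) * ph (j + 2)).eval (N : ℚ) =
      (∑ p ∈ Finset.HasAntidiagonal.antidiagonal (j + 2),
        ph p.1 * (C ((p.2 : ℚ) * 3 ^ p.2) * dd (cp p.2))).eval (N : ℚ) := by
    intro N hN
    have h1 := toda_log N hN (Hs N) (Hs (N + 1)) (Hs (N - 1)) (Hs_mul N) (Hs_mul (N + 1))
      (Hs_mul (N - 1))
    have h2 := congrArg (PowerSeries.coeff (j + 2)) h1
    rw [xd_coeff, PowerSeries.coeff_mul, ← ph_eval] at h2
    rw [eval_mul, eval_C, eval_finsetSum]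
    have h3 : (((j + 2 : ℕ) : ℚ)) = (j : ℚ) + 2 := by push_cast; ring
    rw [h3] at h2
    rw [h2]
    refine Finset.sum_congr rfl fun p _ => ?_
    rw [eval_mul, dd_eval, ph_eval]
    congr 1
    have h4 : (2 : PowerSeries ℚ) = PowerSeries.C (2 : ℚ) := (map_ofNat _ 2).symm
    rw [map_sub, map_add, h4, PowerSeries.coeff_C_mul, coeff_Hs, coeff_Hs, coeff_Hs]
    have h5 : (((N - 1 : ℕ) : ℚ)) = (N : ℚ) - 1 := by
      rw [Nat.cast_sub hN]
      push_cast
      ring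
    rw [h5]
    push_cast
    ring
  apply Polynomial.eq_of_infinite_eval_eq
  apply Set.Infinite.mono (s := Set.range (fun n : ℕ => ((n + 1 : ℕ) : ℚ)))
  · rintro _ ⟨n, rfl⟩
    exact key (n + 1) (by omega)
  · refine Set.infinite_range_of_injective fun a b h => ?_
    have := Nat.cast_injective h
    omega

private theorem mul_nn {P Q : ℚ[X]} (hP : ∀ v, 0 ≤ P.coeff v) (hQ : ∀ v, 0 ≤ Q.coeff v) (v : ℕ) :
    0 ≤ (P * Q).coeff v := by
  rw [Polynomial.coeff_mul]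
  exact Finset.sum_nonneg fun p _ => mul_nonneg (hP _) (hQ _)

private theorem C_nn {a : ℚ} (ha : 0 ≤ a) {Q : ℚ[X]} (hQ : ∀ v, 0 ≤ Q.coeff v) (v : ℕ) :
    0 ≤ (C a * Q).coeff v := by
  rw [Polynomial.coeff_C_mul]
  exact mul_nonneg ha (hQ v)

private theorem X_nn (n : ℕ) (v : ℕ) : 0 ≤ ((X : ℚ[X]) ^ n).coeff v := by
  rw [Polynomial.coeff_X_pow]
  split_ifs <;> norm_num

private theorem ph_nn (i v : ℕ) : 0 ≤ (ph i).coeff v := by
  match i with
  | 0 =>
    have := X_nn 1 v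
    rwa [pow_one] at this
  | 1 => simp [ph]
  | i + 2 =>
    rw [ph, coeff_add]
    refine add_nonneg (C_nn (by positivity) (cp_nonneg i) v) ?_
    split_ifs
    · exact C_nn (by norm_num) (X_nn 2) v
    · simp

theorem cp_ineq (j v : ℕ) (hj : 1 ≤ j) :
    (dd (cp (j + 2))).coeff v ≤ 3 * j * (3 * j + 4) * (cp j).coeff (v + 1) := by
  have h1 : (C ((j : ℚ) + 2) * ph (j + 2)).coeff (v + 1) =
      (∑ p ∈ Finset.HasAntidiagonal.antidiagonal (j + 2),
        ph p.1 * (C ((p.2 : ℚ) * 3 ^ p.2) * dd (cp p.2))).coeff (v + 1) := by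
    rw [ident_poly j]
  rw [Polynomial.coeff_C_mul, ph, if_neg (by omega), add_zero, Polynomial.coeff_C_mul,
    Polynomial.finsetSum_coeff] at h1
  have h2 : (ph ((0, j + 2) : ℕ × ℕ).1 * (C ((((0, j + 2) : ℕ × ℕ).2 : ℚ) *
      3 ^ ((0, j + 2) : ℕ × ℕ).2) * dd (cp ((0, j + 2) : ℕ × ℕ).2))).coeff (v + 1) ≤
      ∑ p ∈ Finset.HasAntidiagonal.antidiagonal (j + 2),
        (ph p.1 * (C ((p.2 : ℚ) * 3 ^ p.2) * dd (cp p.2))).coeff (v + 1) := by
    refine Finset.single_le_sum (f := fun p : ℕ × ℕ =>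
      (ph p.1 * (C ((p.2 : ℚ) * 3 ^ p.2) * dd (cp p.2))).coeff (v + 1)) (fun p _ => ?_)
      (Finset.HasAntidiagonal.mem_antidiagonal.2 (Nat.zero_add _))
    exact mul_nn (ph_nn _) (C_nn (by positivity) (dd_nonneg (cp_nonneg _))) _
  rw [← h1] at h2
  simp only [ph] at h2
  rw [Polynomial.coeff_X_mul, Polynomial.coeff_C_mul] at h2
  push_cast at h2
  have h3 : (0 : ℚ) < ((j : ℚ) + 2) * 3 ^ (j + 2) := by positivity
  refine le_of_mul_le_mul_left (h2.trans (le_of_eq ?_)) h3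
  ring

end SST.T
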