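import Pool.Agent.SST.T.Defs

/-!
# SST-T-InvRec: recursion for perfect matchings

PROOF. `Inv S` = involutions `α` with `{x | α x ≠ x} = S`. Map `α ↦ (d' = α d, β = swap d d' * α)`: for `α ∈ Inv S`, `d' ∈ S.erase d` (`α d ≠ d`, and `α d' = d ≠ d'`), `β` fixes `d` and `d'` and agrees with `α` elsewhere (for `x ∉ {d, d'}`: `α x ∉ {d, d'}`), so `β ∈ Inv ((S.erase d).erase d')`.
Inverse: `(d', β) ↦ swap d d' * β`. Use `Finset.sum_sigma'`/`Finset.sum_bij'` (or `Finset.sum_fiberwise` over the value `α d` and then a bijection for fixed `d'`). The product over `S` splits: `S = insert d (insert d' rest)`: `w d (α d) * w d' (α d') * ∏ rest = w d d' * w d' d * ∏ x ∈ rest, w x (β x)`.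
-/

namespace SST.T

private theorem mem_Inv {D : Type*} [Fintype D] [DecidableEq D] {S : Finset D}
    {α : Equiv.Perm D} : α ∈ Inv S ↔ (∀ d, α (α d) = d) ∧ ∀ d, (α d ≠ d ↔ d ∈ S) := by
  unfold Inv
  rw [Finset.mem_filter]
  exact ⟨fun h => h.2, fun h => ⟨Finset.mem_univ _, h⟩⟩

theorem inv_empty {D : Type*} [Fintype D] [DecidableEq D] : Inv (∅ : Finset D) = {1} := by
  ext α
  rw [mem_Inv, Finset.mem_singleton]
  constructor
  · rintro ⟨-, h⟩
    ext x
    rw [Equiv.Perm.one_apply]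
    by_contra hx
    exact absurd ((h x).1 hx) (Finset.notMem_empty x)
  · rintro rfl
    refine ⟨fun d => rfl, fun d => ?_⟩
    simp

/-- the image of the first map -/
private theorem fwd {D : Type*} [Fintype D] [DecidableEq D] {S : Finset D} {d : D} (hd : d ∈ S)
    {α : Equiv.Perm D} (hα : α ∈ Inv S) : α d ∈ S.erase d ∧
      (Equiv.swap d (α d) * α) ∈ Inv ((S.erase d).erase (α d)) ∧
      ∀ x, x ≠ d → x ≠ α d → (Equiv.swap d (α d) * α) x = α x := by
  rw [mem_Inv] at hα
  obtain ⟨h1, h2⟩ := hα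
  have hne : α d ≠ d := (h2 d).2 hd
  have hmem : α d ∈ S := by
    rw [← h2 (α d), h1]
    exact hne.symm
  have hA : (Equiv.swap d (α d) * α) d = d := by
    rw [Equiv.Perm.mul_apply, Equiv.swap_apply_right]
  have hB : (Equiv.swap d (α d) * α) (α d) = α d := by
    rw [Equiv.Perm.mul_apply, h1, Equiv.swap_apply_left]
  have hC : ∀ x, x ≠ d → x ≠ α d → (Equiv.swap d (α d) * α) x = α x := by
    intro x hx1 hx2
    rw [Equiv.Perm.mul_apply]
    apply Equiv.swap_apply_of_ne_of_ne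
    · intro h
      apply hx2
      rw [← h1 x, h]
    · intro h
      exact hx1 (α.injective h)
  refine ⟨Finset.mem_erase.2 ⟨hne, hmem⟩, ?_, hC⟩
  rw [mem_Inv]
  constructor
  · intro x
    by_cases hx1 : x = d
    · rw [hx1, hA, hA]
    · by_cases hx2 : x = α d
      · rw [hx2, hB, hB]
      · rw [hC x hx1 hx2, hC (α x), h1]
        · intro h
          apply hx2
          rw [← h1 x, h]
        · intro h
          exact hx1 (α.injective h)
  · intro x
    rw [Finset.mem_erase, Finset.mem_erase]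
    by_cases hx1 : x = d
    · rw [hx1, hA]
      simp
    · by_cases hx2 : x = α d
      · rw [hx2, hB]
        simp
      · rw [hC x hx1 hx2, h2 x]
        simp [hx1, hx2]

/-- the image of the second map -/
private theorem bwd {D : Type*} [Fintype D] [DecidableEq D] {S : Finset D} {d d' : D} (hd : d ∈ S)
    (hd' : d' ∈ S.erase d) {β : Equiv.Perm D} (hβ : β ∈ Inv ((S.erase d).erase d')) :
    (Equiv.swap d d' * β) ∈ Inv S ∧ (Equiv.swap d d' * β) d = d' := by
  rw [mem_Inv] at hβ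
  obtain ⟨h1, h2⟩ := hβ
  rw [Finset.mem_erase] at hd'
  obtain ⟨hne, hd'S⟩ := hd'
  have hβd : β d = d := by
    by_contra h
    have := (h2 d).1 h
    simp at this
  have hβd' : β d' = d' := by
    by_contra h
    have := (h2 d').1 h
    simp at this
  have hA : (Equiv.swap d d' * β) d = d' := by
    rw [Equiv.Perm.mul_apply, hβd, Equiv.swap_apply_left]
  have hB : (Equiv.swap d d' * β) d' = d := by
    rw [Equiv.Perm.mul_apply, hβd', Equiv.swap_apply_right]
  have hC : ∀ x, x ≠ d → x ≠ d' → (Equiv.swap d d' * β) x = β x ∧ β x ≠ d ∧ β x ≠ d' := by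
    intro x hx1 hx2
    have e1 : β x ≠ d := by
      intro h
      apply hx1
      rw [← h1 x, h, hβd]
    have e2 : β x ≠ d' := by
      intro h
      apply hx2
      rw [← h1 x, h, hβd']
    refine ⟨?_, e1, e2⟩
    rw [Equiv.Perm.mul_apply]
    exact Equiv.swap_apply_of_ne_of_ne e1 e2
  refine ⟨?_, hA⟩
  rw [mem_Inv]
  constructor
  · intro x
    by_cases hx1 : x = d
    · rw [hx1, hA, hB]
    · by_cases hx2 : x = d'
      · rw [hx2, hB, hA]
      · obtain ⟨e1, e2, e3⟩ := hC x hx1 hx2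
        rw [e1, (hC (β x) e2 e3).1, h1]
  · intro x
    by_cases hx1 : x = d
    · rw [hx1, hA]
      exact ⟨fun _ => hd, fun _ => hne⟩
    · by_cases hx2 : x = d'
      · rw [hx2, hB]
        exact ⟨fun _ => hd'S, fun _ => hne.symm⟩
      · rw [(hC x hx1 hx2).1, h2 x, Finset.mem_erase, Finset.mem_erase]
        simp [hx1, hx2]

theorem inv_rec {D : Type*} [Fintype D] [DecidableEq D] (S : Finset D) (d : D) (hd : d ∈ S)
    (w : D → D → ℚ) :
    ∑ α ∈ Inv S, ∏ x ∈ S, w x (α x) =
      ∑ d' ∈ S.erase d, w d d' * w d' d *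
        ∑ β ∈ Inv ((S.erase d).erase d'), ∏ x ∈ (S.erase d).erase d', w x (β x) := by
  have hR : ∀ d' ∈ S.erase d, w d d' * w d' d *
      ∑ β ∈ Inv ((S.erase d).erase d'), ∏ x ∈ (S.erase d).erase d', w x (β x) =
      ∑ β ∈ Inv ((S.erase d).erase d'),
        w d d' * w d' d * ∏ x ∈ (S.erase d).erase d', w x (β x) :=
    fun d' _ => Finset.mul_sum _ _ _
  rw [Finset.sum_congr rfl hR, Finset.sum_sigma']
  refine Finset.sum_bij' (fun α _ => (⟨α d, Equiv.swap d (α d) * α⟩ : Σ _ : D, Equiv.Perm D))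
    (fun p _ => Equiv.swap d p.1 * p.2) ?_ ?_ ?_ ?_ ?_
  · intro α hα
    rw [Finset.mem_sigma]
    exact ⟨(fwd hd hα).1, (fwd hd hα).2.1⟩
  · rintro ⟨d', β⟩ hp
    rw [Finset.mem_sigma] at hp
    exact (bwd hd hp.1 hp.2).1
  · intro α hα
    exact Equiv.swap_mul_self_mul _ _ _
  · rintro ⟨d', β⟩ hp
    rw [Finset.mem_sigma] at hp
    have h1 := (bwd hd hp.1 hp.2).2
    simp only at h1 ⊢
    rw [h1, Equiv.swap_mul_self_mul]
  · intro α hα
    obtain ⟨h1, h2, h3⟩ := fwd hd hα
    have hαα := (mem_Inv.1 hα).1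
    rw [← Finset.mul_prod_erase S (fun x => w x (α x)) hd,
      ← Finset.mul_prod_erase (S.erase d) (fun x => w x (α x)) h1, hαα, mul_assoc]
    congr 2
    apply Finset.prod_congr rfl
    intro x hx
    rw [Finset.mem_erase, Finset.mem_erase] at hx
    rw [h3 x hx.2.1 hx.1]

end SST.T
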