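import Pool.Agent.SST.T.Defs

/-!
# SST-T-Vand: the derivations `∑ x_i ^ m ∂_i` and the square of the Vandermonde determinant

PROOF. `D := Dm N (m+1)`, `D (X j - X i) = X j ^ (m+1) - X i ^ (m+1) = (X j - X i) * ∑ a ∈ range (m+1), X j ^ a * X i ^ (m - a)`
(`MvPolynomial.mkDerivation_X`; `Commute.mul_geom_sum₂` / `mul_geom_sum` / `(Commute.all _ _).mul_geom_sum₂`, which has exponents `i`, `n - 1 - i` with `n = m + 1`).
For a derivation and a finite product with `D (f p) = f p * g p` for all `p` one has `D (∏ f p) = (∏ f p) * ∑ g p` (`Finset.induction_on`, `Derivation.leibniz`, `smul_eq_mul`).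
Apply this to `vd N = ∏ i, ∏ j ∈ Ioi i, (X j - X i)` (twice: inner and outer product): `D (vd N) = vd N * S`, `S = ∑ i, ∑ j ∈ Ioi i, ∑ a ∈ range (m+1), X j ^ a * X i ^ (m - a)`.
`D (vd ^ 2) = 2 vd D vd = vd ^ 2 * (2 S)` (`Derivation.leibniz_pow` or `pow_two`). `2 S = ∑ i, ∑ j with j ≠ i, ∑ a, X j ^ a * X i ^ (m - a)`: by symmetry (exchange `i` and `j`, and `a` and `m - a`: `Finset.sum_range_reflect`); then
`∑ i, ∑ j, ∑ a (all pairs) = ∑ a, p_a p_(m-a)` and the diagonal is `∑ i, ∑ a, X i ^ a * X i ^ (m-a) = (m+1) p_m`. (One clean way: prove `∑ i, ∑ j, g i j = ∑ i, ∑ j ∈ Ioi i, (g i j + g j i) + ∑ i, g i i` for every `g : Fin N → Fin N → _`.)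
`m`-free case: `D = Dm N 0`, `D (X j - X i) = 1 - 1 = 0`, so `D (vd) = 0`.
`Dm_psum`: `D (X i ^ l) = l X i ^ (l-1) * X i ^ m` (`Derivation.leibniz_pow`).
-/

namespace SST.T

open MvPolynomial

private theorem der_prod {ι A : Type*} [DecidableEq ι] [CommRing A] [Algebra ℚ A]
    (D : Derivation ℚ A A) (s : Finset ι) (f g : ι → A) (h : ∀ i ∈ s, D (f i) = f i * g i) :
    D (∏ i ∈ s, f i) = (∏ i ∈ s, f i) * ∑ i ∈ s, g i := by
  induction s using Finset.induction_on with
  | empty => simp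
  | insert i s hi ih =>
    rw [Finset.prod_insert hi, Finset.sum_insert hi, Derivation.leibniz,
      ih (fun j hj => h j (Finset.mem_insert_of_mem hj)), h i (Finset.mem_insert_self i s)]
    simp only [smul_eq_mul]
    ring

private theorem sum_pairs {A : Type*} [CommRing A] (N : ℕ) (g : Fin N → Fin N → A) :
    ∑ i, ∑ j, g i j = ∑ i, ∑ j ∈ Finset.Ioi i, (g i j + g j i) + ∑ i, g i i := by
  classical
  have h1 : ∀ i : Fin N, ∑ j, g i j = ∑ j ∈ Finset.Ioi i, g i j + ∑ j ∈ Finset.Iio i, g i j + g i i := by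
    intro i
    have hu : (Finset.univ : Finset (Fin N)) = insert i (Finset.Ioi i ∪ Finset.Iio i) := by
      ext j
      simp only [Finset.mem_univ, Finset.mem_insert, Finset.mem_union, Finset.mem_Ioi,
        Finset.mem_Iio, true_iff]
      rcases lt_trichotomy i j with h | h | h
      · exact Or.inr (Or.inl h)
      · exact Or.inl h.symm
      · exact Or.inr (Or.inr h)
    have hd : Disjoint (Finset.Ioi i) (Finset.Iio i) := by
      rw [Finset.disjoint_left]
      intro j h1 h2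
      rw [Finset.mem_Ioi] at h1
      rw [Finset.mem_Iio] at h2
      exact absurd (h1.trans h2) (lt_irrefl _)
    have hn : i ∉ Finset.Ioi i ∪ Finset.Iio i := by simp
    rw [hu, Finset.sum_insert hn, Finset.sum_union hd]
    ring
  simp only [h1, Finset.sum_add_distrib]
  congr 2
  rw [Finset.sum_sigma', Finset.sum_sigma']
  refine Finset.sum_bij' (fun p _ => ⟨p.2, p.1⟩) (fun p _ => ⟨p.2, p.1⟩) ?_ ?_ ?_ ?_ ?_
  · rintro ⟨i, j⟩ h
    simp only [Finset.mem_sigma, Finset.mem_univ, Finset.mem_Iio, Finset.mem_Ioi, true_and] at h ⊢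
    exact h
  · rintro ⟨i, j⟩ h
    simp only [Finset.mem_sigma, Finset.mem_univ, Finset.mem_Iio, Finset.mem_Ioi, true_and] at h ⊢
    exact h
  · rintro ⟨i, j⟩ _
    rfl
  · rintro ⟨i, j⟩ _
    rfl
  · rintro ⟨i, j⟩ _
    rfl

private theorem Dm_X (N m : ℕ) (i : Fin N) : Dm N m (X i) = X i ^ m := by
  rw [Dm, MvPolynomial.mkDerivation_X]

theorem Dm_vd (N m : ℕ) : Dm N (m + 1) (vd N ^ 2) = vd N ^ 2 *
    (∑ a ∈ Finset.range (m + 1), psum (Fin N) ℚ a * psum (Fin N) ℚ (m - a) -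
      ((m + 1 : ℕ) : MvPolynomial (Fin N) ℚ) * psum (Fin N) ℚ m) := by
  classical
  have h1 : Dm N (m + 1) (vd N) = vd N *
      ∑ i : Fin N, ∑ j ∈ Finset.Ioi i,
        ∑ a ∈ Finset.range (m + 1), (X j ^ a * X i ^ (m - a) : MvPolynomial (Fin N) ℚ) := by
    rw [vd]
    refine der_prod _ _ _ _ fun i _ => ?_
    refine der_prod _ _ _ _ fun j _ => ?_
    rw [map_sub, Dm_X, Dm_X]
    have := (Commute.all (X j : MvPolynomial (Fin N) ℚ) (X i)).mul_geom_sum₂ (m + 1)
    rw [← this]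
    refine congrArg _ (Finset.sum_congr rfl fun a ha => ?_)
    rw [Nat.add_sub_cancel]
  have h2 : ∑ a ∈ Finset.range (m + 1), psum (Fin N) ℚ a * psum (Fin N) ℚ (m - a) =
      2 * ∑ i : Fin N, ∑ j ∈ Finset.Ioi i,
        ∑ a ∈ Finset.range (m + 1), (X j ^ a * X i ^ (m - a) : MvPolynomial (Fin N) ℚ) +
      ((m + 1 : ℕ) : MvPolynomial (Fin N) ℚ) * psum (Fin N) ℚ m := by
    have h3 : ∑ a ∈ Finset.range (m + 1), psum (Fin N) ℚ a * psum (Fin N) ℚ (m - a) =
        ∑ i : Fin N, ∑ j : Fin N, ∑ a ∈ Finset.range (m + 1),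
          (X j ^ a * X i ^ (m - a) : MvPolynomial (Fin N) ℚ) := by
      simp only [MvPolynomial.psum, Finset.sum_mul_sum]
      have e1 : ∀ i : Fin N, ∑ j : Fin N, ∑ a ∈ Finset.range (m + 1),
          (X j ^ a * X i ^ (m - a) : MvPolynomial (Fin N) ℚ) =
          ∑ a ∈ Finset.range (m + 1), ∑ j : Fin N, X j ^ a * X i ^ (m - a) :=
        fun i => Finset.sum_comm
      simp only [e1]
      symm
      rw [Finset.sum_comm]
      exact Finset.sum_congr rfl fun a _ => Finset.sum_comm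
    rw [h3, sum_pairs]
    have h4 : ∀ i j : Fin N, ∑ a ∈ Finset.range (m + 1),
        (X i ^ a * X j ^ (m - a) : MvPolynomial (Fin N) ℚ) =
        ∑ a ∈ Finset.range (m + 1), X j ^ a * X i ^ (m - a) := by
      intro i j
      rw [← Finset.sum_range_reflect]
      refine Finset.sum_congr rfl fun a ha => ?_
      have ha' : a ≤ m := Nat.lt_succ_iff.mp (Finset.mem_range.mp ha)
      have e1 : m + 1 - 1 - a = m - a := by omega
      have e2 : m - (m - a) = a := by omega
      rw [e1, e2, mul_comm]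
    have h5 : ∀ i : Fin N, ∑ a ∈ Finset.range (m + 1),
        (X i ^ a * X i ^ (m - a) : MvPolynomial (Fin N) ℚ) = ((m + 1 : ℕ) : MvPolynomial (Fin N) ℚ) * X i ^ m := by
      intro i
      rw [Finset.sum_congr rfl (g := fun _ => (X i ^ m : MvPolynomial (Fin N) ℚ)), Finset.sum_const,
        Finset.card_range, nsmul_eq_mul]
      intro a ha
      have ha' : a ≤ m := Nat.lt_succ_iff.mp (Finset.mem_range.mp ha)
      rw [← pow_add]
      congr 1
      omega
    congr 1
    · rw [Finset.mul_sum]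
      refine Finset.sum_congr rfl fun i _ => ?_
      rw [Finset.mul_sum]
      refine Finset.sum_congr rfl fun j _ => ?_
      rw [h4 i j]
      ring
    · simp only [h5]
      rw [MvPolynomial.psum, Finset.mul_sum]
  rw [Derivation.leibniz_pow, h1, h2]
  simp only [smul_eq_mul, nsmul_eq_mul]
  push_cast
  ring

theorem D0_vd (N : ℕ) : Dm N 0 (vd N ^ 2) = 0 := by
  classical
  have h1 : Dm N 0 (vd N) = vd N * ∑ i : Fin N, ∑ j ∈ Finset.Ioi i, (0 : MvPolynomial (Fin N) ℚ) := by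
    rw [vd]
    refine der_prod _ _ _ _ fun i _ => ?_
    refine der_prod _ _ _ _ fun j _ => ?_
    rw [map_sub, Dm_X, Dm_X]
    simp
  rw [Derivation.leibniz_pow, h1]
  simp

theorem Dm_psum (N m l : ℕ) :
    Dm N m (psum (Fin N) ℚ l) = (l : ℚ) • psum (Fin N) ℚ (l - 1 + m) := by
  rw [MvPolynomial.psum, map_sum, MvPolynomial.psum, Finset.smul_sum]
  refine Finset.sum_congr rfl fun i _ => ?_
  rw [Derivation.leibniz_pow, Dm_X, pow_add, ← Nat.cast_smul_eq_nsmul ℚ, smul_eq_mul]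

end SST.T
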