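import Pool.Agent.SST.T.Ev
import Pool.Agent.SST.T.Vand

/-!
# SST-T-LoopB: loop equations for the functional `B`

PROOF. `Dm N m F = ∑ i, X i ^ m * pderiv i F` (private lemma: `MvPolynomial.mkDerivation` and `pderiv`: two derivations which agree on all `X i`, `MvPolynomial.derivation_ext`; or
`MvPolynomial.mkDerivation_apply`...). `B_p0`: `psum 0 = N` (`MvPolynomial.psum_zero`), linearity.
`B_p2`: `psum (m+2) * Q * vd^2 = ∑ i, X i * (X i ^ (m+1) * (vd^2 * Q))`; `ev_ibp` with `F = X i ^ (m+1) * (vd^2 * Q)` (product rule for `pderiv i`): the sum over `i` of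
`pderiv i (X i ^ (m+1) * G)` with `G = vd^2 * Q` is `(m+1) psum m * G + Dm (m+1) G`, and `Dm (m+1) (vd^2 * Q) = vd^2 * (∑ .. - (m+1) psum m) * Q + vd^2 * Dm (m+1) Q` (`Dm_vd`, `Derivation.leibniz`). The two terms `(m+1) psum m` cancel.
The last term: `∑ i, X i ^ 2 * (X i ^ (m+1) * G) = psum (m+3) * G`. `B_p1` in the same way with `F = G` and `D0_vd`.
-/

namespace SST.T

open MvPolynomial

private theorem der_sum {N : ℕ} (s : Finset (Fin N))
    (D : Fin N → Derivation ℚ (MvPolynomial (Fin N) ℚ) (MvPolynomial (Fin N) ℚ))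
    (F : MvPolynomial (Fin N) ℚ) : (∑ i ∈ s, D i) F = ∑ i ∈ s, D i F := by
  classical
  induction s using Finset.induction_on with
  | empty => simp
  | insert a s ha ih => rw [Finset.sum_insert ha, Finset.sum_insert ha, Derivation.add_apply, ih]

theorem Dm_apply (N m : ℕ) (F : MvPolynomial (Fin N) ℚ) :
    Dm N m F = ∑ i, X i ^ m * pderiv i F := by
  have h : Dm N m = ∑ i, (X i ^ m : MvPolynomial (Fin N) ℚ) • pderiv i := by
    apply MvPolynomial.derivation_ext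
    intro j
    rw [Dm, mkDerivation_X, der_sum]
    simp only [Derivation.coe_smul, Pi.smul_apply, smul_eq_mul, pderiv_X, Pi.single_apply,
      mul_ite, mul_one, mul_zero]
    rw [Finset.sum_ite_eq]
    simp
  rw [h, der_sum]
  simp only [Derivation.coe_smul, Pi.smul_apply, smul_eq_mul]

theorem B_p0 {R : Type*} [CommRing R] [Algebra ℚ R] (h : ℕ → R) (N : ℕ)
    (Q : MvPolynomial (Fin N) ℚ) : B h N (psum (Fin N) ℚ 0 * Q) = (N : R) * B h N Q := by
  have h0 : psum (Fin N) ℚ 0 = (N : MvPolynomial (Fin N) ℚ) := by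
    rw [psum_zero, Fintype.card_fin]
  rw [h0, ← nsmul_eq_mul, map_nsmul, nsmul_eq_mul]

/-- Sum of the integrations by parts. -/
private theorem ev_sum {R : Type*} [CommRing R] [Algebra ℚ R] {h : ℕ → R} {c : R}
    (hh : IBP h c) (N : ℕ) (F : Fin N → MvPolynomial (Fin N) ℚ) :
    ev h N (∑ i, X i * F i) = ev h N (∑ i, pderiv i (F i)) +
      c * ev h N (∑ i, X i ^ 2 * F i) := by
  rw [map_sum, map_sum, map_sum, Finset.mul_sum, ← Finset.sum_add_distrib]
  exact Finset.sum_congr rfl fun i _ => ev_ibp hh N i (F i)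

theorem B_p1 {R : Type*} [CommRing R] [Algebra ℚ R] {h : ℕ → R} {c : R} (hh : IBP h c) (N : ℕ)
    (Q : MvPolynomial (Fin N) ℚ) :
    B h N (psum (Fin N) ℚ 1 * Q) = B h N (Dm N 0 Q) + c * B h N (psum (Fin N) ℚ 2 * Q) := by
  have e := ev_sum hh N (fun _ => vd N ^ 2 * Q)
  have e1 : vd N ^ 2 * (psum (Fin N) ℚ 1 * Q) = ∑ i, X i * (vd N ^ 2 * Q) := by
    rw [← Finset.sum_mul, psum]
    simp only [pow_one]
    ring
  have e2 : vd N ^ 2 * (psum (Fin N) ℚ 2 * Q) = ∑ i, X i ^ 2 * (vd N ^ 2 * Q) := by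
    rw [← Finset.sum_mul, psum]
    ring
  have e3 : vd N ^ 2 * Dm N 0 Q = ∑ i, pderiv i (vd N ^ 2 * Q) := by
    have h1 := Dm_apply N 0 (vd N ^ 2 * Q)
    simp only [pow_zero, one_mul] at h1
    rw [← h1, Derivation.leibniz, D0_vd, smul_zero, add_zero, smul_eq_mul]
  rw [B_apply, B_apply, B_apply, e1, e2, e3]
  exact e

theorem B_p2 {R : Type*} [CommRing R] [Algebra ℚ R] {h : ℕ → R} {c : R} (hh : IBP h c) (N m : ℕ)
    (Q : MvPolynomial (Fin N) ℚ) :
    B h N (psum (Fin N) ℚ (m + 2) * Q) =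
      ∑ a ∈ Finset.range (m + 1), B h N (psum (Fin N) ℚ a * psum (Fin N) ℚ (m - a) * Q) +
        B h N (Dm N (m + 1) Q) + c * B h N (psum (Fin N) ℚ (m + 3) * Q) := by
  have e := ev_sum hh N (fun i => X i ^ (m + 1) * (vd N ^ 2 * Q))
  have e1 : vd N ^ 2 * (psum (Fin N) ℚ (m + 2) * Q) =
      ∑ i, X i * (X i ^ (m + 1) * (vd N ^ 2 * Q)) := by
    have : ∀ i : Fin N, (X i * (X i ^ (m + 1) * (vd N ^ 2 * Q)) : MvPolynomial (Fin N) ℚ) =
        X i ^ (m + 2) * (vd N ^ 2 * Q) := fun i => by ring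
    rw [Finset.sum_congr rfl fun i _ => this i, ← Finset.sum_mul, psum]
    ring
  have e2 : vd N ^ 2 * (psum (Fin N) ℚ (m + 3) * Q) =
      ∑ i, X i ^ 2 * (X i ^ (m + 1) * (vd N ^ 2 * Q)) := by
    have : ∀ i : Fin N, (X i ^ 2 * (X i ^ (m + 1) * (vd N ^ 2 * Q)) : MvPolynomial (Fin N) ℚ) =
        X i ^ (m + 3) * (vd N ^ 2 * Q) := fun i => by ring
    rw [Finset.sum_congr rfl fun i _ => this i, ← Finset.sum_mul, psum]
    ring
  have e3 : ∑ i, pderiv i (X i ^ (m + 1) * (vd N ^ 2 * Q)) =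
      vd N ^ 2 * (∑ a ∈ Finset.range (m + 1),
        psum (Fin N) ℚ a * psum (Fin N) ℚ (m - a) * Q + Dm N (m + 1) Q) := by
    have h1 : ∀ i : Fin N, pderiv i (X i ^ (m + 1) * (vd N ^ 2 * Q)) =
        X i ^ (m + 1) * pderiv i (vd N ^ 2 * Q) +
          ((m + 1 : ℕ) : MvPolynomial (Fin N) ℚ) * X i ^ m * (vd N ^ 2 * Q) := by
      intro i
      rw [Derivation.leibniz, Derivation.leibniz_pow, pderiv_X_self, smul_eq_mul, smul_eq_mul,
        smul_eq_mul, mul_one, nsmul_eq_mul, Nat.add_sub_cancel]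
      ring
    rw [Finset.sum_congr rfl fun i _ => h1 i, Finset.sum_add_distrib, ← Dm_apply,
      Derivation.leibniz, Dm_vd, ← Finset.sum_mul, ← Finset.mul_sum, smul_eq_mul, smul_eq_mul,
      ← Finset.sum_mul]
    rw [show (∑ i : Fin N, (X i ^ m : MvPolynomial (Fin N) ℚ)) = psum (Fin N) ℚ m from rfl]
    ring
  rw [B_apply h N (psum (Fin N) ℚ (m + 2) * Q), e1, e, e2.symm, e3, B_apply h N (Dm N (m + 1) Q),
    B_apply h N (psum (Fin N) ℚ (m + 3) * Q), mul_add, map_add, Finset.mul_sum, map_sum]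
  rfl

end SST.T
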