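import Pool.Agent.SST.T.WIbp

/-!
# SST-T-LoopW: loop equations for the Gaussian matrix functional on traces

PROOF. Let `H = HH N`, `t l = (H ^ l).trace`, `∂ = pderiv (j, i)`.
(1) `∂ ((H ^ m) k l) = ∑ a ∈ range m, (H ^ a) k j * (H ^ (m - 1 - a)) i l`, by induction on `m`: `H ^ (m+1) = H ^ m * H`, `Matrix.mul_apply`, `∂ (H k' l) = if (k', l) = (j, i) then 1 else 0`  (`pderiv_X`); so `∂ ((H^(m+1)) k l) = ∑ k', ∂((H^m) k k') * H k' l + (H^m) k j * [l = i]`, and `[l = i] = (H ^ 0) i l`.
(2) `∂ (t l) = l * (H ^ (l - 1)) i j`: sum over `k = l` in (1): `∑ a, (H^(l-1-a) * H^a) i j` (`pow_add`).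
(3) `Q' = aeval t Q`: `∑ i, ∑ j, (H ^ m) j i * pderiv (j,i) Q' = aeval t (DL m Q)`: both sides are derivations in `Q` along `aeval t` (check on `X l`: by (2) `∑ (H^m) j i * l (H^(l-1)) i j = l t (m + l - 1)`, trace of a product; `DL m (X l) = l • X (l - 1 + m)`), so prove it by `MvPolynomial.induction_on` (`C`, sum, product with `X l`: Leibniz on both sides), for `l = 0` both are `0`.
(4) `t (m+1) * Q' = ∑ i, ∑ j, X (i,j) * ((H ^ m) j i * Q')` (`pow_succ'`, `Matrix.trace`, `Matrix.mul_apply`). `W_ibp` and (1) with `k = j, l = i`: `∂ ((H^m) j i) = ∑ a ∈ range m, (H^a) j j * (H^(m-1-a)) i i`, sum over `i, j`: `∑ a ∈ range m, t a * t (m - 1 - a)`. For `m = 0` this sum is empty (case `X 1`), for `m = m' + 1` it is the sum in `Loop`.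
(5) `F (X 0 * Q) = N F Q` as `t 0 = trace 1 = N`.
-/

namespace SST.T

open MvPolynomial

/-- `Q ↦ W (Q(tr H^0, tr H^1, ..))`. -/
noncomputable def FW (N : ℕ) : Lam →ₗ[ℚ] ℚ :=
  (W N).comp (aeval (fun l => ((HH N) ^ l).trace) : Lam →ₐ[ℚ] MvPolynomial (Fin N × Fin N) ℚ).toLinearMap

section LoopWAux

variable {N : ℕ}

private theorem lw_pow (i j : Fin N) (m : ℕ) : ∀ k l : Fin N,
    pderiv (j, i) (((HH N) ^ m) k l) =
      ∑ a ∈ Finset.range m, ((HH N) ^ a) k j * ((HH N) ^ (m - 1 - a)) i l := by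
  induction m with
  | zero =>
    intro k l
    rw [pow_zero, Finset.range_zero, Finset.sum_empty, Matrix.one_apply]
    split_ifs
    · exact pderiv_one
    · exact map_zero _
  | succ m ih =>
    intro k l
    rw [pow_succ, Matrix.mul_apply, map_sum]
    have h1 : ∀ k' : Fin N, pderiv (j, i) (((HH N) ^ m) k k' * (HH N) k' l) =
        (∑ a ∈ Finset.range m, ((HH N) ^ a) k j * ((HH N) ^ (m - 1 - a)) i k') * (HH N) k' l +
          (if k' = j then ((HH N) ^ m) k k' * (if i = l then 1 else 0) else 0) := by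
      intro k'
      rw [pderiv_mul, ih k k']
      congr 1
      have h2 : (HH N) k' l = X (k', l) := rfl
      rw [h2]
      by_cases hk : k' = j
      · by_cases hl : i = l
        · rw [if_pos hk, if_pos hl, hk, ← hl, pderiv_X_self]
        · rw [if_pos hk, if_neg hl, pderiv_X_of_ne]
          intro h3
          exact hl (Prod.ext_iff.1 h3).2.symm
      · rw [if_neg hk, pderiv_X_of_ne, mul_zero]
        intro h3
        exact hk (Prod.ext_iff.1 h3).1
    rw [Finset.sum_congr rfl fun k' _ => h1 k', Finset.sum_add_distrib, Finset.sum_ite_eq',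
      if_pos (Finset.mem_univ _), Finset.sum_range_succ, Nat.add_sub_cancel, Nat.sub_self, pow_zero,
      Matrix.one_apply]
    congr 1
    rw [Finset.sum_congr rfl fun k' _ => Finset.sum_mul _ _ _, Finset.sum_comm]
    refine Finset.sum_congr rfl fun a ha => ?_
    have ha' : a < m := Finset.mem_range.1 ha
    have h4 : m - a = (m - 1 - a) + 1 := by omega
    rw [h4, pow_succ, Matrix.mul_apply, Finset.mul_sum]
    refine Finset.sum_congr rfl fun k' _ => ?_
    rw [mul_assoc]

private theorem lw_tr (i j : Fin N) (l : ℕ) :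
    pderiv (j, i) (((HH N) ^ l).trace) = (l : MvPolynomial (Fin N × Fin N) ℚ) *
      ((HH N) ^ (l - 1)) i j := by
  rw [Matrix.trace, map_sum]
  have h1 : ∀ k : Fin N, pderiv (j, i) (Matrix.diag ((HH N) ^ l) k) =
      ∑ a ∈ Finset.range l, ((HH N) ^ a) k j * ((HH N) ^ (l - 1 - a)) i k := fun k =>
    lw_pow i j l k k
  rw [Finset.sum_congr rfl fun k _ => h1 k, Finset.sum_comm]
  have h2 : ∀ a ∈ Finset.range l,
      ∑ k, ((HH N) ^ a) k j * ((HH N) ^ (l - 1 - a)) i k = ((HH N) ^ (l - 1)) i j := by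
    intro a ha
    have ha' : a < l := Finset.mem_range.1 ha
    have h3 : l - 1 = (l - 1 - a) + a := by omega
    conv_rhs => rw [h3, pow_add, Matrix.mul_apply]
    exact Finset.sum_congr rfl fun k _ => mul_comm _ _
  rw [Finset.sum_congr rfl h2, Finset.sum_const, Finset.card_range, nsmul_eq_mul]

/-- traces. -/
private noncomputable def lwT (N : ℕ) : Lam →ₐ[ℚ] MvPolynomial (Fin N × Fin N) ℚ :=
  aeval (fun l => ((HH N) ^ l).trace)

private theorem lwT_X (l : ℕ) : lwT N (X l) = ((HH N) ^ l).trace := aeval_X _ _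

private theorem lw_DL (m : ℕ) (Q : Lam) :
    ∑ i, ∑ j, ((HH N) ^ m) j i * pderiv (j, i) (lwT N Q) = lwT N (DL m Q) := by
  induction Q using MvPolynomial.induction_on with
  | C a =>
    have h1 : lwT N (C a) = C a := by
      have := (lwT N).commutes a
      exact this
    have h0 : DL m (C a) = 0 := Derivation.map_algebraMap _ a
    rw [h1, h0, map_zero]
    refine Finset.sum_eq_zero fun i _ => Finset.sum_eq_zero fun j _ => ?_
    rw [pderiv_C, mul_zero]
  | add p q hp hq =>
    rw [map_add, map_add, map_add, ← hp, ← hq, ← Finset.sum_add_distrib]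
    refine Finset.sum_congr rfl fun i _ => ?_
    rw [← Finset.sum_add_distrib]
    refine Finset.sum_congr rfl fun j _ => ?_
    rw [map_add, mul_add]
  | mul_X p l hp =>
    have h1 : DL m (p * X l) = p * ((l : ℚ) • (X (l - 1 + m) : Lam)) + X l * DL m p := by
      rw [Derivation.leibniz]
      unfold DL
      rw [mkDerivation_X]
      rfl
    rw [h1, map_add, map_mul, map_mul, map_mul, lwT_X, ← hp]
    have h2 : ∀ i j : Fin N, ((HH N) ^ m) j i * pderiv (j, i) (lwT N p * ((HH N) ^ l).trace) =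
        (lwT N p * (l : MvPolynomial (Fin N × Fin N) ℚ)) *
          (((HH N) ^ m) j i * ((HH N) ^ (l - 1)) i j) +
        ((HH N) ^ l).trace * (((HH N) ^ m) j i * pderiv (j, i) (lwT N p)) := by
      intro i j
      rw [pderiv_mul, lw_tr]
      ring
    rw [Finset.sum_congr rfl fun i _ => Finset.sum_congr rfl fun j _ => h2 i j]
    rw [Finset.sum_congr rfl fun i _ => Finset.sum_add_distrib, Finset.sum_add_distrib]
    refine congrArg₂ (fun u v => u + v) ?_ ?_
    · have h3 : lwT N ((l : ℚ) • (X (l - 1 + m) : Lam)) =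
          (l : MvPolynomial (Fin N × Fin N) ℚ) * ((HH N) ^ (l - 1 + m)).trace := by
        rw [map_smul, lwT_X, Nat.cast_smul_eq_nsmul, nsmul_eq_mul]
      rw [h3, ← mul_assoc, pow_add, Matrix.trace, Finset.mul_sum]
      refine Finset.sum_congr rfl fun i _ => ?_
      rw [Matrix.diag_apply, Matrix.mul_apply, Finset.mul_sum]
      refine Finset.sum_congr rfl fun j _ => ?_
      rw [mul_comm (((HH N) ^ m) j i)]
    · rw [Finset.mul_sum]
      refine Finset.sum_congr rfl fun i _ => ?_
      rw [Finset.mul_sum]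

private theorem lw_main (m : ℕ) (Q : Lam) :
    W N (((HH N) ^ (m + 1)).trace * lwT N Q) =
      ∑ a ∈ Finset.range m,
        W N (((HH N) ^ a).trace * ((HH N) ^ (m - 1 - a)).trace * lwT N Q) +
      W N (lwT N (DL m Q)) := by
  have h1 : ((HH N) ^ (m + 1)).trace * lwT N Q =
      ∑ i, ∑ j, X (i, j) * (((HH N) ^ m) j i * lwT N Q) := by
    rw [pow_succ', Matrix.trace, Finset.sum_mul]
    refine Finset.sum_congr rfl fun i _ => ?_
    rw [Matrix.diag_apply, Matrix.mul_apply, Finset.sum_mul]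
    refine Finset.sum_congr rfl fun j _ => ?_
    rw [← mul_assoc]
    rfl
  have h2 : ∀ i j : Fin N, W N (X (i, j) * (((HH N) ^ m) j i * lwT N Q)) =
      W N ((∑ a ∈ Finset.range m, ((HH N) ^ a) j j * ((HH N) ^ (m - 1 - a)) i i) * lwT N Q) +
      W N (((HH N) ^ m) j i * pderiv (j, i) (lwT N Q)) := by
    intro i j
    rw [W_ibp, pderiv_mul, map_add, lw_pow]
  rw [h1, map_sum]
  rw [Finset.sum_congr rfl fun i _ => map_sum (W N) _ _]
  rw [Finset.sum_congr rfl fun i _ => Finset.sum_congr rfl fun j _ => h2 i j]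
  rw [Finset.sum_congr rfl fun i _ => Finset.sum_add_distrib, Finset.sum_add_distrib]
  congr 1
  · have h3 : ∀ a, ((HH N) ^ a).trace * ((HH N) ^ (m - 1 - a)).trace * lwT N Q =
        ∑ i, ∑ j, ((HH N) ^ a) j j * ((HH N) ^ (m - 1 - a)) i i * lwT N Q := by
      intro a
      rw [Finset.sum_comm, Matrix.trace, Matrix.trace, Finset.sum_mul_sum, Finset.sum_mul]
      refine Finset.sum_congr rfl fun j _ => ?_
      rw [Finset.sum_mul]
      rfl
    have h4 : ∑ a ∈ Finset.range m,
        W N (((HH N) ^ a).trace * ((HH N) ^ (m - 1 - a)).trace * lwT N Q) =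
        ∑ a ∈ Finset.range m, ∑ i, ∑ j,
          W N (((HH N) ^ a) j j * ((HH N) ^ (m - 1 - a)) i i * lwT N Q) := by
      refine Finset.sum_congr rfl fun a _ => ?_
      rw [h3 a, map_sum]
      exact Finset.sum_congr rfl fun i _ => map_sum (W N) _ _
    have h6 : ∑ a ∈ Finset.range m, ∑ i, ∑ j,
          W N (((HH N) ^ a) j j * ((HH N) ^ (m - 1 - a)) i i * lwT N Q) =
        ∑ i, ∑ j, ∑ a ∈ Finset.range m,
          W N (((HH N) ^ a) j j * ((HH N) ^ (m - 1 - a)) i i * lwT N Q) := by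
      rw [Finset.sum_comm]
      exact Finset.sum_congr rfl fun i _ => Finset.sum_comm
    rw [h4, h6]
    refine Finset.sum_congr rfl fun i _ => Finset.sum_congr rfl fun j _ => ?_
    rw [Finset.sum_mul, map_sum]
  · have h5 : lwT N (DL m Q) = ∑ i, ∑ j, ((HH N) ^ m) j i * pderiv (j, i) (lwT N Q) :=
      (lw_DL m Q).symm
    rw [h5, map_sum]
    refine Finset.sum_congr rfl fun i _ => ?_
    rw [map_sum]

end LoopWAux

theorem loop_W (N : ℕ) : Loop N (FW N) := by
  have hF : ∀ Q : Lam, FW N Q = W N (lwT N Q) := fun Q => rfl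
  refine ⟨?_, ?_, ?_⟩
  · intro Q
    rw [hF, hF, map_mul, lwT_X, pow_zero, Matrix.trace_one, Fintype.card_fin, ← nsmul_eq_mul,
      map_nsmul, nsmul_eq_mul]
  · intro Q
    rw [hF, hF, map_mul, lwT_X]
    have h0 := lw_main (N := N) 0 Q
    rw [Finset.range_zero, Finset.sum_empty] at h0
    exact h0.trans (zero_add _)
  · intro m Q
    rw [hF, hF, map_mul, lwT_X]
    have := lw_main (N := N) (m + 1) Q
    rw [this]
    congr 1
    refine Finset.sum_congr rfl fun a _ => ?_
    have h1 : lwT N (X a * X (m - a) * Q) =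
        ((HH N) ^ a).trace * ((HH N) ^ (m - a)).trace * lwT N Q := by
      rw [map_mul, map_mul, lwT_X, lwT_X]
    rw [hF, h1, Nat.add_sub_cancel]

end SST.T
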