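import Pool.Agent.SST.T.Toda

/-!
# SST-T-Main1: the Toda equation for the logarithmic derivatives
-/

namespace SST.T

open PowerSeries

/-- `Φ_N = N + 36 N^2 t^2 + 108 t^2 H + 81 t^2 (t H')`. -/
noncomputable def Phi (N : ℕ) (H : PowerSeries ℚ) : PowerSeries ℚ :=
  (N : PowerSeries ℚ) + 36 * (N : PowerSeries ℚ) ^ 2 * X ^ 2 + 108 * X ^ 2 * H +
    81 * X ^ 2 * (X * derivative ℚ H)

theorem Bht_ne (N : ℕ) : B ht N 1 ≠ 0 := by
  intro h
  have := const_B N 1
  rw [h, map_zero] at this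
  exact B0_ne N this.symm

theorem der_ofNat (n : ℕ) : derivative ℚ (n : PowerSeries ℚ) = 0 :=
  Derivation.map_natCast _ _

theorem toda_log (N : ℕ) (hN : 1 ≤ N) (H Hp Hm : PowerSeries ℚ)
    (hH : H * B ht N 1 = X * derivative ℚ (B ht N 1))
    (hHp : Hp * B ht (N + 1) 1 = X * derivative ℚ (B ht (N + 1) 1))
    (hHm : Hm * B ht (N - 1) 1 = X * derivative ℚ (B ht (N - 1) 1)) :
    X * derivative ℚ (Phi N H) = Phi N H * (Hp + Hm - 2 * H) := by
  have hT := toda N hN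
  have h1 := eq1 N
  have h2 := eq2 N
  have hW := Bht_ne N
  set W := B ht N 1 with hWd
  set Wp := B ht (N + 1) 1 with hWp
  set Wm := B ht (N - 1) 1 with hWm
  set W1 := B ht N (MvPolynomial.psum (Fin N) ℚ 1) with hW1
  set W2 := B ht N (MvPolynomial.psum (Fin N) ℚ 1 * MvPolynomial.psum (Fin N) ℚ 1) with hW2
  set D := derivative ℚ with hD
  have hD3 : D (3 : PowerSeries ℚ) = 0 := der_ofNat 3
  have hD36 : D (36 : PowerSeries ℚ) = 0 := der_ofNat 36
  have hD108 : D (108 : PowerSeries ℚ) = 0 := der_ofNat 108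
  have hD81 : D (81 : PowerSeries ℚ) = 0 := der_ofNat 81
  have hDN : D (N : PowerSeries ℚ) = 0 := der_ofNat N
  have hDN1 : D ((N + 1 : ℕ) : PowerSeries ℚ) = 0 := der_ofNat (N + 1)
  have hDX : D (X : PowerSeries ℚ) = 1 := derivative_X
  have hmul : ∀ f g : PowerSeries ℚ, D (f * g) = f * D g + g * D f := by
    intro f g
    rw [Derivation.leibniz, smul_eq_mul, smul_eq_mul]
  set u : PowerSeries ℚ := 3 * X * ((N : PowerSeries ℚ) ^ 2 + 3 * H) with hu
  have e1 : W1 = u * W := by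
    rw [h1, hu, ← hH]; ring
  have e1' : X * D W1 = (X * D u) * W + u * (H * W) := by
    rw [e1, hmul, hH]; ring
  have hDu : X * D u = 3 * X * ((N : PowerSeries ℚ) ^ 2 + 3 * H) + 9 * X * (X * D H) := by
    rw [hu]
    simp only [hmul, map_add, hD3, hDN, hDX, pow_two]
    ring
  have e2 : W * W2 - W1 ^ 2 = W ^ 2 * Phi N H := by
    rw [h2, e1', e1, hDu, Phi, hu]
    ring
  rw [e2] at hT
  -- apply `θ`
  have hT' := congrArg (fun f => X * D f) hT
  simp only [hmul, hDN, hDN1, pow_two] at hT'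
  have hNe : ((N + 1 : ℕ) : PowerSeries ℚ) ≠ 0 := by
    intro h
    have h3 := congrArg (fun f => PowerSeries.constantCoeff f) h
    simp only [map_natCast, map_zero] at h3
    exact (Nat.cast_ne_zero.mpr (by omega : N + 1 ≠ 0) : ((N + 1 : ℕ) : ℚ) ≠ 0) h3
  have hne : ((N + 1 : ℕ) : PowerSeries ℚ) * W ^ 2 ≠ 0 := mul_ne_zero hNe (pow_ne_zero 2 hW)
  refine mul_left_cancel₀ hne ?_
  have k1 : ((N + 1 : ℕ) : PowerSeries ℚ) * W ^ 2 * (X * D (Phi N H)) +
      ((N + 1 : ℕ) : PowerSeries ℚ) * Phi N H * (2 * W * (X * D W)) =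
      (N : PowerSeries ℚ) * (Wp * (X * D Wm) + Wm * (X * D Wp)) := by
    linear_combination hT'
  rw [← hH, ← hHp, ← hHm] at k1
  have k2 : (N : PowerSeries ℚ) * (Wp * (Hm * Wm) + Wm * (Hp * Wp)) =
      (Hp + Hm) * ((N : PowerSeries ℚ) * (Wp * Wm)) := by ring
  rw [k2, ← hT] at k1
  linear_combination k1

end SST.T
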