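import Pool.Agent.SST.T.Trans

/-!
# SST-T-Sum: disjoint unions of triangulations

PROOF. `(dsum T U).s = Equiv.sumCongr T.s U.s` (`Equiv.Perm.ext`, cases). `SameCycle (sumCongr σ τ) (inl x) (inl y) ↔ SameCycle σ x y` (`((sumCongr σ τ)^i) (inl x) = inl ((σ^i) x)` for integers `i`: `Equiv.Perm.sumCongr_mul`/`map_zpow` of the homomorphism `Equiv.Perm.sumCongrHom`), the same for `inr`, and never between `inl` and `inr`.
So the quotient is the disjoint union of the two quotients: build an `Equiv` (`Quotient.lift` with `Sum.elim`, inverse by `Sum.elim` of two `Quotient.map`/`Quotient.lift`), `Nat.card_sum` (finite types).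
-/

namespace SST.T

/-- disjoint union. -/
def dsum {D D' : Type} (T : Tri D) (U : Tri D') : Tri (D ⊕ D') where
  a := Equiv.sumCongr T.a U.a
  f := Equiv.sumCongr T.f U.f
  aa d := by cases d <;> simp [T.aa, U.aa]
  ane d := by cases d <;> simp [T.ane, U.ane]
  fff d := by cases d <;> simp [T.fff, U.fff]
  fne d := by cases d <;> simp [T.fne, U.fne]

theorem card_V_dsum {D D' : Type} [Finite D] [Finite D'] (T : Tri D) (U : Tri D') :
    Nat.card (dsum T U).V = Nat.card T.V + Nat.card U.V := by
  have hs : (dsum T U).s = Equiv.sumCongr T.s U.s := by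
    ext d
    cases d <;> rfl
  have hz : ∀ i : ℤ, ((dsum T U).s ^ i : Equiv.Perm (D ⊕ D')) =
      Equiv.sumCongr (T.s ^ i) (U.s ^ i) := by
    intro i
    rw [hs]
    exact (map_zpow (Equiv.Perm.sumCongrHom D D') (T.s, U.s) i).symm
  have hll : ∀ x y, (dsum T U).s.SameCycle (Sum.inl x) (Sum.inl y) ↔ T.s.SameCycle x y := by
    intro x y
    constructor
    · rintro ⟨i, hi⟩
      rw [hz] at hi
      exact ⟨i, Sum.inl_injective hi⟩
    · rintro ⟨i, hi⟩
      refine ⟨i, ?_⟩
      rw [hz]
      show Sum.inl ((T.s ^ i) x) = Sum.inl y
      rw [hi]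
  have hrr : ∀ x y, (dsum T U).s.SameCycle (Sum.inr x) (Sum.inr y) ↔ U.s.SameCycle x y := by
    intro x y
    constructor
    · rintro ⟨i, hi⟩
      rw [hz] at hi
      exact ⟨i, Sum.inr_injective hi⟩
    · rintro ⟨i, hi⟩
      refine ⟨i, ?_⟩
      rw [hz]
      show Sum.inr ((U.s ^ i) x) = Sum.inr y
      rw [hi]
  have hlr : ∀ x y, ¬ (dsum T U).s.SameCycle (Sum.inl x) (Sum.inr y) := by
    rintro x y ⟨i, hi⟩
    rw [hz] at hi
    have h2 : (Sum.inl ((T.s ^ i) x) : D ⊕ D') = Sum.inr y := hi
    exact absurd h2 (by simp)
  let g : T.V ⊕ U.V → (dsum T U).V := Sum.elim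
    (Quotient.lift (fun x => (dsum T U).tl (Sum.inl x))
      (fun x y h => Quotient.sound ((hll x y).2 h)))
    (Quotient.lift (fun x => (dsum T U).tl (Sum.inr x))
      (fun x y h => Quotient.sound ((hrr x y).2 h)))
  have hg : Function.Bijective g := by
    constructor
    · rintro (x | x) (y | y) h
      · induction x using Quotient.inductionOn with
        | _ x =>
          induction y using Quotient.inductionOn with
          | _ y =>
            have h2 := Quotient.exact h
            exact congrArg Sum.inl (Quotient.sound ((hll x y).1 h2))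
      · induction x using Quotient.inductionOn with
        | _ x =>
          induction y using Quotient.inductionOn with
          | _ y =>
            have h2 := Quotient.exact h
            exact absurd h2 (hlr x y)
      · induction x using Quotient.inductionOn with
        | _ x =>
          induction y using Quotient.inductionOn with
          | _ y =>
            have h2 := Quotient.exact h
            exact absurd (Equiv.Perm.SameCycle.symm h2) (hlr y x)
      · induction x using Quotient.inductionOn with
        | _ x =>
          induction y using Quotient.inductionOn with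
          | _ y =>
            have h2 := Quotient.exact h
            exact congrArg Sum.inr (Quotient.sound ((hrr x y).1 h2))
    · intro v
      induction v using Quotient.inductionOn with
      | _ d =>
        rcases d with x | x
        · exact ⟨Sum.inl (T.tl x), rfl⟩
        · exact ⟨Sum.inr (U.tl x), rfl⟩
  have f1 : Finite T.V := inferInstanceAs (Finite (Quotient (Equiv.Perm.SameCycle.setoid T.s)))
  have f2 : Finite U.V := inferInstanceAs (Finite (Quotient (Equiv.Perm.SameCycle.setoid U.s)))
  rw [← Nat.card_congr (Equiv.ofBijective g hg), Nat.card_sum]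

end SST.T
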