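import Pool.Agent.SST.T.LoopB
import Pool.Agent.SST.T.Andr
import Pool.Agent.SST.T.Alt1
import Pool.Agent.SST.T.Dodg
import Pool.Agent.SST.T.BHt

/-!
# SST-T-Toda: the Toda equation and the two loop equations for `W_N = B ht N 1`

PROOF. Write `det00 h N = (hk h (e0 N) (e0 N)).det`, `det10`, `det01`, `det11` (exponents `e1`). `vd N ^ 2 = alt (e0 N) * alt (e0 N)` (`alt_e0`), so by `ev_alt`, `p1_alt`:
`B h N 1 = N! det00`, `B h N (psum 1) = N! det10 = N! det01` (write `vd^2 * psum 1` as `alt e1 * alt e0` resp. `alt e0 * alt e1`), `B h N (psum 1 * psum 1) = N! det11` for `N ≥ 1`.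
(a) `B0_ne`: `det00 mom N ≠ 0` for all `N`, by induction in steps of two (`Nat.twoStepInduction`): `N = 0`: empty determinant `1`; `N = 1`: `mom 0 = 1`. `N = M + 2`: `dodgson mom M` (`det00 mom M ≠ 0`, a unit of `ℚ`), `B_p1 mom_IBP` with `c = 0`: `B mom (M+1) (psum 1) = 0` (`Dm 1 = 0`), so `det10 = 0`;
`B mom (M+1) (psum 1 * psum 1) = B (Dm 0 (psum 1)) = (M+1) B mom (M+1) 1` (`Dm_psum`, `B_p0` with `Q = 1`), so `det11 = (M+1) det00 (M+1)`, and `det00 (M+2) * det00 M = (M+1) det00 (M+1)^2 ≠ 0`.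
(b) `det00 ht N` is a unit of the ring of power series: its constant coefficient is `det00 mom N` (`RingHom.map_det`, `ht_const`; or through `const_B` and `N! det00`), `PowerSeries.isUnit_iff_constantCoeff`.
(c) `toda`: `dodgson ht (N - 1)` (write `N = M + 1`): `det00 N det11 N - det10 N det01 N = det00 (N+1) det00 (N-1)`; multiply by `(N+1) (N!)^2 = N (N+1)! (N-1)! ` ... precisely `(N+1) * N! * N! = N * (N+1)! * (N-1)! `.
(d) `eq1`: `B_p1 ht_IBP` with `Q = 1`: `B (psum 1) = 3 X B (psum 2)`; `B_p2` with `m = 0`, `Q = 1`: `B (psum 2) = B (psum 0 * psum 0 * 1) + B (Dm 1 1) + 3 X B (psum 3) = N^2 B 1 + 3 X derivative (B 1)` (`B_p0` twice, `der_B` with `Q = 1`).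
(e) `eq2`: `B_p1` with `Q = psum 1`: `B (psum 1 * psum 1) = B (Dm 0 (psum 1)) + 3 X B (psum 2 * psum 1)`, `Dm_psum`: `Dm 0 (psum 1) = psum 0`; `B_p2` with `m = 0`, `Q = psum 1`: `B (psum 2 * psum 1) = N^2 B (psum 1) + B (Dm 1 (psum 1)) + 3 X B (psum 3 * psum 1)`, `Dm 1 (psum 1) = psum 1`, `der_B` with `Q = psum 1`.
-/

namespace SST.T

open MvPolynomial

private theorem B1_det {R : Type*} [CommRing R] [Algebra ℚ R] (h : ℕ → R) (N : ℕ) :
    B h N 1 = (N.factorial : R) * (hk h (e0 N) (e0 N)).det := by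
  rw [B_apply, mul_one, pow_two, ← alt_e0, ev_alt]

private theorem Bp_det {R : Type*} [CommRing R] [Algebra ℚ R] (h : ℕ → R) (N : ℕ) (hN : 1 ≤ N) :
    B h N (psum (Fin N) ℚ 1) = (N.factorial : R) * (hk h (e1 N) (e0 N)).det := by
  have h1 : vd N ^ 2 * psum (Fin N) ℚ 1 = alt (e1 N) * alt (e0 N) := by
    rw [← p1_alt N hN, alt_e0]; ring
  rw [B_apply, h1, ev_alt]

private theorem Bp_det' {R : Type*} [CommRing R] [Algebra ℚ R] (h : ℕ → R) (N : ℕ) (hN : 1 ≤ N) :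
    B h N (psum (Fin N) ℚ 1) = (N.factorial : R) * (hk h (e0 N) (e1 N)).det := by
  have h1 : vd N ^ 2 * psum (Fin N) ℚ 1 = alt (e0 N) * alt (e1 N) := by
    rw [← p1_alt N hN, alt_e0]; ring
  rw [B_apply, h1, ev_alt]

private theorem Bpp_det {R : Type*} [CommRing R] [Algebra ℚ R] (h : ℕ → R) (N : ℕ) (hN : 1 ≤ N) :
    B h N (psum (Fin N) ℚ 1 * psum (Fin N) ℚ 1) =
      (N.factorial : R) * (hk h (e1 N) (e1 N)).det := by
  have h1 : vd N ^ 2 * (psum (Fin N) ℚ 1 * psum (Fin N) ℚ 1) = alt (e1 N) * alt (e1 N) := by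
    rw [← p1_alt N hN, alt_e0]; ring
  rw [B_apply, h1, ev_alt]

private theorem Dm0_p1 (N : ℕ) : Dm N 0 (psum (Fin N) ℚ 1) = psum (Fin N) ℚ 0 := by
  rw [Dm_psum]
  simp

private theorem Dm1_p1 (N : ℕ) : Dm N (0 + 1) (psum (Fin N) ℚ 1) = psum (Fin N) ℚ 1 := by
  rw [Dm_psum]
  simp

private theorem det00_ne (N : ℕ) : (hk mom (e0 N) (e0 N)).det ≠ 0 := by
  induction N using Nat.twoStepInduction with
  | zero => rw [Matrix.det_isEmpty]; exact one_ne_zero
  | one =>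
    rw [Matrix.det_unique]
    simp [hk, e0, mom]
  | more M h0 h1 =>
    have hd := dodgson mom M (isUnit_iff_ne_zero.mpr h0)
    have hf : (((M + 1).factorial : ℕ) : ℚ) ≠ 0 := by exact_mod_cast (M + 1).factorial_ne_zero
    have h10 : (hk mom (e1 (M + 1)) (e0 (M + 1))).det = 0 := by
      have e := Bp_det mom (M + 1) (by omega)
      have h2 := B_p1 mom_IBP (M + 1) 1
      rw [mul_one, Derivation.map_one_eq_zero, map_zero, zero_mul, add_zero] at h2
      rw [h2] at e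
      exact (mul_eq_zero.mp e.symm).resolve_left hf
    have h11 : (hk mom (e1 (M + 1)) (e1 (M + 1))).det =
        ((M + 1 : ℕ) : ℚ) * (hk mom (e0 (M + 1)) (e0 (M + 1))).det := by
      have e := Bpp_det mom (M + 1) (by omega)
      have h2 := B_p1 mom_IBP (M + 1) (psum (Fin (M + 1)) ℚ 1)
      have h3 := B_p0 mom (M + 1) 1
      rw [mul_one] at h3
      rw [Dm0_p1, zero_mul, add_zero, h3, B1_det, e] at h2
      have h4 : (((M + 1).factorial : ℕ) : ℚ) * (hk mom (e1 (M + 1)) (e1 (M + 1))).det =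
          (((M + 1).factorial : ℕ) : ℚ) *
            (((M + 1 : ℕ) : ℚ) * (hk mom (e0 (M + 1)) (e0 (M + 1))).det) := by
        rw [h2]; ring
      exact mul_left_cancel₀ hf h4
    rw [h10, zero_mul, sub_zero, h11] at hd
    intro h
    rw [h, zero_mul] at hd
    have hm : ((M + 1 : ℕ) : ℚ) ≠ 0 := by exact_mod_cast Nat.succ_ne_zero M
    exact (mul_ne_zero h1 (mul_ne_zero hm h1)) hd.symm

private theorem det00_unit (N : ℕ) : IsUnit (hk ht (e0 N) (e0 N)).det := by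
  rw [PowerSeries.isUnit_iff_constantCoeff, RingHom.map_det]
  have h1 : (PowerSeries.constantCoeff (R := ℚ)).mapMatrix (hk ht (e0 N) (e0 N)) =
      hk mom (e0 N) (e0 N) := by
    ext i j
    simp only [RingHom.mapMatrix_apply, Matrix.map_apply, hk, Matrix.of_apply]
    exact ht_const _
  rw [h1]
  exact isUnit_iff_ne_zero.mpr (det00_ne N)

theorem B0_ne (N : ℕ) : B mom N 1 ≠ 0 := by
  rw [B1_det]
  exact mul_ne_zero (by exact_mod_cast N.factorial_ne_zero) (det00_ne N)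

theorem toda (N : ℕ) (hN : 1 ≤ N) :
    ((N + 1 : ℕ) : PowerSeries ℚ) *
      (B ht N 1 * B ht N (psum (Fin N) ℚ 1 * psum (Fin N) ℚ 1) - B ht N (psum (Fin N) ℚ 1) ^ 2) =
    (N : PowerSeries ℚ) * (B ht (N + 1) 1 * B ht (N - 1) 1) := by
  obtain ⟨M, rfl⟩ : ∃ M, N = M + 1 := ⟨N - 1, by omega⟩
  have hd := dodgson ht M (det00_unit M)
  have e1 : B ht (M + 1) (psum (Fin (M + 1)) ℚ 1) ^ 2 =
      (((M + 1).factorial : ℕ) : PowerSeries ℚ) ^ 2 *
        ((hk ht (SST.T.e1 (M + 1)) (e0 (M + 1))).det *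
          (hk ht (e0 (M + 1)) (SST.T.e1 (M + 1))).det) := by
    rw [pow_two]
    nth_rewrite 1 [Bp_det ht (M + 1) hN]
    rw [Bp_det' ht (M + 1) hN]
    ring
  rw [Nat.add_sub_cancel, e1, B1_det, B1_det, B1_det, Bpp_det _ _ hN]
  have f2 : (((M + 1 + 1).factorial : ℕ) : PowerSeries ℚ) =
      ((M + 1 + 1 : ℕ) : PowerSeries ℚ) * (((M + 1).factorial : ℕ) : PowerSeries ℚ) := by
    rw [Nat.factorial_succ (M + 1)]; push_cast; ring
  have f1 : (((M + 1).factorial : ℕ) : PowerSeries ℚ) =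
      ((M + 1 : ℕ) : PowerSeries ℚ) * ((M.factorial : ℕ) : PowerSeries ℚ) := by
    rw [Nat.factorial_succ M]; push_cast; ring
  rw [f2]
  linear_combination (-((M + 1 + 1 : ℕ) : PowerSeries ℚ) * (((M + 1).factorial : ℕ) : PowerSeries ℚ) ^ 2) * hd +
    (((M + 1 + 1 : ℕ) : PowerSeries ℚ) * (((M + 1).factorial : ℕ) : PowerSeries ℚ) *
      (hk ht (e0 (M + 2)) (e0 (M + 2))).det * (hk ht (e0 M) (e0 M)).det) * f1

theorem eq1 (N : ℕ) : B ht N (psum (Fin N) ℚ 1) =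
    3 * PowerSeries.X * ((N : PowerSeries ℚ) ^ 2 * B ht N 1 +
      3 * (PowerSeries.X * PowerSeries.derivative ℚ (B ht N 1))) := by
  have h1 := B_p1 ht_IBP N 1
  have h2 := B_p2 ht_IBP N 0 1
  have h3 := B_p0 ht N (psum (Fin N) ℚ 0)
  have h4 := B_p0 ht N 1
  have h5 := der_B N 1
  simp only [zero_add, mul_one, Derivation.map_one_eq_zero, map_zero, Finset.range_one,
    Finset.sum_singleton, Nat.sub_zero, add_zero] at h1 h2 h4 h5
  rw [h1, h2, h3, h4, h5]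
  ring

theorem eq2 (N : ℕ) : B ht N (psum (Fin N) ℚ 1 * psum (Fin N) ℚ 1) =
    (N : PowerSeries ℚ) * B ht N 1 + 3 * PowerSeries.X * (((N : PowerSeries ℚ) ^ 2 + 1) * B ht N (psum (Fin N) ℚ 1) +
      3 * (PowerSeries.X * PowerSeries.derivative ℚ (B ht N (psum (Fin N) ℚ 1)))) := by
  have h1 := B_p1 ht_IBP N (psum (Fin N) ℚ 1)
  have h2 := B_p2 ht_IBP N 0 (psum (Fin N) ℚ 1)
  have h3 := B_p0 ht N (psum (Fin N) ℚ 0 * psum (Fin N) ℚ 1)
  have h4 := B_p0 ht N (psum (Fin N) ℚ 1)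
  have h4' := B_p0 ht N 1
  have h5 := der_B N (psum (Fin N) ℚ 1)
  rw [Dm0_p1] at h1
  rw [Dm1_p1] at h2
  simp only [zero_add, mul_one, Finset.range_one,
    Finset.sum_singleton, Nat.sub_zero] at h1 h2 h4'
  rw [← mul_assoc] at h3
  rw [h1, h2, h3, h4, h4', h5]
  ring

end SST.T
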