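import Pool.Agent.SST.T.Wick

/-!
# SST-T-Trace: `W (tr(H^3)^b)` as a sum over matchings

PROOF. `tr (H^3) = ∑ c : Fin 3 → Fin N, ∏ j, X (c j, c (finRotate 3 j))` (`Matrix.trace`, `pow_succ`, `Matrix.mul_apply`; the sum over functions on `Fin 3`: `Fintype.sum_pow`-free, e.g. `Fin.consEquiv`/`finThreeArrow..` or `Fintype.sum_equiv` with `(Fin 3 → Fin N) ≃ Fin N × Fin N × Fin N`; `finRotate 3 0 = 1` etc. by `decide`/`rfl`, `Fin.prod_univ_three`).
`(tr (H^3))^b = ∏ i : Fin b, ∑ c_i = ∑ c : Fin b → Fin 3 → Fin N, ∏ i, ∏ j, X (c i j, c i (finRotate 3 j))` (`Finset.prod_const`, `Finset.prod_univ_sum`, `Fintype.piFinset_univ`) `= ∑ c : Fin b × Fin 3 → Fin N, ∏ d, X (c d, c (phi b d))` (`Fintype.sum_equiv (Equiv.curry ..)`, `Fintype.prod_prod_type`).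
`wick` with `A = c`, `B = c ∘ phi b`, `S = univ`: `W = ∑ c, ∑ α ∈ Inv univ, ∏ x, [c x = c (phi b (α x))]`. Exchange the sums: for given `α` and `σ = phi b * α` the number of `c` with `c x = c (σ x)` for all `x` is `N ^ cyc σ`: these `c` are the functions constant on the classes of `SameCycle σ`
(`c x = c ((σ ^ k) x)` for integers `k` by induction), so they correspond to functions `Quotient (SameCycle.setoid σ) → Fin N` (`Quotient.lift`), `Nat.card_fun`/`Fintype.card_fun`.
-/

namespace SST.T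

open MvPolynomial

private theorem Trace_const {D : Type*} {N : ℕ} {σ : Equiv.Perm D} {c : D → Fin N}
    (h : ∀ x, c x = c (σ x)) {u v : D} (huv : σ.SameCycle u v) : c u = c v := by
  have hnat : ∀ (n : ℕ) (u : D), c u = c ((σ ^ n) u) := by
    intro n
    induction n with
    | zero => intro u; rfl
    | succ n ih =>
      intro u
      rw [pow_succ', Equiv.Perm.mul_apply, ← h]
      exact ih u
  obtain ⟨n, hn⟩ := huv
  rcases Int.eq_nat_or_neg n with ⟨m, rfl | rfl⟩
  · rw [zpow_natCast] at hn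
    rw [← hn]
    exact hnat m u
  · have h1 : u = (σ ^ m) v := by
      rw [zpow_neg, zpow_natCast, Equiv.Perm.inv_eq_iff_eq] at hn
      exact hn
    rw [h1]
    exact (hnat m v).symm

private theorem Trace_count {D : Type*} [Fintype D] [DecidableEq D] (N : ℕ) (σ : Equiv.Perm D) :
    ∑ c : D → Fin N, ∏ x, (if c x = c (σ x) then (1 : ℚ) else 0) = (N : ℚ) ^ cyc σ := by
  classical
  have h1 : ∀ c : D → Fin N, ∏ x, (if c x = c (σ x) then (1 : ℚ) else 0) =
      if ∀ x, c x = c (σ x) then (1 : ℚ) else 0 := by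
    intro c
    by_cases h : ∀ x, c x = c (σ x)
    · rw [if_pos h]
      exact Finset.prod_eq_one fun x _ => if_pos (h x)
    · rw [if_neg h]
      obtain ⟨x, hx⟩ := not_forall.1 h
      exact Finset.prod_eq_zero (Finset.mem_univ x) (if_neg hx)
  rw [Finset.sum_congr rfl fun c _ => h1 c, Finset.sum_boole]
  have h2 : (Finset.univ.filter fun c : D → Fin N => ∀ x, c x = c (σ x)).card =
      Nat.card {c : D → Fin N // ∀ x, c x = c (σ x)} := by
    rw [Nat.card_eq_fintype_card, Fintype.card_subtype]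
  let e : {c : D → Fin N // ∀ x, c x = c (σ x)} ≃
      (Quotient (Equiv.Perm.SameCycle.setoid σ) → Fin N) :=
    { toFun := fun c => Quotient.lift c.1 fun _ _ h => Trace_const c.2 h
      invFun := fun g => ⟨fun x => g (Quotient.mk _ x), fun x =>
        congrArg g (Quotient.sound ⟨1, by rw [zpow_one]⟩)⟩
      left_inv := fun c => Subtype.ext (funext fun _ => rfl)
      right_inv := fun g => by
        funext q
        induction q using Quotient.inductionOn with
        | h a => rfl }
  rw [h2, Nat.card_congr e, Nat.card_fun, Nat.card_eq_fintype_card, Fintype.card_fin]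
  rw [Nat.cast_pow]
  rfl

private theorem Trace_cube (N : ℕ) :
    ((HH N) ^ 3).trace = ∑ c : Fin 3 → Fin N, ∏ j, X (c j, c (finRotate 3 j)) := by
  let e : (Fin 3 → Fin N) ≃ Fin N × Fin N × Fin N :=
    { toFun := fun c => (c 0, c 1, c 2)
      invFun := fun t => ![t.1, t.2.1, t.2.2]
      left_inv := fun c => by
        funext i
        fin_cases i <;> rfl
      right_inv := fun t => rfl }
  have h1 : ∑ c : Fin 3 → Fin N, ∏ j, (X (c j, c (finRotate 3 j)) : MvPolynomial (Fin N × Fin N) ℚ) =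
      ∑ t : Fin N × Fin N × Fin N, X (t.1, t.2.1) * X (t.2.1, t.2.2) * X (t.2.2, t.1) := by
    refine Fintype.sum_equiv e _ _ fun c => ?_
    rw [Fin.prod_univ_three]
    have r0 : finRotate 3 0 = 1 := by decide
    have r1 : finRotate 3 1 = 2 := by decide
    have r2 : finRotate 3 2 = 0 := by decide
    rw [r0, r1, r2]
    rfl
  rw [h1, Fintype.sum_prod_type]
  unfold Matrix.trace
  refine Finset.sum_congr rfl fun i _ => ?_
  rw [Fintype.sum_prod_type, Matrix.diag_apply, pow_succ, pow_two, Matrix.mul_apply, Finset.sum_comm]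
  refine Finset.sum_congr rfl fun k _ => ?_
  rw [Matrix.mul_apply, Finset.sum_mul]
  rfl

theorem W_trace (N b : ℕ) :
    W N (((HH N) ^ 3).trace ^ b) =
      ∑ α ∈ Inv (Finset.univ : Finset (Fin b × Fin 3)), (N : ℚ) ^ cyc (phi b * α) := by
  have h1 : ((HH N) ^ 3).trace ^ b =
      ∑ c : Fin b × Fin 3 → Fin N, ∏ d, X (c d, c (phi b d)) := by
    rw [Trace_cube, Fintype.sum_pow]
    refine (Fintype.sum_equiv (Equiv.curry (Fin b) (Fin 3) (Fin N)) _ _ fun c => ?_).symm
    rw [Fintype.prod_prod_type]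
    rfl
  rw [h1, map_sum]
  have h2 : ∀ c : Fin b × Fin 3 → Fin N, W N (∏ d, X (c d, c (phi b d))) =
      ∑ α ∈ Inv (Finset.univ : Finset (Fin b × Fin 3)),
        ∏ x, (if c x = c ((phi b * α) x) then (1 : ℚ) else 0) := fun c =>
    wick N c (fun x => c (phi b x)) Finset.univ
  rw [Finset.sum_congr rfl fun c _ => h2 c, Finset.sum_comm]
  exact Finset.sum_congr rfl fun α _ => Trace_count N (phi b * α)

end SST.T
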