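import Pool.Agent.SST.T.Defs

/-!
# SST-T-Trans: transport of triangulations along bijections of the dart sets

PROOF. `transEquiv e : Tri D ≃ Tri D'`: `left_inv`, `right_inv` by `Tri.ext'` and `Equiv.ext`. `card_V_trans`: `(e.trans T).s = e.symm.trans (T.s.trans e)` (`Equiv.Perm.mul_def`/ext), and `SameCycle` is transported by `e`: `((e σ e⁻¹)^i) (e x) = e ((σ^i) x)` (`zpow`, e.g. through `Equiv.permCongr`/`MulEquiv` `map_zpow`), so `Quotient.congr e` is a bijection; `Nat.card_congr`.
`conn_trans`: preimages / images of closed sets. `tot_congr`, `con_congr`: `finsum_comp_equiv` (`finsum_comp_equiv : (∑ᶠ i, f (e i)) = ∑ᶠ i', f i'`), for `con` with `Equiv.subtypeEquiv`.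
-/

namespace SST.T

/-- transport of a gluing. -/
def trans {D D' : Type} (e : D ≃ D') (T : Tri D) : Tri D' where
  a := e.symm.trans (T.a.trans e)
  f := e.symm.trans (T.f.trans e)
  aa d := by simp [T.aa]
  ane d := by
    intro h
    apply T.ane (e.symm d)
    apply e.injective
    simpa using h
  fff d := by simp [T.fff]
  fne d := by
    intro h
    apply T.fne (e.symm d)
    apply e.injective
    simpa using h

/-- transport as a bijection. -/
def transEquiv {D D' : Type} (e : D ≃ D') : Tri D ≃ Tri D' where
  toFun := trans e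
  invFun := trans e.symm
  left_inv T := by
    apply Tri.ext' <;> (ext d; simp [trans])
  right_inv T := by
    apply Tri.ext' <;> (ext d; simp [trans])

private theorem s_trans {D D' : Type} (e : D ≃ D') (T : Tri D) :
    (trans e T).s = e.permCongrHom T.s := by
  ext d
  simp [Tri.s, trans, Equiv.permCongr_apply]

private theorem sameCycle_trans {D D' : Type} (e : D ≃ D') (T : Tri D) (x y : D) :
    T.s.SameCycle x y ↔ (trans e T).s.SameCycle (e x) (e y) := by
  rw [s_trans]
  have h : ∀ i : ℤ, ((e.permCongrHom T.s) ^ i) (e x) = e ((T.s ^ i) x) := by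
    intro i
    rw [← map_zpow, Equiv.permCongrHom_coe, Equiv.permCongr_apply, Equiv.symm_apply_apply]
  constructor
  · rintro ⟨i, hi⟩
    exact ⟨i, by rw [h, hi]⟩
  · rintro ⟨i, hi⟩
    rw [h] at hi
    exact ⟨i, e.injective hi⟩

theorem card_V_trans {D D' : Type} (e : D ≃ D') (T : Tri D) :
    Nat.card (trans e T).V = Nat.card T.V := by
  symm
  refine Nat.card_congr (Quotient.congr e ?_)
  intro x y
  exact sameCycle_trans e T x y

private theorem conn_aux {D D' : Type} (e : D ≃ D') (T : Tri D) (h : T.Conn) :
    (trans e T).Conn := by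
  intro S hS hcl
  have h1 : e ⁻¹' S = Set.univ := by
    refine h (e ⁻¹' S) ?_ ?_
    · obtain ⟨y, hy⟩ := hS
      exact ⟨e.symm y, by simpa using hy⟩
    · intro d hd
      have := hcl (e d) hd
      simp only [trans, Equiv.trans_apply, Equiv.symm_apply_apply] at this
      exact this
  ext y
  constructor
  · intro _; trivial
  · intro _
    have : e.symm y ∈ e ⁻¹' S := by rw [h1]; trivial
    simpa using this

theorem conn_trans {D D' : Type} (e : D ≃ D') (T : Tri D) : (trans e T).Conn ↔ T.Conn := by
  constructor
  · intro h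
    have h1 := conn_aux e.symm (trans e T) h
    have h2 : trans e.symm (trans e T) = T := (transEquiv e).left_inv T
    rwa [h2] at h1
  · exact conn_aux e T

theorem tot_congr {D D' : Type} [Finite D] [Finite D'] (e : D ≃ D') (x : ℚ) :
    tot D x = tot D' x := by
  unfold tot
  rw [← finsum_comp_equiv (transEquiv e)]
  refine finsum_congr (fun T => ?_)
  show x ^ Nat.card T.V = x ^ Nat.card (trans e T).V
  rw [card_V_trans]

theorem con_congr {D D' : Type} [Finite D] [Finite D'] (e : D ≃ D') (x : ℚ) :
    con D x = con D' x := by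
  unfold con
  rw [← finsum_comp_equiv ((transEquiv e).subtypeEquiv (p := fun T : Tri D => T.Conn)
    (q := fun T : Tri D' => T.Conn) (fun T => (conn_trans e T).symm))]
  refine finsum_congr (fun T => ?_)
  show x ^ Nat.card T.1.V = x ^ Nat.card (trans e T.1).V
  rw [card_V_trans]

end SST.T
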