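import Pool.Agent.SST.T.Defs

/-!
# SST-T-Uniq: the loop equations have a unique solution

PROOF. Weight of a monomial `a : ℕ →₀ ℕ`: `wt a = a.sum (fun l c => l * c)`; a polynomial `Q : Lam` has weight `≤ w` if all monomials in its support have weight `≤ w`. Let `G = F - F'` (linear, satisfies `Loop N G`, `G 1 = 0`). Claim: `G Q = 0` for all `Q` of weight `≤ w`, by strong induction on `w`
(`MvPolynomial.weightedTotalDegree`/`IsWeightedHomogeneous` may be used; or define the submodule spanned by the monomials of weight `≤ w`: `Sub w = Submodule.span ℚ {monomial a 1 | wt a ≤ w}`).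
For a monomial `M = monomial a 1`: if some `l = m + 1 ≥ 1` has `a l ≥ 1`, `M = X l * Q`, `wt Q = wt M - (m+1)`, and the loop equation expresses `G M` by `G` of polynomials of weight `≤ wt M - 2` (for `m ≥ 1`: `X a * X (m-1-a) * Q` has weight `wt M - 2`) and `DL m Q`, of weight `≤ wt Q + m - 1 = wt M - 2`
(`DL m` replaces one `X l` with `l ≥ 1` by `l X (l - 1 + m)`, and kills `X 0`: on a monomial `b`: `DL m (monomial b 1) = ∑ l ∈ b.support, b l * l * monomial (b - single l 1 + single (l-1+m) 1) 1`, `MvPolynomial.mkDerivation_monomial`; or show by `MvPolynomial.induction_on`-type argument / `Submodule.span_induction` that `DL m` maps `Sub w` to `Sub (w + m - 1)`);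
if `m = 0` and `wt Q = 0` then `Q` is a power of `X 0` and `DL 0 Q = 0`. If no `l ≥ 1` occurs, `M = X 0 ^ k` and `G M = N^k G 1 = 0`.
-/

namespace SST.T

open MvPolynomial

private noncomputable def wt (a : ℕ →₀ ℕ) : ℕ := a.sum fun l c => l * c

private theorem wt_add (a b : ℕ →₀ ℕ) : wt (a + b) = wt a + wt b := by
  unfold wt
  exact Finsupp.sum_add_index' (fun l => by simp) (fun l c d => by ring)

private theorem wt_single (l c : ℕ) : wt (Finsupp.single l c) = l * c := by
  unfold wt
  exact Finsupp.sum_single_index (by simp)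

private theorem X_mul_mon (l : ℕ) (b : ℕ →₀ ℕ) :
    (X l : Lam) * monomial b 1 = monomial (b + Finsupp.single l 1) 1 := by
  rw [X, monomial_mul, one_mul, add_comm]

private theorem G_DL (G : Lam →ₗ[ℚ] ℚ) (v : ℕ)
    (hv : ∀ a, wt a < v → G (monomial a 1) = 0) (m : ℕ) (b : ℕ →₀ ℕ) (hb : wt b + m ≤ v) :
    G (DL m (monomial b 1)) = 0 := by
  unfold DL
  rw [mkDerivation_monomial, one_smul, Finsupp.sum, map_sum]
  apply Finset.sum_eq_zero
  intro l hl
  have h1 : (monomial (b - Finsupp.single l 1) ((b l : ℕ) : ℚ) : Lam) •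
      ((l : ℚ) • (X (l - 1 + m) : Lam)) = ((b l : ℚ) * l) •
        monomial (b - Finsupp.single l 1 + Finsupp.single (l - 1 + m) 1) (1 : ℚ) := by
    rw [smul_eq_mul, X, smul_monomial, monomial_mul, smul_monomial, smul_eq_mul, smul_eq_mul,
      mul_one, mul_one]
  rw [h1, map_smul]
  rcases Nat.eq_zero_or_pos l with h0 | h0
  · rw [h0]
    simp
  · rw [hv, smul_zero]
    have h2 : b - Finsupp.single l 1 + Finsupp.single l 1 = b := by
      apply tsub_add_cancel_of_le
      rw [Finsupp.single_le_iff]
      exact Nat.one_le_iff_ne_zero.2 (Finsupp.mem_support_iff.1 hl)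
    have h3 : wt (b - Finsupp.single l 1) + l = wt b := by
      conv_rhs => rw [← h2]
      rw [wt_add, wt_single, mul_one]
    rw [wt_add, wt_single, mul_one]
    omega

private theorem G_mon (N : ℕ) (G : Lam →ₗ[ℚ] ℚ) (h : Loop N G) (h1 : G 1 = 0) :
    ∀ v, ∀ a, wt a = v → G (monomial a 1) = 0 := by
  intro v
  induction v using Nat.strong_induction_on with
  | _ v ih =>
    intro a ha
    have hv : ∀ b, wt b < v → G (monomial b 1) = 0 := fun b hb => ih _ hb b rfl
    by_cases hex : ∃ l ∈ a.support, l ≠ 0
    · obtain ⟨l, hl, hl0⟩ := hex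
      obtain ⟨b, hb⟩ : ∃ b : ℕ →₀ ℕ, a = b + Finsupp.single l 1 := by
        refine ⟨a - Finsupp.single l 1, ?_⟩
        symm
        apply tsub_add_cancel_of_le
        rw [Finsupp.single_le_iff]
        exact Nat.one_le_iff_ne_zero.2 (Finsupp.mem_support_iff.1 hl)
      have hw : wt b + l = v := by
        rw [← ha, hb, wt_add, wt_single, mul_one]
      rw [hb, ← X_mul_mon]
      rcases l with _ | _ | m
      · exact absurd rfl hl0
      · have h2 := h.2.1 (monomial b 1)
        have h3 := G_DL G v hv 0 b (by omega)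
        rw [h3] at h2
        exact h2
      · have h2 := h.2.2 m (monomial b 1)
        rw [G_DL G v hv (m + 1) b (by omega), add_zero] at h2
        refine h2.trans ?_
        apply Finset.sum_eq_zero
        intro i hi
        rw [mul_assoc, X_mul_mon, X_mul_mon]
        apply hv
        rw [wt_add, wt_add, wt_single, wt_single]
        rw [Finset.mem_range] at hi
        omega
    · have ha0 : a = Finsupp.single 0 (a 0) := by
        ext l
        rcases Nat.eq_zero_or_pos l with h0 | h0
        · rw [h0, Finsupp.single_eq_same]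
        · rw [Finsupp.single_eq_of_ne (by omega)]
          by_contra h2
          exact hex ⟨l, Finsupp.mem_support_iff.2 h2, by omega⟩
      rw [ha0]
      generalize a 0 = k
      induction k with
      | zero =>
        rw [Finsupp.single_zero]
        exact h1
      | succ k ihk =>
        have h2 : (monomial (Finsupp.single 0 (k + 1)) 1 : Lam) =
            X 0 * monomial (Finsupp.single 0 k) 1 := by
          rw [X_mul_mon, ← Finsupp.single_add]
        rw [h2, h.1, ihk, mul_zero]

theorem loop_unique {N : ℕ} {F F' : Lam →ₗ[ℚ] ℚ} (h : Loop N F) (h' : Loop N F')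
    (h1 : F 1 = F' 1) : F = F' := by
  have hG : Loop N (F - F') := by
    refine ⟨?_, ?_, ?_⟩
    · intro Q
      rw [LinearMap.sub_apply, LinearMap.sub_apply, h.1, h'.1]
      ring
    · intro Q
      rw [LinearMap.sub_apply, LinearMap.sub_apply, h.2.1, h'.2.1]
    · intro m Q
      rw [LinearMap.sub_apply, LinearMap.sub_apply, h.2.2, h'.2.2]
      simp only [LinearMap.sub_apply]
      rw [Finset.sum_sub_distrib]
      ring
  have hG1 : (F - F') 1 = 0 := by
    rw [LinearMap.sub_apply, h1, sub_self]
  apply (MvPolynomial.basisMonomials ℕ ℚ).ext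
  intro a
  rw [MvPolynomial.coe_basisMonomials]
  have h2 := G_mon N (F - F') hG hG1 _ a rfl
  rw [LinearMap.sub_apply, sub_eq_zero] at h2
  exact h2

end SST.T
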