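import Pool.Agent.SST.T.LoopB
import Pool.Agent.SST.T.Ht
import Pool.Agent.SST.T.LoopW
import Pool.Agent.SST.T.Uniq

/-!
# SST-T-WB: the matrix functional and the eigenvalue functional agree on power sums
-/

namespace SST.T

open MvPolynomial

/-- `Q ↦ Q(p_0, p_1, ..)`. -/
noncomputable def aP (N : ℕ) : Lam →ₐ[ℚ] MvPolynomial (Fin N) ℚ :=
  aeval (fun l => psum (Fin N) ℚ l)

theorem aP_X (N l : ℕ) : aP N (X l) = psum (Fin N) ℚ l := by
  simp [aP]

theorem Dm_aP (N m : ℕ) (Q : Lam) : Dm N m (aP N Q) = aP N (DL m Q) := by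
  induction Q using MvPolynomial.induction_on with
  | C a =>
    have h1 : (C a : Lam) = algebraMap ℚ Lam a := rfl
    rw [h1, AlgHom.commutes, Derivation.map_algebraMap, Derivation.map_algebraMap, map_zero]
  | add p q hp hq => rw [map_add, map_add, map_add, map_add, hp, hq]
  | mul_X p l hp =>
    rw [map_mul, aP_X, Derivation.leibniz, Derivation.leibniz, hp, Dm_psum]
    have h2 : DL m (X l) = (l : ℚ) • (X (l - 1 + m) : Lam) := by
      rw [DL, mkDerivation_X]
    rw [h2]
    simp only [smul_eq_mul, map_add, map_mul, map_smul, aP_X]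

theorem FW_one (N : ℕ) : FW N 1 = 1 := by
  simp [FW, W_one]

theorem loop_B (N : ℕ) : Loop N ((B mom N).comp (aP N).toLinearMap) := by
  refine ⟨?_, ?_, ?_⟩
  · intro Q
    simp only [LinearMap.comp_apply, AlgHom.toLinearMap_apply, map_mul, aP_X]
    exact B_p0 mom N _
  · intro Q
    simp only [LinearMap.comp_apply, AlgHom.toLinearMap_apply, map_mul, aP_X]
    rw [B_p1 mom_IBP, zero_mul, add_zero, Dm_aP]
  · intro m Q
    simp only [LinearMap.comp_apply, AlgHom.toLinearMap_apply, map_mul, aP_X]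
    rw [B_p2 mom_IBP, zero_mul, add_zero, Dm_aP]

theorem W_eq_B (N : ℕ) (P : Lam) :
    B mom N 1 * FW N P =
      B mom N ((aeval (fun l => psum (Fin N) ℚ l) : Lam →ₐ[ℚ] MvPolynomial (Fin N) ℚ) P) := by
  have h1 : Loop N (B mom N 1 • FW N) := by
    obtain ⟨a, b, c⟩ := loop_W N
    refine ⟨?_, ?_, ?_⟩
    · intro Q
      simp only [LinearMap.smul_apply, smul_eq_mul]
      rw [a]; ring
    · intro Q
      simp only [LinearMap.smul_apply, smul_eq_mul]
      rw [b]
    · intro m Q
      simp only [LinearMap.smul_apply, smul_eq_mul]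
      rw [c, mul_add, Finset.mul_sum]
  have h2 := loop_unique h1 (loop_B N) (by
    simp only [LinearMap.smul_apply, smul_eq_mul, FW_one, mul_one, LinearMap.comp_apply,
      AlgHom.toLinearMap_apply, map_one])
  have h3 := congrArg (fun F : Lam →ₗ[ℚ] ℚ => F P) h2
  exact h3

theorem W_tr3 (N b : ℕ) :
    B mom N 1 * W N (((HH N) ^ 3).trace ^ b) = B mom N (psum (Fin N) ℚ 3 ^ b) := by
  have := W_eq_B N ((X 3 : Lam) ^ b)
  simpa [FW] using this

end SST.T
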