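import Pool.Agent.SST.T.Defs

/-!
# SST-T-WIbp: integration by parts for the Gaussian matrix functional

PROOF. Linear in `F`: take `F = monomial n c` (`MvPolynomial.induction_on'`). Let `wt n` be the value of `W` on `monomial n 1` (product over the diagonal of `mom (n (i,i))` times the product over `i < j` of `if n (i,j) = n (j,i) then (n (i,j))! else 0`); `W (monomial n c) = c * wt n` (as `ev_monomial` in `Defs.lean`).
`X (i,j) * monomial n c = monomial (n + single (i,j) 1) c`, `pderiv (j,i) (monomial n c) = monomial (n - single (j,i) 1) (c * n (j,i))` (`MvPolynomial.pderiv_monomial`).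
To prove: `wt (n + single (i,j) 1) = n (j,i) * wt (n - single (j,i) 1)`.
Case `i = j`: only the factor `mom (n (i,i) + 1)` resp. `mom (n (i,i) - 1)` differs from `wt n`; `mom (k + 1) = k * mom (k - 1)` (`k = 0`: `mom 1 = 0`).
Case `i < j`: only the factor of the pair `(i,j)` differs: `if n(i,j) + 1 = n(j,i) then (n(i,j)+1)! else 0` against `n(j,i) * (if n(i,j) = n(j,i) - 1 then (n(i,j))! else 0)` (if `n(j,i) = 0` both are `0`; otherwise the conditions are equivalent and `(m+1)! = (m+1) m!`).
Case `j < i`: the factor of the pair `(j,i)`: `if n(j,i) = n(i,j) + 1 then (n(j,i))! else 0` against `n(j,i) * (if n(j,i) - 1 = n(i,j) then (n(j,i) - 1)! else 0)`.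
(To isolate a factor write the double product as a product over the Finset of pairs, `Finset.prod_sigma'`, and use `Finset.prod_erase_mul`/`Finset.prod_congr`.)
-/

namespace SST.T

open MvPolynomial

private theorem wi_prod {ι : Type*} [Fintype ι] [DecidableEq ι] (f g : ι → ℚ) (x0 : ι) (c : ℚ)
    (h0 : f x0 = c * g x0) (h : ∀ x, x ≠ x0 → f x = g x) : ∏ x, f x = c * ∏ x, g x := by
  rw [← Finset.mul_prod_erase Finset.univ f (Finset.mem_univ x0),
    ← Finset.mul_prod_erase Finset.univ g (Finset.mem_univ x0), h0,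
    Finset.prod_congr rfl (fun x hx => h x (Finset.ne_of_mem_erase hx)), mul_assoc]

/-- the factor of a pair -/
private noncomputable def ph {N : ℕ} (n : Fin N × Fin N →₀ ℕ) (x : Fin N × Fin N) : ℚ :=
  if x.1 = x.2 then mom (n (x.1, x.1)) else
    if x.1 < x.2 then
      (if n (x.1, x.2) = n (x.2, x.1) then ((n (x.1, x.2)).factorial : ℚ) else 0) else 1

private theorem ph_prod {N : ℕ} (n : Fin N × Fin N →₀ ℕ) :
    (∏ i, mom (n (i, i))) * ∏ i : Fin N, ∏ j ∈ Finset.Ioi i,
        (if n (i, j) = n (j, i) then ((n (i, j)).factorial : ℚ) else 0) = ∏ x, ph n x := by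
  classical
  rw [Fintype.prod_prod_type, ← Finset.prod_mul_distrib]
  apply Finset.prod_congr rfl
  intro i _
  rw [← Finset.mul_prod_erase Finset.univ (fun j => ph n (i, j)) (Finset.mem_univ i)]
  congr 1
  · unfold ph
    rw [if_pos rfl]
  · have h1 : Finset.Ioi i ⊆ Finset.univ.erase i := by
      intro j hj
      rw [Finset.mem_Ioi] at hj
      exact Finset.mem_erase.2 ⟨ne_of_gt hj, Finset.mem_univ j⟩
    rw [← Finset.prod_subset h1]
    · apply Finset.prod_congr rfl
      intro j hj
      rw [Finset.mem_Ioi] at hj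
      unfold ph
      rw [if_neg (ne_of_lt hj), if_pos hj]
    · intro j hj hj2
      rw [Finset.mem_Ioi] at hj2
      have hne := Finset.ne_of_mem_erase hj
      unfold ph
      rw [if_neg (fun h => hne h.symm), if_neg hj2]

private theorem W_mon (N : ℕ) (n : Fin N × Fin N →₀ ℕ) (c : ℚ) :
    W N (monomial n c) = c * ∏ x, ph n x := by
  have h1 : monomial n c = c • monomial n (1 : ℚ) := by
    rw [smul_monomial, smul_eq_mul, mul_one]
  have h2 : W N (monomial n (1 : ℚ)) = ∏ x, ph n x := by
    rw [← ph_prod]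
    have := (MvPolynomial.basisMonomials (Fin N × Fin N) ℚ).constr_basis ℚ
      (fun n : Fin N × Fin N →₀ ℕ => (∏ i, mom (n (i, i))) *
        ∏ i : Fin N, ∏ j ∈ Finset.Ioi i,
          if n (i, j) = n (j, i) then ((n (i, j)).factorial : ℚ) else 0) n
    rwa [MvPolynomial.coe_basisMonomials] at this
  rw [h1, map_smul, h2, smul_eq_mul]

private theorem ph_congr {N : ℕ} {n n' : Fin N × Fin N →₀ ℕ} {i j : Fin N}
    (h : ∀ y, y ≠ (i, j) → y ≠ (j, i) → n y = n' y) (x : Fin N × Fin N) (hx1 : x ≠ (i, j))
    (hx2 : x ≠ (j, i)) : ph n x = ph n' x := by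
  obtain ⟨a, b⟩ := x
  unfold ph
  simp only
  have hab : n (a, b) = n' (a, b) := h _ hx1 hx2
  have hba : n (b, a) = n' (b, a) := by
    apply h
    · intro h3
      apply hx2
      rw [Prod.mk.injEq] at h3 ⊢
      exact ⟨h3.2, h3.1⟩
    · intro h3
      apply hx1
      rw [Prod.mk.injEq] at h3 ⊢
      exact ⟨h3.2, h3.1⟩
  by_cases h1 : a = b
  · subst h1
    rw [if_pos rfl, if_pos rfl, hab]
  · rw [if_neg h1, if_neg h1, hab, hba]

private theorem wi_arith1 (p q : ℕ) : (if p + 1 = q then ((p + 1).factorial : ℚ) else 0) =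
    q * (if p = q - 1 then (p.factorial : ℚ) else 0) := by
  rcases q with _ | q
  · rw [if_neg (by omega), Nat.cast_zero, zero_mul]
  · rw [Nat.add_sub_cancel]
    by_cases h : p = q
    · rw [if_pos (by omega), if_pos h, h, Nat.factorial_succ]
      push_cast
      ring
    · rw [if_neg (by omega), if_neg h, mul_zero]

private theorem wi_arith2 (p q : ℕ) : (if q = p + 1 then (q.factorial : ℚ) else 0) =
    q * (if q - 1 = p then ((q - 1).factorial : ℚ) else 0) := by
  rcases q with _ | q
  · rw [if_neg (by omega), Nat.cast_zero, zero_mul]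
  · rw [Nat.add_sub_cancel]
    by_cases h : q = p
    · rw [if_pos (by omega), if_pos h, Nat.factorial_succ]
      push_cast
      ring
    · rw [if_neg (by omega), if_neg h, mul_zero]

private theorem wi_mom (k : ℕ) : mom (k + 1) = k * mom (k - 1) := by
  rcases k with _ | k
  · rw [Nat.cast_zero, zero_mul]
    rfl
  · rfl

private theorem wi_key {N : ℕ} (n : Fin N × Fin N →₀ ℕ) (i j : Fin N) :
    ∏ x, ph (n + Finsupp.single (i, j) 1) x =
      (n (j, i) : ℚ) * ∏ x, ph (n - Finsupp.single (j, i) 1) x := by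
  classical
  have hag : ∀ y, y ≠ (i, j) → y ≠ (j, i) →
      (n + Finsupp.single (i, j) 1 : Fin N × Fin N →₀ ℕ) y =
        (n - Finsupp.single (j, i) 1 : Fin N × Fin N →₀ ℕ) y := by
    intro y h1 h2
    rw [Finsupp.add_apply, Finsupp.tsub_apply, Finsupp.single_eq_of_ne h1,
      Finsupp.single_eq_of_ne h2, add_zero, Nat.sub_zero]
  rcases lt_trichotomy i j with hij | hij | hij
  · have hne : (i, j) ≠ (j, i) := by
      intro h
      rw [Prod.mk.injEq] at h
      exact absurd h.1 (ne_of_lt hij)
    refine wi_prod _ _ (i, j) _ ?_ ?_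
    · unfold ph
      simp only
      rw [if_neg (ne_of_lt hij), if_pos hij, if_neg (ne_of_lt hij), if_pos hij]
      rw [Finsupp.add_apply, Finsupp.add_apply, Finsupp.tsub_apply, Finsupp.tsub_apply,
        Finsupp.single_eq_same, Finsupp.single_eq_same, Finsupp.single_eq_of_ne hne,
        Finsupp.single_eq_of_ne hne.symm, add_zero, Nat.sub_zero]
      exact wi_arith1 _ _
    · intro x hx
      by_cases hx2 : x = (j, i)
      · rw [hx2]
        unfold ph
        simp only
        rw [if_neg (ne_of_gt hij), if_neg (not_lt.2 hij.le), if_neg (ne_of_gt hij),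
          if_neg (not_lt.2 hij.le)]
      · exact ph_congr hag x hx hx2
  · subst hij
    refine wi_prod _ _ (i, i) _ ?_ ?_
    · unfold ph
      simp only
      rw [if_pos trivial, if_pos trivial, Finsupp.add_apply, Finsupp.tsub_apply,
        Finsupp.single_eq_same]
      exact wi_mom _
    · intro x hx
      exact ph_congr hag x hx hx
  · have hne : (i, j) ≠ (j, i) := by
      intro h
      rw [Prod.mk.injEq] at h
      exact absurd h.1 (ne_of_gt hij)
    refine wi_prod _ _ (j, i) _ ?_ ?_
    · unfold ph
      simp only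
      rw [if_neg (ne_of_lt hij), if_pos hij, if_neg (ne_of_lt hij), if_pos hij]
      rw [Finsupp.add_apply, Finsupp.add_apply, Finsupp.tsub_apply, Finsupp.tsub_apply,
        Finsupp.single_eq_same, Finsupp.single_eq_same, Finsupp.single_eq_of_ne hne,
        Finsupp.single_eq_of_ne hne.symm, add_zero, Nat.sub_zero]
      exact wi_arith2 _ _
    · intro x hx
      by_cases hx2 : x = (i, j)
      · rw [hx2]
        unfold ph
        simp only
        rw [if_neg (ne_of_gt hij), if_neg (not_lt.2 hij.le), if_neg (ne_of_gt hij),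
          if_neg (not_lt.2 hij.le)]
      · exact ph_congr hag x hx2 hx

theorem W_one (N : ℕ) : W N 1 = 1 := by
  have h1 : (1 : MvPolynomial (Fin N × Fin N) ℚ) = monomial 0 1 := rfl
  rw [h1, W_mon, one_mul]
  apply Finset.prod_eq_one
  intro x _
  unfold ph
  by_cases h2 : x.1 = x.2
  · rw [if_pos h2]
    rfl
  · rw [if_neg h2]
    by_cases h3 : x.1 < x.2
    · rw [if_pos h3]
      simp
    · rw [if_neg h3]

theorem W_ibp (N : ℕ) (i j : Fin N) (F : MvPolynomial (Fin N × Fin N) ℚ) :
    W N (X (i, j) * F) = W N (pderiv (j, i) F) := by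
  induction F using MvPolynomial.induction_on' with
  | monomial n c =>
    have h1 : (X (i, j) : MvPolynomial (Fin N × Fin N) ℚ) * monomial n c =
        monomial (n + Finsupp.single (i, j) 1) c := by
      rw [X, monomial_mul, one_mul, add_comm]
    rw [h1, pderiv_monomial, W_mon, W_mon, wi_key, mul_assoc]
  | add p q hp hq =>
    rw [mul_add, map_add, map_add, map_add, hp, hq]

end SST.T
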