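import Pool.Agent.SST.T.InvRec
import Pool.Agent.SST.T.WIbp

/-!
# SST-T-Wick: Wick's formula

PROOF. Strong induction on `S.card`. `S = ∅`: `W_one`, `inv_empty`, empty products. Otherwise choose `d ∈ S`: `∏ x ∈ S, X (A x, B x) = X (A d, B d) * ∏ x ∈ S.erase d, X (A x, B x)` (`Finset.mul_prod_erase`), `W_ibp`, and `pderiv (B d, A d)` of the product is
`∑ d' ∈ S.erase d, (if (A d', B d') = (B d, A d) then 1 else 0) * ∏ x ∈ (S.erase d).erase d', X (A x, B x)` (product rule, by induction on the Finset or `Derivation.leibniz_prod`-type lemma; `pderiv_X`, `Pi.single_apply`). By the induction hypothesis and `inv_rec` with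
`w x y = if A x = B y then 1 else 0`: `w d d' * w d' d = if A d = B d' ∧ A d' = B d then 1 else 0`.
-/

namespace SST.T

open MvPolynomial

private theorem leib {σ : Type*} [DecidableEq σ] (k : σ) {D : Type*} [DecidableEq D] (c : D → σ)
    (S : Finset D) :
    pderiv k (∏ x ∈ S, (X (c x) : MvPolynomial σ ℚ)) =
      ∑ d ∈ S, (if c d = k then (1 : ℚ) else 0) • ∏ x ∈ S.erase d, X (c x) := by
  induction S using Finset.induction_on with
  | empty => simp
  | @insert a S ha ih =>
    rw [Finset.prod_insert ha, Derivation.leibniz, ih, Finset.sum_insert ha,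
      Finset.erase_insert ha, pderiv_X, Pi.single_apply]
    rw [add_comm, smul_eq_mul, smul_eq_mul]
    congr 1
    · by_cases h : c a = k
      · rw [if_pos h, if_pos h, one_smul, mul_one]
      · rw [if_neg h, if_neg h, zero_smul, mul_zero]
    · rw [Finset.mul_sum]
      refine Finset.sum_congr rfl fun d hd => ?_
      have hne : a ≠ d := fun h => ha (h ▸ hd)
      rw [Finset.erase_insert_of_ne hne, Finset.prod_insert
        (fun h => ha (Finset.mem_of_mem_erase h)), mul_smul_comm]

theorem wick (N : ℕ) {D : Type*} [Fintype D] [DecidableEq D] (A B : D → Fin N) (S : Finset D) :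
    W N (∏ x ∈ S, X (A x, B x)) =
      ∑ α ∈ Inv S, ∏ x ∈ S, (if A x = B (α x) then (1 : ℚ) else 0) := by
  induction hn : S.card using Nat.strong_induction_on generalizing S with
  | _ n ih =>
    rcases S.eq_empty_or_nonempty with h0 | ⟨d, hd⟩
    · subst h0
      rw [Finset.prod_empty, W_one, inv_empty]
      simp
    · rw [← Finset.mul_prod_erase S _ hd, W_ibp, leib (B d, A d) (fun x => (A x, B x)), map_sum,
        inv_rec S d hd (fun x y => if A x = B y then (1 : ℚ) else 0)]
      refine Finset.sum_congr rfl fun d' hd' => ?_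
      have hc : ((S.erase d).erase d').card < n := by
        rw [← hn]
        exact lt_of_le_of_lt (Finset.card_le_card (Finset.erase_subset _ _))
          (Finset.card_erase_lt_of_mem hd)
      rw [map_smul, ih _ hc _ rfl, smul_eq_mul]
      congr 1
      by_cases h1 : A d = B d' <;> by_cases h2 : A d' = B d
      · rw [if_pos (Prod.ext h2 h1.symm), if_pos h1, if_pos h2, mul_one]
      · rw [if_neg (fun h => h2 (congrArg Prod.fst h)), if_neg h2, mul_zero]
      · rw [if_neg (fun h => h1 (congrArg Prod.snd h).symm), if_neg h1, zero_mul]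
      · rw [if_neg (fun h => h2 (congrArg Prod.fst h)), if_neg h2, mul_zero]

end SST.T
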