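import Pool.Agent.SST.T.BHt
import Pool.Agent.SST.T.WB
import Pool.Agent.SST.T.Trace
import Pool.Agent.SST.T.Conj

/-!
# SST-T-Zser: the coefficients of `B ht N 1`
-/

namespace SST.T

open MvPolynomial

theorem coeff_B_aux (N b : ℕ) : ∀ Q : MvPolynomial (Fin N) ℚ,
    (b.factorial : ℚ) * PowerSeries.coeff b (B ht N Q) = B mom N (psum (Fin N) ℚ 3 ^ b * Q) := by
  induction b with
  | zero =>
    intro Q
    rw [PowerSeries.coeff_zero_eq_constantCoeff_apply, const_B]
    simp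
  | succ b ih =>
    intro Q
    have h1 := PowerSeries.coeff_derivative (B ht N Q) b
    rw [der_B] at h1
    have h2 := ih (psum (Fin N) ℚ 3 * Q)
    rw [h1] at h2
    rw [Nat.factorial_succ, pow_succ, mul_assoc (psum (Fin N) ℚ 3 ^ b), ← h2]
    push_cast
    ring

theorem coeff_B (N b : ℕ) : PowerSeries.coeff b (B ht N 1) =
    B mom N 1 * (3 ^ b / ((3 * b).factorial : ℚ) * tot (Fin (3 * b)) N) := by
  have h1 := coeff_B_aux N b 1
  rw [mul_one, ← W_tr3, W_trace] at h1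
  rw [tot_fin]
  have hb : (b.factorial : ℚ) ≠ 0 := Nat.cast_ne_zero.mpr (Nat.factorial_ne_zero b)
  have h3b : ((3 * b).factorial : ℚ) ≠ 0 := Nat.cast_ne_zero.mpr (Nat.factorial_ne_zero _)
  have h3 : (3 : ℚ) ^ b ≠ 0 := by positivity
  apply mul_left_cancel₀ hb
  rw [h1]
  field_simp

end SST.T
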